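import Mathlib

/-!
# Galois-invariant 2-adic Selmer classes of elliptic curves over `k'(t)`

`k` is a field of characteristic different from 2, `k'` a separable closure of `k`, `K = k(t)`,
`F = k'(t)`, and `W` is an elliptic curve over `K`.  This file has the definitions of the classes of
the 2-adic Selmer group of `W` over `F` which are fixed by the Galois group of `K` (all in terms of
continuous cocycles), and of the conditions in the theorems.
-/

set_option autoImplicit false
set_option linter.all false

open Polynomial IsDedekindDomain WeierstrassCurve WeierstrassCurve.Affine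
open scoped Classical

namespace Pool.Agent.TH115.GD

universe u

section points

variable {K Ω Ω' : Type u} [Field K] [Field Ω] [Field Ω'] [Algebra K Ω] [Algebra K Ω']

/-- The group `W(Ω)` of points over an extension `Ω` of `K`. -/
abbrev Pt (W : WeierstrassCurve K) (Ω : Type u) [Field Ω] [Algebra K Ω] : Type u :=
  (W.baseChange Ω).toAffine.Point

/-- The homomorphism `W(Ω) → W(Ω')` given by a `K`-homomorphism `φ : Ω → Ω'`. -/
noncomputable def act (W : WeierstrassCurve K) (φ : Ω →ₐ[K] Ω') : Pt W Ω →+ Pt W Ω' :=
  Point.map (W' := W.toAffine) φ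

/-- The inclusion `F → Ω`, as a `K`-homomorphism. -/
noncomputable def incl (K F Ω : Type u) [Field K] [Field F] [Field Ω] [Algebra K F] [Algebra F Ω]
    [Algebra K Ω] [IsScalarTower K F Ω] : F →ₐ[K] Ω := IsScalarTower.toAlgHom K F Ω

/-- An automorphism of `Ω` over `F`, as a `K`-homomorphism. -/
noncomputable def rs (K : Type u) {F Ω : Type u} [Field K] [Field F] [Field Ω] [Algebra K F]
    [Algebra F Ω] [Algebra K Ω] [IsScalarTower K F Ω] (τ : Ω ≃ₐ[F] Ω) : Ω →ₐ[K] Ω :=
  τ.toAlgHom.restrictScalars K

/-- An automorphism of `Ω` over `K`, as a `K`-homomorphism. -/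
noncomputable def ak (τ : Ω ≃ₐ[K] Ω) : Ω →ₐ[K] Ω := τ.toAlgHom

end points

section cocycles

variable {K F Ω : Type u} [Field K] [Field F] [Field Ω] [Algebra K F] [Algebra F Ω] [Algebra K Ω]
  [IsScalarTower K F Ω] (W : WeierstrassCurve K)

/-- Continuous 1-cocycles of `Gal(Ω / F)` with values in the discrete group `W(Ω)`. -/
structure IsCoc (f : (Ω ≃ₐ[F] Ω) → Pt W Ω) : Prop where
  lc : IsLocallyConstant f
  mul : ∀ σ τ, f (σ * τ) = f σ + act W (rs K σ) (f τ)

/-- `Q` is an element of the Tate module `T_2 W`: `Q 0 = 0`, `2 Q (n + 1) = Q n`. -/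
structure IsTM (Q : ℕ → Pt W Ω) : Prop where
  zero : Q 0 = 0
  two : ∀ n, 2 • Q (n + 1) = Q n

/-- `c` is a continuous 1-cocycle of `Gal(Ω / F)` with values in the Tate module `T_2 W`: `c n` is a
cocycle with values in the points of order `2 ^ n`, and `2 c (n + 1) = c n`. -/
structure IsTC (c : ℕ → (Ω ≃ₐ[F] Ω) → Pt W Ω) : Prop where
  coc : ∀ n, IsCoc W (c n)
  zero : ∀ σ, c 0 σ = 0
  two : ∀ n σ, 2 • c (n + 1) σ = c n σ

/-- The class of `c` in `H ^ 1 (F, V_2 W)` is fixed by `Gal(Ω / K)`: for each `τ` in `Gal(Ω / K)`
there is an `m` such that `2 ^ m (τ c - c)` is the coboundary of an element `Q` of the Tate module.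
Here `(τ c) (σ) = τ (c (σ'))` with `σ' = τ⁻¹ σ τ`. -/
def IsInv (c : ℕ → (Ω ≃ₐ[F] Ω) → Pt W Ω) : Prop :=
  ∀ τ : Ω ≃ₐ[K] Ω, ∃ (m : ℕ) (Q : ℕ → Pt W Ω), IsTM W Q ∧
    ∀ (n : ℕ) (σ σ' : Ω ≃ₐ[F] Ω), (∀ x, τ (σ' x) = σ (τ x)) →
      2 ^ m • (act W (ak τ) (c n σ') - c n σ) = act W (rs K σ) (Q n) - Q n

/-- `L` is an extension of `F` (a completion) and `Ω'` a separable closure of `L`. The restriction of
`f` to `Gal(Ω' / L)`, with values in `W(Ω')`, is a coboundary: for an embedding `ι : Ω → Ω'` there is
a point `P` in `W(Ω')` with `f(τ|Ω) = τ P - P` for all `τ` in `Gal(Ω' / L)`. -/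
def LocTriv (W : WeierstrassCurve K) (L Ω' : Type u) [Field L] [Field Ω'] [Algebra K L]
    [Algebra L Ω'] [Algebra K Ω'] [Algebra F Ω'] [IsScalarTower K L Ω'] [IsScalarTower K F Ω']
    (f : (Ω ≃ₐ[F] Ω) → Pt W Ω) : Prop :=
  ∃ (ι : Ω →ₐ[F] Ω') (P : Pt W Ω'), ∀ (τ : Ω' ≃ₐ[L] Ω') (σ : Ω ≃ₐ[F] Ω),
    (∀ x, τ (ι x) = ι (σ x)) →
      act W (ι.restrictScalars K) (f σ) = act W (rs K τ) P - P

end cocycles

/-! ### Separable closures and completions -/

/-- A separable closure of `F`. -/
def Sep (F : Type) [Field F] : Type := SeparableClosure F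

section sep

variable (F : Type) [Field F]

noncomputable instance sepField : Field (Sep F) := (inferInstance : Field (SeparableClosure F))

/-- `Sep F` as a `K`-algebra. -/
noncomputable instance sepAlgebra (K : Type) [Field K] [Algebra K F] : Algebra K (Sep F) :=
  (inferInstance : Algebra K (SeparableClosure F))

instance sepTower (K : Type) [Field K] [Algebra K F] : IsScalarTower K F (Sep F) :=
  (inferInstance : IsScalarTower K F (SeparableClosure F))

instance sepClosure : IsSepClosure F (Sep F) :=
  (inferInstance : IsSepClosure F (SeparableClosure F))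

instance sepClosed : IsSepClosed (Sep F) := IsSepClosure.sep_closed F

instance sepGalois : IsGalois F (Sep F) := inferInstance

instance (priority := low) sepTower' (K L : Type) [Field K] [Field L] [Algebra K L] [Algebra K F]
    [Algebra L F] [IsScalarTower K L F] : IsScalarTower K L (Sep F) := by
  refine IsScalarTower.of_algebraMap_eq fun x => ?_
  rw [IsScalarTower.algebraMap_apply K F (Sep F), IsScalarTower.algebraMap_apply L F (Sep F),
    IsScalarTower.algebraMap_apply K L F]

end sep

/-- The completion of `F = Frac R` at the maximal ideal `v` of `R`. -/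
def Comp (R F : Type) [CommRing R] [IsDedekindDomain R] [Field F] [Algebra R F]
    [IsFractionRing R F] (v : HeightOneSpectrum R) : Type := v.adicCompletion F

section comp

variable (R F : Type) [CommRing R] [IsDedekindDomain R] [Field F] [Algebra R F]
  [IsFractionRing R F] (v : HeightOneSpectrum R)

noncomputable instance compField : Field (Comp R F v) :=
  (inferInstance : Field (v.adicCompletion F))

noncomputable instance compAlgebra : Algebra F (Comp R F v) :=
  (inferInstance : Algebra F (v.adicCompletion F))

/-- The completion as an algebra over a subfield `K` of `F`. -/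
noncomputable instance (priority := low) compAlgebra' (K : Type) [Field K] [Algebra K F] :
    Algebra K (Comp R F v) :=
  ((algebraMap F (Comp R F v)).comp (algebraMap K F)).toAlgebra

instance compTower (K : Type) [Field K] [Algebra K F] : IsScalarTower K F (Comp R F v) :=
  IsScalarTower.of_algebraMap_eq fun _ => rfl

end comp

/-- The prime ideal `(X - θ)` of `k'[X]`. -/
noncomputable def pl {k' : Type} [Field k'] (θ : k') : HeightOneSpectrum k'[X] where
  asIdeal := Ideal.span {X - C θ}
  isPrime := (Ideal.span_singleton_prime (X_sub_C_ne_zero θ)).2 (prime_X_sub_C θ)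
  ne_bot := by rw [Ne, Ideal.span_singleton_eq_bot]; exact X_sub_C_ne_zero θ

/-- The field `F = k'(t)`, as the field of fractions of `k'[1/t]`. -/
def AtInf (F : Type) : Type := F

section inf

variable (k' F : Type) [Field k'] [Field F] [Algebra k'[X] F]

noncomputable instance infField (F : Type) [Field F] : Field (AtInf F) := (inferInstance : Field F)

/-- The homomorphism `k'[X] → k'(t)` which maps `X` to `1/t`. -/
noncomputable def infMap : k'[X] →+* F :=
  eval₂RingHom ((algebraMap k'[X] F).comp C) (algebraMap k'[X] F X)⁻¹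

noncomputable instance infAlgebra : Algebra k'[X] (AtInf F) := (infMap k' F).toAlgebra

variable {k' F} in
theorem std_eq (p : k'[X]) : algebraMap k'[X] F p =
    eval₂ ((algebraMap k'[X] F).comp C) (algebraMap k'[X] F X) p := by
  rw [← hom_eval₂, eval₂_C_X]

variable {k' F} in
theorem infMap_eq [IsFractionRing k'[X] F] (p : k'[X]) :
    infMap k' F p = algebraMap k'[X] F (reverse p) * ((algebraMap k'[X] F X)⁻¹) ^ p.natDegree := by
  have hX : algebraMap k'[X] F X ≠ 0 := by simp
  letI : Invertible (algebraMap k'[X] F X)⁻¹ := invertibleOfNonzero (inv_ne_zero hX)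
  have h1 := eval₂_reverse_mul_pow ((algebraMap k'[X] F).comp C) (algebraMap k'[X] F X)⁻¹ p
  rw [invOf_eq_inv, inv_inv, ← std_eq] at h1
  rw [h1]
  rfl

variable {k' F} in
theorem std_inf [IsFractionRing k'[X] F] (p : k'[X]) :
    algebraMap k'[X] F p = infMap k' F (reverse p) * (algebraMap k'[X] F X) ^ p.natDegree := by
  have hX : algebraMap k'[X] F X ≠ 0 := by simp
  letI : Invertible (algebraMap k'[X] F X) := invertibleOfNonzero hX
  have h1 := eval₂_reverse_mul_pow ((algebraMap k'[X] F).comp C) (algebraMap k'[X] F X) p
  rw [invOf_eq_inv, ← std_eq] at h1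
  rw [← h1]
  rfl

instance infFraction [IsFractionRing k'[X] F] : IsFractionRing k'[X] (AtInf F) := by
  have hX : algebraMap k'[X] F X ≠ 0 := by simp
  have hinj : Function.Injective (infMap k' F) := by
    rw [injective_iff_map_eq_zero]
    intro p hp
    rw [infMap_eq] at hp
    rcases mul_eq_zero.1 hp with h | h
    · have h3 : reverse p = 0 := by simpa using h
      exact reverse_eq_zero.1 h3
    · exact absurd h (pow_ne_zero _ (inv_ne_zero hX))
  haveI : FaithfulSMul k'[X] (AtInf F) := (faithfulSMul_iff_algebraMap_injective _ _).2 hinj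
  apply IsFractionRing.of_field
  intro z
  obtain ⟨n, d, hd, e⟩ := IsFractionRing.div_surjective (A := k'[X]) (K := F) z
  have hd0 : d ≠ 0 := nonZeroDivisors.ne_zero hd
  refine ⟨reverse n * X ^ d.natDegree, reverse d * X ^ n.natDegree, ?_⟩
  show z = infMap k' F _ / infMap k' F _
  have hXi : infMap k' F X = (algebraMap k'[X] F X)⁻¹ := by
    simp [infMap]
  have hrd : infMap k' F (reverse d) ≠ 0 := by
    rw [Ne, map_eq_zero_iff _ hinj, reverse_eq_zero]
    exact hd0
  rw [map_mul, map_mul, map_pow, map_pow, hXi, inv_pow, inv_pow]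
  have e2 := std_inf (F := F) n
  have e3 := std_inf (F := F) d
  rw [← e, e2, e3]
  field_simp

end inf

/-- The completion of `F = k'(t)` at the place `t = ∞`: the completion of the field of fractions
of `k'[1/t]` at the ideal generated by `1/t`. -/
def CompInf (k' F : Type) [Field k'] [Field F] [Algebra k'[X] F] [IsFractionRing k'[X] F] : Type :=
  Comp k'[X] (AtInf F) (pl (0 : k'))

section compinf

variable (k' F : Type) [Field k'] [Field F] [Algebra k'[X] F] [IsFractionRing k'[X] F]

noncomputable instance compInfField : Field (CompInf k' F) :=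
  (inferInstance : Field (Comp k'[X] (AtInf F) (pl (0 : k'))))

noncomputable instance compInfAlgebra : Algebra F (CompInf k' F) :=
  (inferInstance : Algebra (AtInf F) (Comp k'[X] (AtInf F) (pl (0 : k'))))

/-- The completion as an algebra over a subfield `K` of `F`. -/
noncomputable instance (priority := low) compInfAlgebra' (K : Type) [Field K] [Algebra K F] :
    Algebra K (CompInf k' F) :=
  ((algebraMap F (CompInf k' F)).comp (algebraMap K F)).toAlgebra

instance compInfTower (K : Type) [Field K] [Algebra K F] : IsScalarTower K F (CompInf k' F) :=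
  IsScalarTower.of_algebraMap_eq fun _ => rfl

end compinf

/-! ### The statements -/

section stmt

variable {K F : Type} [Field K] [Field F] [Algebra K F]

/-- `k'` is a separable closure of `k`, and the inclusion of `K = k(t)` in `F = k'(t)` is the
inclusion of `k` in `k'` on the coefficients. -/
structure IsTower (k k' K F : Type) [Field k] [Field k'] [Algebra k k'] [Field K] [Algebra k[X] K]
    [Field F] [Algebra k'[X] F] [Algebra K F] : Prop where
  sep : IsSepClosure k k'
  fracK : IsFractionRing k[X] K
  map : ∀ p : k[X], algebraMap K F (algebraMap k[X] K p) =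
    algebraMap k'[X] F (p.map (algebraMap k k'))

/-- A cochain of `Gal(Sep F / F)` with values in `W` is locally trivial if its restriction to the
Galois group of the completion of `F = k'(t)` is a coboundary at every place of `F`: at the
maximal ideals of `k'[t]` and at the place `t = ∞`. -/
def LocallyTrivial (k' : Type) [Field k'] [Algebra k'[X] F] [IsFractionRing k'[X] F]
    (W : WeierstrassCurve K) (f : (Sep F ≃ₐ[F] Sep F) → Pt W (Sep F)) : Prop :=
  (∀ v : HeightOneSpectrum k'[X], LocTriv W (Comp k'[X] F v) (Sep (Comp k'[X] F v)) f) ∧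
  LocTriv W (CompInf k' F) (Sep (CompInf k' F)) f

/-- The Tate conjecture at the prime 2 for the elliptic surface with generic fibre `W` over
`K = k(t)`: the classes in the 2-adic Selmer group `V_2 Sel(W / F)`, `F = k'(t)`, which are fixed by
the Galois group, come from `W(K)`. If `c` is a cocycle of `Gal(Sep F / F)` with values in `T_2 W`
which is everywhere locally trivial, and the class of `c` is fixed by the Galois group of `K`, then
for every `n` there are a point `P` of `W(K)` and a point `R` with `2 ^ n R = P` such that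
`c n σ = σ R - R` for all `σ`. -/
def TateAtTwo (k' : Type) [Field k'] [Algebra k'[X] F] [IsFractionRing k'[X] F]
    (W : WeierstrassCurve K) : Prop :=
  ∀ c : ℕ → (Sep F ≃ₐ[F] Sep F) → Pt W (Sep F), IsTC W c →
    (∀ n, LocallyTrivial k' W (c n)) → IsInv W c →
    ∀ n, ∃ (P : Pt W K) (R : Pt W (Sep F)), 2 ^ n • R = act W (incl K K (Sep F)) P ∧
      ∀ σ, c n σ = act W (rs K σ) R - R

end stmt

/-- The curve `y ^ 2 = x (x - a) (x - b)`. -/
def crv {K : Type*} [Field K] (a b : K) : WeierstrassCurve K := ⟨0, -(a + b), 0, a * b, 0⟩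

section square

variable {F : Type*} [Field F] {W : Affine F}

/-- Representative of `x(Q)` modulo squares (`a b` if `x(Q) = 0`). -/
noncomputable def d0 (a b : F) : W.Point → F
  | .zero => 1
  | .some x _ _ => if x = 0 then a * b else x

/-- Representative of `x(Q) - a` modulo squares (`a (a - b)` if `x(Q) = a`). -/
noncomputable def d1 (a b : F) : W.Point → F
  | .zero => 1
  | .some x _ _ => if x = a then a * (a - b) else x - a

end square

section conditions

variable {k : Type} [Field k]

/-- The polynomial `p` over `k` is equal to `d` up to squares of `F`. -/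
def Represents (K F : Type) [Field K] [Algebra k[X] K] [Field F] [Algebra K F] (p : k[X]) (d : K) :
    Prop :=
  ∃ c : F, c ≠ 0 ∧ algebraMap K F (algebraMap k[X] K p) = c ^ 2 * algebraMap K F d

/-- The condition on a triple of divisors `(A, B, D)` of `a`, `b`, `a - b` at the place `t = ∞`: no
condition if the maximum of the degrees of `a` and `b` is odd; otherwise `A B`, `A D`, `B D` have
even degree if `a` and `b`, `a` and `a - b`, `b` and `a - b` respectively have maximal degree. -/
def InfCond (a b A B D : k[X]) : Prop :=
  Even (max a.natDegree b.natDegree) →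
    (a.natDegree = b.natDegree → Even (A * B).natDegree) ∧
    (a.natDegree = max a.natDegree b.natDegree → (a - b).natDegree = max a.natDegree b.natDegree →
      Even (A * D).natDegree) ∧
    (b.natDegree = max a.natDegree b.natDegree → (a - b).natDegree = max a.natDegree b.natDegree →
      Even (B * D).natDegree)

/-- For all squarefree monic divisors `A`, `B`, `D` of `a`, `b`, `a - b` which satisfy the condition
at infinity there is a point `P` of the curve `y ^ 2 = x (x - a) (x - b)` over `K` such that
`A B = x(P)` and `A D = x(P) - a` modulo squares of `F`. -/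
def EnoughPoints (K F : Type) [Field K] [Algebra k[X] K] [Field F] [Algebra K F] (a b : k[X]) :
    Prop :=
  ∀ A B D : k[X], A.Monic → B.Monic → D.Monic → Squarefree A → Squarefree B → Squarefree D →
    A ∣ a → B ∣ b → D ∣ a - b → InfCond a b A B D →
    ∃ P : Pt (crv (algebraMap k[X] K a) (algebraMap k[X] K b)) K,
      Represents K F (A * B) (d0 (algebraMap k[X] K a) (algebraMap k[X] K b) P) ∧
      Represents K F (A * D) (d1 (algebraMap k[X] K a) (algebraMap k[X] K b) P)

/-- `p` has an irreducible factor of odd degree and odd multiplicity. -/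
def HasOddFactor (p : k[X]) : Prop :=
  ∃ (π : k[X]) (m : ℕ), Irreducible π ∧ Odd π.natDegree ∧ π ^ (2 * m + 1) ∣ p ∧
    ¬ π ^ (2 * m + 2) ∣ p

/-- Two of the polynomials `a`, `b`, `a - b` have an irreducible factor of odd degree and odd
multiplicity. -/
def TwoOddFactors (a b : k[X]) : Prop :=
  (HasOddFactor a ∧ HasOddFactor b) ∨ (HasOddFactor a ∧ HasOddFactor (a - b)) ∨
    (HasOddFactor b ∧ HasOddFactor (a - b))

end conditions

end Pool.Agent.TH115.GD
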