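import Pool.Agent.TH115.GD.Defs

/-!
# The number of Galois-invariant classes: definitions
-/

set_option autoImplicit false
set_option linter.all false

open Polynomial IsDedekindDomain WeierstrassCurve WeierstrassCurve.Affine
open scoped Classical

namespace Pool.Agent.TH115.GD

/-- The triples `(A, B, D)` of monic squarefree divisors of `a`, `b`, `a - b` which satisfy the
condition at infinity. If the maximum of the degrees of `a` and `b` is odd there is no condition at
infinity, and the number of triples is `2 ^ ω`, where `ω` is the number of irreducible factors of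
`a b (a - b)`. -/
def Triples {k : Type} [Field k] (a b : k[X]) : Set (k[X] × k[X] × k[X]) :=
  {t | t.1.Monic ∧ t.2.1.Monic ∧ t.2.2.Monic ∧ Squarefree t.1 ∧ Squarefree t.2.1 ∧
    Squarefree t.2.2 ∧ t.1 ∣ a ∧ t.2.1 ∣ b ∧ t.2.2 ∣ a - b ∧ InfCond a b t.1 t.2.1 t.2.2}

/-- The cocycles with values in `T_2 W` whose classes are everywhere locally trivial and fixed by
the Galois group of `K`. -/
structure IsTateClass {K F : Type} [Field K] [Field F] [Algebra K F] (k' : Type) [Field k']
    [Algebra k'[X] F] [IsFractionRing k'[X] F]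
    (W : WeierstrassCurve K) (c : ℕ → (Sep F ≃ₐ[F] Sep F) → Pt W (Sep F)) : Prop where
  tc : IsTC W c
  loc : ∀ n, LocallyTrivial k' W (c n)
  inv : IsInv W c

/-- The classes of `V_2 Sel(W / F)` which are fixed by the Galois group of `K` are generated by at
most `d` elements: there are `m ≤ d` Tate classes `e i` such that for every Tate class `c` and every
`n` the cocycle `c n` is a linear combination of the `e i n` up to the coboundary of a point `R`
with `2 ^ (n + 1) R = 0`. -/
def GeneratedBy {K F : Type} [Field K] [Field F] [Algebra K F] (k' : Type) [Field k']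
    [Algebra k'[X] F] [IsFractionRing k'[X] F] (W : WeierstrassCurve K) (d : ℕ) : Prop :=
  ∃ (m : ℕ) (e : Fin m → ℕ → (Sep F ≃ₐ[F] Sep F) → Pt W (Sep F)), m ≤ d ∧
    (∀ i, IsTateClass k' W (e i)) ∧
    ∀ c : ℕ → (Sep F ≃ₐ[F] Sep F) → Pt W (Sep F), IsTateClass k' W c → ∀ n,
      ∃ (z : Fin m → ℤ) (R : Pt W (Sep F)), 2 ^ (n + 1) • R = 0 ∧
        ∀ σ, c n σ = ∑ i, z i • e i n σ + (act W (rs K σ) R - R)

end Pool.Agent.TH115.GD
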