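import Mathlib

/-!
# The points of the trigonal curve which count in the bound

`C` is the curve `f(x, t) = x³ + a₂ x² + a₄ x + a₆ = 0` over `k`, `N = k(t)(θ)`, `f(θ) = 0`, its
function field, and `R` the integral closure of `k[t]` in `N` (the ring of regular functions of the
normalization of `C`).
-/

set_option autoImplicit false
set_option linter.all false

open Polynomial IsDedekindDomain

namespace Pool.Agent.TH115.GD

section

variable {k N R : Type} [Field k] [Field N] [Algebra k[X] N] [CommRing R] [IsDedekindDomain R]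
  [Algebra R N] [IsFractionRing R N]

/-- The function `∂f/∂x = 3 x² + 2 a₂ x + a₄` on the curve `f(x, t) = 0`. -/
noncomputable def fxAt (a₂ a₄ : k[X]) (θ : N) : N :=
  3 * θ ^ 2 + 2 * algebraMap k[X] N a₂ * θ + algebraMap k[X] N a₄

/-- The function `∂f/∂t = a₂' x² + a₄' x + a₆'` on the curve `f(x, t) = 0`. -/
noncomputable def ftAt (a₂ a₄ a₆ : k[X]) (θ : N) : N :=
  algebraMap k[X] N (derivative a₂) * θ ^ 2 + algebraMap k[X] N (derivative a₄) * θ +
    algebraMap k[X] N (derivative a₆)

/-- The prime `P` of `R` lies over a zero of `D` or over a singular point of the curve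
`C : f(x, t) = 0` (a point at which `∂f/∂x` and `∂f/∂t` vanish). -/
def IsBad (a₂ a₄ a₆ D : k[X]) (θ : N) (P : HeightOneSpectrum R) : Prop :=
  P.valuation N (algebraMap k[X] N D) < 1 ∨
    (P.valuation N (fxAt a₂ a₄ θ) < 1 ∧ P.valuation N (ftAt a₂ a₄ a₆ θ) < 1)

end

section

variable {A R : Type} [CommRing A] [IsDedekindDomain A] [CommRing R] [IsDedekindDomain R]
  [Algebra A R] [Module.Finite A R] [Module.IsTorsionFree A R]

/-- The degree of the prime `P` of `R` over the prime `v = P ∩ A` of `A`: the exponent of `v` in the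
norm of the ideal `P`. -/
noncomputable def relDegree (A : Type) [CommRing A] [IsDedekindDomain A] [Algebra A R]
    [Module.Finite A R] [Module.IsTorsionFree A R] (P : HeightOneSpectrum R) : ℕ :=
  (Associates.mk (P.under A).asIdeal).count
    (Associates.mk (Ideal.relNorm A P.asIdeal)).factors

end

section

variable {k N R : Type} [Field k] [Field N] [Algebra k[X] N] [CommRing R] [IsDedekindDomain R]
  [Algebra R N] [IsFractionRing R N] [Algebra k[X] R] [Module.Finite k[X] R]
  [Module.IsTorsionFree k[X] R]

/-- The number of the bad primes of `R`, minus the number of the primes of `k[t]` over which there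
is a bad prime of odd degree. -/
noncomputable def badSum (R : Type) [CommRing R] [IsDedekindDomain R]
    [Algebra R N] [IsFractionRing R N] [Algebra k[X] R] [Module.Finite k[X] R]
    [Module.IsTorsionFree k[X] R] (a₂ a₄ a₆ D : k[X]) (θ : N) : ℕ :=
  Nat.card {P : HeightOneSpectrum R // IsBad a₂ a₄ a₆ D θ P} -
    Nat.card {v : HeightOneSpectrum k[X] // ∃ P : HeightOneSpectrum R,
      IsBad a₂ a₄ a₆ D θ P ∧ P.under k[X] = v ∧ Odd (relDegree k[X] P)}

end

end Pool.Agent.TH115.GD
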