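import Pool.Agent.TH115.GD.Rk2

/-!
A family of Legendre curves of rank one.
-/

set_option autoImplicit false
set_option linter.all false

open Polynomial IsDedekindDomain WeierstrassCurve WeierstrassCurve.Affine
open scoped Classical

namespace Pool.Agent.TH115.GD

section leg

theorem dec3 : ∀ x0 x1 y0 y1 : Fin 2, ((x0 : ℕ) + x1 + (y0 + y1)) % 2 = 0 →
    ∃ e : Fin 3 → Fin 2,
    (∀ i, ((![0, 0, 0, 0] : Fin 4 → ℕ) i +
      (![(x0 : ℕ), x1, 0, 0] : Fin 4 → ℕ) i) % 2 =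
      (∑ j, (e j : ℕ) * (![![1, 1, 0, 0], ![0, 0, 0, 0], ![1, 0, 0, 0]] :
        Fin 3 → Fin 4 → ℕ) j i) % 2) ∧
    ∀ i, ((![0, 0, 0, 0] : Fin 4 → ℕ) i +
      (![0, 0, (y0 : ℕ), y1] : Fin 4 → ℕ) i) % 2 =
      (∑ j, (e j : ℕ) * (![![0, 0, 0, 0], ![0, 0, 1, 1], ![0, 0, 1, 0]] :
        Fin 3 → Fin 4 → ℕ) j i) % 2 := by
  decide

/-- `y ^ 2 = x (x - 1) (x - g)` with `g = h (1 - (h - 1) w ^ 2)` and the point
`(h, h (h - 1) w)`. -/
theorem legendre {k k' K F : Type} [Field k] [Field k'] [Algebra k k'] [Field K] [Algebra k[X] K]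
    [Field F] [Algebra k'[X] F] [IsFractionRing k'[X] F] [Algebra K F] (hT : IsTower k k' K F)
    (h2 : (2 : k) ≠ 0) {h w : k[X]} (hw : 0 < w.natDegree) (hodd : Odd h.natDegree)
    (hgood : ∀ f ∈ ({h, 1 - (h - 1) * w ^ 2, h - 1, 1 - h * w ^ 2} : Set k[X]),
      Irreducible f ∧ f.Separable) :
    TateAtTwo (F := F) k'
      (crv (algebraMap k[X] K 1) (algebraMap k[X] K (h * (1 - (h - 1) * w ^ 2)))) := by
  have G1 := hgood h (by simp)
  have G2 := hgood (1 - (h - 1) * w ^ 2) (by simp)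
  have G3 := hgood (h - 1) (by simp)
  have G4 := hgood (1 - h * w ^ 2) (by simp)
  have hw0 : w ≠ 0 := by
    rintro rfl
    simp at hw
  have hm1 : (-1 : k) ≠ 0 := neg_ne_zero.2 one_ne_zero
  have n3 : (h - 1).natDegree = h.natDegree := by
    rw [natDegree_sub_eq_left_of_natDegree_lt]
    rw [natDegree_one]; exact hodd.pos
  have n2 : (1 - (h - 1) * w ^ 2).natDegree = h.natDegree + 2 * w.natDegree := by
    have e : ((h - 1) * w ^ 2).natDegree = h.natDegree + 2 * w.natDegree := by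
      rw [natDegree_mul G3.1.ne_zero (pow_ne_zero 2 hw0), natDegree_pow, n3]
    rw [natDegree_sub_eq_right_of_natDegree_lt, e]
    rw [natDegree_one, e]; omega
  have n4 : (1 - h * w ^ 2).natDegree = h.natDegree + 2 * w.natDegree := by
    have e : (h * w ^ 2).natDegree = h.natDegree + 2 * w.natDegree := by
      rw [natDegree_mul G1.1.ne_zero (pow_ne_zero 2 hw0), natDegree_pow]
    rw [natDegree_sub_eq_right_of_natDegree_lt, e]
    rw [natDegree_one, e]; omega
  have cop : ∀ {u v : k[X]}, Irreducible u → Irreducible v → u.natDegree ≠ v.natDegree →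
      IsCoprime u v := by
    intro u v hu hv hne
    rw [hu.coprime_iff_not_dvd]
    intro hd
    apply hne
    have h1 := hv.dvd_iff.1 hd
    rcases h1 with h1 | h1
    · exact absurd h1 hu.not_isUnit
    · exact (natDegree_eq_of_degree_eq (degree_eq_degree_of_associated h1)).symm
  have c12 : IsCoprime h (1 - (h - 1) * w ^ 2) := cop G1.1 G2.1 (by rw [n2]; omega)
  have c34 : IsCoprime (h - 1) (1 - h * w ^ 2) := cop G3.1 G4.1 (by rw [n3, n4]; omega)
  set g := h * (1 - (h - 1) * w ^ 2) with hg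
  have ha : (1 : k[X]) ≠ 0 := one_ne_zero
  have hb : g ≠ 0 := mul_ne_zero G1.1.ne_zero G2.1.ne_zero
  have ec : 1 - g = C (-1) * ((h - 1) * (1 - h * w ^ 2)) := by
    rw [hg, C_neg, C_1]; ring
  have hab : (1 : k[X]) ≠ g := by
    rw [← sub_ne_zero, ec]
    exact mul_ne_zero (C_ne_zero.2 hm1) (mul_ne_zero G3.1.ne_zero G4.1.ne_zero)
  have db : g.natDegree = h.natDegree + (h.natDegree + 2 * w.natDegree) := by
    rw [hg, natDegree_mul G1.1.ne_zero G2.1.ne_zero, n2]
  have dc : (1 - g).natDegree = h.natDegree + (h.natDegree + 2 * w.natDegree) := by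
    rw [ec, natDegree_C_mul hm1, natDegree_mul G3.1.ne_zero G4.1.ne_zero, n3, n4]
  refine criterion hT h2 ha hb hab isCoprime_one_left ?_ (Or.inr (Or.inr (Or.inr ⟨?_, ?_⟩))) ?_
  · intro π hπ hd
    rw [ec, one_mul] at hd
    rcases hπ.prime.dvd_or_dvd hd with h' | h'
    · rcases hπ.prime.dvd_or_dvd h' with h' | h'
      · exact G1.2.of_dvd h'
      · exact G2.2.of_dvd h'
    · rcases hπ.prime.dvd_or_dvd (dvd_unit_mul hm1 h') with h' | h'
      · exact G3.2.of_dvd h'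
      · exact G4.2.of_dvd h'
  · exact odd_factor G1.1 hodd c12
  · obtain ⟨π, m, h1, h3, h4, h5⟩ := odd_factor G3.1 (n3.symm ▸ hodd) c34
    have hu : IsUnit (C (-1) : k[X]) := isUnit_C.2 (isUnit_iff_ne_zero.2 hm1)
    rw [ec]
    exact ⟨π, m, h1, h3, (hu.dvd_mul_left).2 h4, fun h6 => h5 ((hu.dvd_mul_left).1 h6)⟩
  · intro A B D hA hB hD _ _ _ dA dB dD hinf
    rw [ec] at dD
    obtain ⟨c1, h1, rfl⟩ := dvd_C (A := A) (u := (1 : k)) one_ne_zero (by rw [C_1]; exact dA)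
    obtain ⟨c2, x0, x1, h3, rfl⟩ := dvd_irr2 (A := B) G1.1 G2.1
      (one_ne_zero (α := k)) (by rw [C_1, one_mul]; exact dB)
    obtain ⟨c3, y0, y1, h4, rfl⟩ := dvd_irr2 G3.1 G4.1 hm1 dD
    have hmax : max (1 : k[X]).natDegree g.natDegree = g.natDegree :=
      max_eq_right (by rw [natDegree_one]; exact Nat.zero_le _)
    have hev : Even (max (1 : k[X]).natDegree g.natDegree) := by
      rw [hmax, db]; exact ⟨h.natDegree + w.natDegree, by ring⟩
    obtain ⟨-, -, i3⟩ := hinf hev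
    have j3 := i3 hmax.symm (by rw [hmax, dc, db])
    rw [natDegree_mul hB.ne_zero hD.ne_zero, natDegree_C_mul h3, natDegree_C_mul h4,
      natDegree_mul (pow_ne_zero _ G1.1.ne_zero) (pow_ne_zero _ G2.1.ne_zero),
      natDegree_mul (pow_ne_zero _ G3.1.ne_zero) (pow_ne_zero _ G4.1.ne_zero), natDegree_pow,
      natDegree_pow, natDegree_pow, natDegree_pow, n2, n3, n4] at j3
    have e : (x0 : ℕ) * h.natDegree + x1 * (h.natDegree + 2 * w.natDegree) +
        (y0 * h.natDegree + y1 * (h.natDegree + 2 * w.natDegree)) =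
        h.natDegree * (x0 + x1 + (y0 + y1)) + 2 * (w.natDegree * (x1 + y1)) := by ring
    rw [e, Nat.even_add] at j3
    have k1 : ((x0 : ℕ) + x1 + (y0 + y1)) % 2 = 0 := by
      rcases Nat.even_mul.1 (j3.2 (even_two_mul _)) with h' | h'
      · exact absurd h' (Nat.not_even_iff_odd.2 hodd)
      · exact Nat.even_iff.1 h'
    have hpne : ∀ i, (![h, 1 - (h - 1) * w ^ 2, h - 1, 1 - h * w ^ 2] : Fin 4 → k[X]) i ≠ 0 := by
      intro i
      fin_cases i
      · exact G1.1.ne_zero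
      · exact G2.1.ne_zero
      · exact G3.1.ne_zero
      · exact G4.1.ne_zero
    obtain ⟨T0, hT0⟩ := pt_zero (F := F) hT h2 ha hb hab (p := h * (1 - (h - 1) * w ^ 2)) (q := 1)
      (SqEq.of_eq (by rw [one_mul])) (SqEq.refl _)
    obtain ⟨Ta, hTa⟩ := pt_a (F := F) hT h2 ha hb hab (p := 1) (q := (h - 1) * (1 - h * w ^ 2))
      (SqEq.refl _) (by
        rw [ec, one_mul]
        exact (emb_C_mul hT h2 hm1 _).symm)
    obtain ⟨R, hR⟩ := exists_pt (F := F) hT h2 ha hb hab (x := h) (y := h * (h - 1) * w) (p := h)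
      (q := h - 1) (by rw [hg]; ring) (by rw [if_neg G1.1.ne_zero]; exact SqEq.refl _) (by
        rw [if_neg (sub_ne_zero.1 G3.1.ne_zero)]
        exact SqEq.refl _)
    refine triple hT h2 ha hb hab hpne (G := ![T0, Ta, R])
      (M0 := ![![1, 1, 0, 0], ![0, 0, 0, 0], ![1, 0, 0, 0]])
      (M1 := ![![0, 0, 0, 0], ![0, 0, 1, 1], ![0, 0, 1, 0]]) ?_ h1 h3 h4 (x := ![0, 0, 0, 0])
      (y := ![x0, x1, 0, 0]) (z := ![0, 0, y0, y1]) ?_ ?_ ?_ ?_
    · intro j
      fin_cases j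
      · simpa [Fin.prod_univ_four] using hT0
      · simpa [Fin.prod_univ_four] using hTa
      · simpa [Fin.prod_univ_four] using hR
    · simp [Fin.prod_univ_four]
    · simp [Fin.prod_univ_four]
    · simp [Fin.prod_univ_four]
    · exact dec3 x0 x1 y0 y1 k1

end leg

end Pool.Agent.TH115.GD
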