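import Pool.Agent.TH115.GD.Rk

/-!
Families of rank one and two.
-/

set_option autoImplicit false
set_option linter.all false

open Polynomial IsDedekindDomain WeierstrassCurve WeierstrassCurve.Affine
open scoped Classical

namespace Pool.Agent.TH115.GD

section rank1

theorem dec1 : ∀ x y z : Fin 2, ∃ e : Fin 3 → Fin 2,
    (∀ i, ((![(x : ℕ), 0, 0] : Fin 3 → ℕ) i + (![0, (y : ℕ), 0] : Fin 3 → ℕ) i) % 2 =
      (∑ j, (e j : ℕ) * (![![1, 1, 0], ![1, 0, 0], ![0, 0, 0]] : Fin 3 → Fin 3 → ℕ) j i) % 2) ∧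
    ∀ i, ((![(x : ℕ), 0, 0] : Fin 3 → ℕ) i + (![0, 0, (z : ℕ)] : Fin 3 → ℕ) i) % 2 =
      (∑ j, (e j : ℕ) * (![![1, 0, 0], ![1, 0, 1], ![0, 0, 1]] : Fin 3 → Fin 3 → ℕ) j i) % 2 := by
  decide

/-- Rank one: `y ^ 2 = x (x - c + g) (x - c + e g)`. -/
theorem rank1 {k k' K F : Type} [Field k] [Field k'] [Algebra k k'] [Field K] [Algebra k[X] K]
    [Field F] [Algebra k'[X] F] [IsFractionRing k'[X] F] [Algebra K F] (hT : IsTower k k' K F)
    (h2 : (2 : k) ≠ 0) {c e m : k} (hm : m ≠ 0) (hce : c * e = m ^ 2) (he1 : e ≠ 1) {g : k[X]}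
    (hg : Irreducible g) (hga : Irreducible (C c - g)) (hgb : Irreducible (C c - C e * g))
    (hsg : g.Separable) (hsa : (C c - g).Separable) (hsb : (C c - C e * g).Separable)
    (hodd : Odd g.natDegree) :
    TateAtTwo (F := F) k'
      (crv (algebraMap k[X] K (C c - g)) (algebraMap k[X] K (C c - C e * g))) := by
  have hc : c ≠ 0 := by
    rintro rfl
    rw [zero_mul] at hce
    exact pow_ne_zero 2 hm hce.symm
  have he : e ≠ 0 := by
    rintro rfl
    rw [mul_zero] at hce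
    exact pow_ne_zero 2 hm hce.symm
  have he' : e - 1 ≠ 0 := sub_ne_zero.2 he1
  have ha : C c - g ≠ 0 := hga.ne_zero
  have hb : C c - C e * g ≠ 0 := hgb.ne_zero
  have hsub : (C c - g) - (C c - C e * g) = C (e - 1) * g := by
    rw [C_sub, C_1]; ring
  have hab : C c - g ≠ C c - C e * g := by
    intro h
    rw [← sub_eq_zero, hsub] at h
    rcases mul_eq_zero.1 h with h | h
    · exact he' (C_eq_zero.1 h)
    · exact hg.ne_zero h
  have hda : (C c - g).natDegree = g.natDegree := by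
    rw [natDegree_sub_eq_right_of_natDegree_lt]
    rw [natDegree_C]; exact hodd.pos
  have hdb : (C c - C e * g).natDegree = g.natDegree := by
    rw [natDegree_sub_eq_right_of_natDegree_lt]
    · exact natDegree_C_mul he
    · rw [natDegree_C, natDegree_C_mul he]; exact hodd.pos
  refine criterion hT h2 ha hb hab ?_ ?_ (Or.inl ?_) ?_
  · refine ⟨C (e / ((e - 1) * c)), C (-(1 / ((e - 1) * c))), ?_⟩
    have h1 : e / ((e - 1) * c) * c + -(1 / ((e - 1) * c)) * c = 1 := by
      field_simp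
      ring
    have h3 : e / ((e - 1) * c) + -(1 / ((e - 1) * c)) * e = 0 := by
      field_simp
      ring
    have h1' := congrArg C h1
    have h3' := congrArg C h3
    rw [C_add, C_mul, C_mul, C_1] at h1'
    rw [C_add, C_mul, C_0] at h3'
    linear_combination h1' - g * h3'
  · intro π hπ hd
    rcases hπ.prime.dvd_or_dvd hd with h | h
    · rcases hπ.prime.dvd_or_dvd h with h | h
      · exact hsa.of_dvd h
      · exact hsb.of_dvd h
    · rw [hsub] at h
      exact hsg.of_dvd (dvd_unit_mul he' h)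
  · rw [hda, hdb, max_self]
    exact hodd
  · intro A B D _ _ _ _ _ _ dA dB dD _
    obtain ⟨c1, x, h1, rfl⟩ := dvd_irr hga dA
    obtain ⟨c2, y, h3, rfl⟩ := dvd_irr hgb dB
    rw [hsub] at dD
    obtain ⟨c3, z, h4, rfl⟩ := dvd_irr' hg he' dD
    have hp : ∀ i, (![C c - g, C c - C e * g, g] : Fin 3 → k[X]) i ≠ 0 := by
      intro i
      fin_cases i
      · exact ha
      · exact hb
      · exact hg.ne_zero
    obtain ⟨T0, hT0⟩ := pt_zero (F := F) hT h2 ha hb hab
      (p := (C c - g) * (C c - C e * g)) (q := C c - g) (SqEq.refl _) (SqEq.refl _)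
    obtain ⟨Ta, hTa⟩ := pt_a (F := F) hT h2 ha hb hab (p := C c - g) (q := (C c - g) * g)
      (SqEq.refl _) (by
        rw [hsub, show (C c - g) * (C (e - 1) * g) = C (e - 1) * ((C c - g) * g) by ring]
        exact (emb_C_mul hT h2 he' _).symm)
    have hce' : C c * C e = (C m : k[X]) ^ 2 := by
      rw [← C_mul, hce, C_pow]
    obtain ⟨P, hP⟩ := exists_pt (F := F) hT h2 ha hb hab (x := C c) (y := C m * g)
      (p := 1) (q := g) (by linear_combination -g ^ 2 * hce') (by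
        rw [if_neg (C_ne_zero.2 hc), map_one]
        exact (emb_C hT h2 hc).symm) (by
        rw [if_neg, show C c - (C c - g) = g by ring]
        · exact SqEq.refl _
        · intro h
          apply hg.ne_zero
          linear_combination h)
    refine triple hT h2 ha hb hab hp (G := ![T0, Ta, P])
      (M0 := ![![1, 1, 0], ![1, 0, 0], ![0, 0, 0]])
      (M1 := ![![1, 0, 0], ![1, 0, 1], ![0, 0, 1]]) ?_ h1 h3 h4 (x := ![x, 0, 0])
      (y := ![0, y, 0]) (z := ![0, 0, z]) ?_ ?_ ?_ ?_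
    · intro j
      fin_cases j
      · simpa [Fin.prod_univ_three] using hT0
      · simpa [Fin.prod_univ_three] using hTa
      · simpa [Fin.prod_univ_three] using hP
    · simp [Fin.prod_univ_three]
    · simp [Fin.prod_univ_three]
    · simp [Fin.prod_univ_three]
    · exact dec1 x y z

end rank1

section rank2

/-- Linear forms with nonzero determinant in coprime polynomials are coprime. -/
theorem coprime_forms {k : Type} [Field k] {q r : k[X]} (h : IsCoprime q r) {x y z w : k}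
    (hd : x * w - y * z ≠ 0) {u v : k[X]} (hu : u = C x * q + C y * r)
    (hv : v = C z * q + C w * r) : IsCoprime u v := by
  obtain ⟨s, t, hst⟩ := h
  set D := x * w - y * z with hD
  have h1 : C (D⁻¹) * C D = (1 : k[X]) := by rw [← C_mul, inv_mul_cancel₀ hd, C_1]
  have h3 : C D = C x * C w - C y * (C z : k[X]) := by rw [hD, C_sub, C_mul, C_mul]
  refine ⟨C D⁻¹ * (s * C w - t * C z), C D⁻¹ * (t * C x - s * C y), ?_⟩
  rw [hu, hv]
  have e : C D⁻¹ * (s * C w - t * C z) * (C x * q + C y * r) +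
      C D⁻¹ * (t * C x - s * C y) * (C z * q + C w * r) =
      C D⁻¹ * (C x * C w - C y * C z) * (s * q + t * r) := by ring
  rw [e, hst, ← h3, h1, one_mul]

theorem dec2 : ∀ x0 x1 y0 y1 z0 z1 : Fin 2, ((x0 : ℕ) + x1 + (y0 + y1)) % 2 = 0 →
    ((x0 : ℕ) + x1 + (z0 + z1)) % 2 = 0 → ∃ e : Fin 4 → Fin 2,
    (∀ i, ((![(x0 : ℕ), x1, 0, 0, 0, 0] : Fin 6 → ℕ) i +
      (![0, 0, (y0 : ℕ), y1, 0, 0] : Fin 6 → ℕ) i) % 2 =
      (∑ j, (e j : ℕ) * (![![1, 1, 1, 1, 0, 0], ![1, 1, 0, 0, 0, 0], ![1, 0, 1, 0, 0, 0],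
        ![1, 0, 1, 0, 0, 0]] : Fin 4 → Fin 6 → ℕ) j i) % 2) ∧
    ∀ i, ((![(x0 : ℕ), x1, 0, 0, 0, 0] : Fin 6 → ℕ) i +
      (![0, 0, 0, 0, (z0 : ℕ), z1] : Fin 6 → ℕ) i) % 2 =
      (∑ j, (e j : ℕ) * (![![1, 1, 0, 0, 0, 0], ![1, 1, 0, 0, 1, 1], ![1, 0, 0, 0, 1, 0],
        ![1, 0, 0, 0, 0, 1]] : Fin 4 → Fin 6 → ℕ) j i) % 2 := by
  decide

theorem odd_factor {k : Type} [Field k] {p q : k[X]} (hp : Irreducible p) (hodd : Odd p.natDegree)
    (hco : IsCoprime p q) : HasOddFactor (p * q) := by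
  refine ⟨p, 0, hp, hodd, by simp, ?_⟩
  rintro ⟨w, hw⟩
  have h1 : q = p * w := by
    apply mul_left_cancel₀ hp.ne_zero
    rw [hw]; ring
  have h3 : IsUnit p := hco.isUnit_of_dvd' dvd_rfl ⟨w, h1⟩
  exact hp.not_isUnit h3

/-- Rank two. -/
theorem rank2 {k k' K F : Type} [Field k] [Field k'] [Algebra k k'] [Field K] [Algebra k[X] K]
    [Field F] [Algebra k'[X] F] [IsFractionRing k'[X] F] [Algebra K F] (hT : IsTower k k' K F)
    (h2 : (2 : k) ≠ 0) {α β μ : k} (hα : α ≠ 0) (hβ : β ≠ 0) (hμ : μ ≠ 0)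
    (hsq : ((α + β) ^ 2 - 1) * ((α - β) ^ 2 - 1) = μ ^ 2) {p q r : k[X]}
    (hp : p = C α * q + C β * r) (hco : IsCoprime q r) {n : ℕ} (hn : Odd n)
    (hgood : ∀ f ∈ ({p + q, p - q, p + r, p - r, q + r, q - r} : Set k[X]),
      Irreducible f ∧ f.Separable ∧ f.natDegree = n) :
    TateAtTwo (F := F) k'
      (crv (algebraMap k[X] K (p ^ 2 - q ^ 2)) (algebraMap k[X] K (p ^ 2 - r ^ 2))) := by
  have G1 := hgood (p + q) (by simp)
  have G2 := hgood (p - q) (by simp)
  have G3 := hgood (p + r) (by simp)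
  have G4 := hgood (p - r) (by simp)
  have G5 := hgood (q + r) (by simp)
  have G6 := hgood (q - r) (by simp)
  have hsμ : (α + β) ^ 2 - 1 ≠ 0 := by
    intro h
    rw [h, zero_mul] at hsq
    exact pow_ne_zero 2 hμ hsq.symm
  have hdμ : (α - β) ^ 2 - 1 ≠ 0 := by
    intro h
    rw [h, mul_zero] at hsq
    exact pow_ne_zero 2 hμ hsq.symm
  have hs1 : α + β + 1 ≠ 0 := by
    intro h
    apply hsμ
    linear_combination (α + β - 1) * h
  have hs2 : α + β - 1 ≠ 0 := by
    intro h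
    apply hsμ
    linear_combination (α + β + 1) * h
  have hd1 : α - β + 1 ≠ 0 := by
    intro h
    apply hdμ
    linear_combination (α - β - 1) * h
  have hd2 : α - β - 1 ≠ 0 := by
    intro h
    apply hdμ
    linear_combination (α - β + 1) * h
  -- the six forms
  have f1 : p + q = C (α + 1) * q + C β * r := by rw [hp, C_add, C_1]; ring
  have f2 : p - q = C (α - 1) * q + C β * r := by rw [hp, C_sub, C_1]; ring
  have f3 : p + r = C α * q + C (β + 1) * r := by rw [hp, C_add, C_1]; ring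
  have f4 : p - r = C α * q + C (β - 1) * r := by rw [hp, C_sub, C_1]; ring
  have c12 : IsCoprime (p + q) (p - q) := coprime_forms hco (by
    intro h; apply mul_ne_zero h2 hβ; linear_combination h) f1 f2
  have c13 : IsCoprime (p + q) (p + r) := coprime_forms hco (by
    intro h; apply hs1; linear_combination h) f1 f3
  have c14 : IsCoprime (p + q) (p - r) := coprime_forms hco (by
    intro h; apply hd1; linear_combination -h) f1 f4
  have c23 : IsCoprime (p - q) (p + r) := coprime_forms hco (by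
    intro h; apply hd2; linear_combination h) f2 f3
  have c24 : IsCoprime (p - q) (p - r) := coprime_forms hco (by
    intro h; apply hs2; linear_combination -h) f2 f4
  have c34 : IsCoprime (p + r) (p - r) := coprime_forms hco (by
    intro h; apply mul_ne_zero h2 hα; linear_combination -h) f3 f4
  have ea : p ^ 2 - q ^ 2 = (p + q) * (p - q) := by ring
  have eb : p ^ 2 - r ^ 2 = (p + r) * (p - r) := by ring
  have ec : (p ^ 2 - q ^ 2) - (p ^ 2 - r ^ 2) = C (-1) * ((q + r) * (q - r)) := by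
    rw [C_neg, C_1]; ring
  have hm1 : (-1 : k) ≠ 0 := neg_ne_zero.2 one_ne_zero
  have ha : p ^ 2 - q ^ 2 ≠ 0 := by
    rw [ea]; exact mul_ne_zero G1.1.ne_zero G2.1.ne_zero
  have hb : p ^ 2 - r ^ 2 ≠ 0 := by
    rw [eb]; exact mul_ne_zero G3.1.ne_zero G4.1.ne_zero
  have hab : p ^ 2 - q ^ 2 ≠ p ^ 2 - r ^ 2 := by
    rw [← sub_ne_zero, ec]
    exact mul_ne_zero (C_ne_zero.2 hm1) (mul_ne_zero G5.1.ne_zero G6.1.ne_zero)
  have da : (p ^ 2 - q ^ 2).natDegree = n + n := by
    rw [ea, natDegree_mul G1.1.ne_zero G2.1.ne_zero, G1.2.2, G2.2.2]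
  have db : (p ^ 2 - r ^ 2).natDegree = n + n := by
    rw [eb, natDegree_mul G3.1.ne_zero G4.1.ne_zero, G3.2.2, G4.2.2]
  have dc : ((p ^ 2 - q ^ 2) - (p ^ 2 - r ^ 2)).natDegree = n + n := by
    rw [ec, natDegree_C_mul hm1, natDegree_mul G5.1.ne_zero G6.1.ne_zero, G5.2.2, G6.2.2]
  have dmul : ∀ (c : k) (u v : k[X]) (x y : Fin 2), c ≠ 0 → u ≠ 0 → v ≠ 0 → u.natDegree = n →
      v.natDegree = n → (C c * (u ^ (x : ℕ) * v ^ (y : ℕ))).natDegree = n * (x + y) := by
    intro c u v x y hc hu hv hu' hv'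
    rw [natDegree_C_mul hc, natDegree_mul (pow_ne_zero _ hu) (pow_ne_zero _ hv), natDegree_pow,
      natDegree_pow, hu', hv']
    ring
  refine criterion hT h2 ha hb hab ?_ ?_ (Or.inr (Or.inl ⟨?_, ?_⟩)) ?_
  · rw [ea, eb]
    exact IsCoprime.mul_left (c13.mul_right c14) (c23.mul_right c24)
  · intro π hπ hd
    rw [ec, ea, eb] at hd
    rcases hπ.prime.dvd_or_dvd hd with h | h
    · rcases hπ.prime.dvd_or_dvd h with h | h
      · rcases hπ.prime.dvd_or_dvd h with h | h
        · exact G1.2.1.of_dvd h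
        · exact G2.2.1.of_dvd h
      · rcases hπ.prime.dvd_or_dvd h with h | h
        · exact G3.2.1.of_dvd h
        · exact G4.2.1.of_dvd h
    · rcases hπ.prime.dvd_or_dvd (dvd_unit_mul hm1 h) with h | h
      · exact G5.2.1.of_dvd h
      · exact G6.2.1.of_dvd h
  · rw [ea]
    exact odd_factor G1.1 (G1.2.2.symm ▸ hn) c12
  · rw [eb]
    exact odd_factor G3.1 (G3.2.2.symm ▸ hn) c34
  · intro A B D hA hB hD _ _ _ dA dB dD hinf
    rw [ea] at dA
    rw [eb] at dB
    rw [ec] at dD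
    obtain ⟨c1, x0, x1, h1, rfl⟩ := dvd_irr2 (A := A) G1.1 G2.1
      (one_ne_zero (α := k)) (by rw [C_1, one_mul]; exact dA)
    obtain ⟨c2, y0, y1, h3, rfl⟩ := dvd_irr2 (A := B) G3.1 G4.1
      (one_ne_zero (α := k)) (by rw [C_1, one_mul]; exact dB)
    obtain ⟨c3, z0, z1, h4, rfl⟩ := dvd_irr2 G5.1 G6.1 hm1 dD
    have hev : Even (max (p ^ 2 - q ^ 2).natDegree (p ^ 2 - r ^ 2).natDegree) := by
      rw [da, db, max_self]; exact ⟨n, rfl⟩
    obtain ⟨i1, i2, -⟩ := hinf hev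
    have j1 := i1 (by rw [da, db])
    have j2 := i2 (by rw [da, db, max_self]) (by rw [dc, da, db, max_self])
    rw [natDegree_mul hA.ne_zero hB.ne_zero, dmul _ _ _ _ _ h1 G1.1.ne_zero G2.1.ne_zero G1.2.2
      G2.2.2, dmul _ _ _ _ _ h3 G3.1.ne_zero G4.1.ne_zero G3.2.2 G4.2.2, ← mul_add] at j1
    rw [natDegree_mul hA.ne_zero hD.ne_zero, dmul _ _ _ _ _ h1 G1.1.ne_zero G2.1.ne_zero G1.2.2
      G2.2.2, dmul _ _ _ _ _ h4 G5.1.ne_zero G6.1.ne_zero G5.2.2 G6.2.2, ← mul_add] at j2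
    have k1 : ((x0 : ℕ) + x1 + (y0 + y1)) % 2 = 0 := by
      rcases Nat.even_mul.1 j1 with h | h
      · exact absurd h (Nat.not_even_iff_odd.2 hn)
      · exact Nat.even_iff.1 h
    have k2 : ((x0 : ℕ) + x1 + (z0 + z1)) % 2 = 0 := by
      rcases Nat.even_mul.1 j2 with h | h
      · exact absurd h (Nat.not_even_iff_odd.2 hn)
      · exact Nat.even_iff.1 h
    have hpne : ∀ i, (![p + q, p - q, p + r, p - r, q + r, q - r] : Fin 6 → k[X]) i ≠ 0 := by
      intro i
      fin_cases i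
      · exact G1.1.ne_zero
      · exact G2.1.ne_zero
      · exact G3.1.ne_zero
      · exact G4.1.ne_zero
      · exact G5.1.ne_zero
      · exact G6.1.ne_zero
    obtain ⟨T0, hT0⟩ := pt_zero (F := F) hT h2 ha hb hab
      (p := (p + q) * (p - q) * (p + r) * (p - r)) (q := (p + q) * (p - q))
      (SqEq.of_eq (by congr 1; ring)) (SqEq.of_eq (by congr 1; ring))
    obtain ⟨Ta, hTa⟩ := pt_a (F := F) hT h2 ha hb hab (p := (p + q) * (p - q))
      (q := (p + q) * (p - q) * (q + r) * (q - r))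
      (SqEq.of_eq (by congr 1; ring)) (by
        rw [ec, ea, show (p + q) * (p - q) * (C (-1) * ((q + r) * (q - r))) =
          C (-1) * ((p + q) * (p - q) * (q + r) * (q - r)) by ring]
        exact (emb_C_mul hT h2 hm1 _).symm)
    -- the point `R`
    have nR0 : (p + q) * (p + r) ≠ 0 := mul_ne_zero G1.1.ne_zero G3.1.ne_zero
    have nR1 : (p + q) * (p + r) ≠ p ^ 2 - q ^ 2 := by
      intro h
      apply mul_ne_zero G1.1.ne_zero G5.1.ne_zero
      linear_combination h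
    obtain ⟨R, hR⟩ := exists_pt (F := F) hT h2 ha hb hab (x := (p + q) * (p + r))
      (y := (p + q) * (p + r) * (q + r)) (p := (p + q) * (p + r)) (q := (p + q) * (q + r))
      (by ring) (by rw [if_neg nR0]; exact SqEq.refl _) (by
        rw [if_neg nR1]
        exact SqEq.of_eq (by congr 1; ring))
    -- the point `S`
    set κ := (α + β - 1) / (α + β + 1) with hκ
    set κ1 := (β - α + 1) / (α + β + 1) with hκ1
    set κ2 := (β - α - 1) / (α + β + 1) with hκ2
    set ρ := μ / (α + β + 1) ^ 2 with hρ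
    have hκ0 : κ ≠ 0 := div_ne_zero hs2 hs1
    have hκ10 : κ1 ≠ 0 := div_ne_zero (by
      intro h; apply hd2; linear_combination -h) hs1
    have e1 : C κ * C α - C α + 1 = (C κ1 : k[X]) := by
      rw [← C_mul, ← C_sub, ← C_1, ← C_add]
      congr 1
      rw [hκ, hκ1]; field_simp; ring
    have e2 : C κ * C β + C κ - C β = (-C κ1 : k[X]) := by
      rw [← C_mul, ← C_add, ← C_sub, ← C_neg]
      congr 1
      rw [hκ, hκ1]; field_simp; ring
    have e3 : C κ * C α + C κ - C α = (C κ2 : k[X]) := by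
      rw [← C_mul, ← C_add, ← C_sub]
      congr 1
      rw [hκ, hκ2]; field_simp; ring
    have e4 : C κ * C β - C β + 1 = (-C κ2 : k[X]) := by
      rw [← C_mul, ← C_sub, ← C_1, ← C_add, ← C_neg]
      congr 1
      rw [hκ, hκ2]; field_simp; ring
    have e5 : (C ρ : k[X]) ^ 2 = C κ * C κ1 * C κ2 := by
      rw [← C_mul, ← C_mul, ← C_pow]
      congr 1
      rw [hρ, hκ, hκ1, hκ2]
      field_simp
      linear_combination -hsq
    have g1 : C κ * ((p + q) * (p + r)) - (p ^ 2 - q ^ 2) = C κ1 * ((p + q) * (q - r)) := by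
      rw [hp]
      linear_combination (C α * q + C β * r + q) * (q * e1 + r * e2)
    have g2 : C κ * ((p + q) * (p + r)) - (p ^ 2 - r ^ 2) = C κ2 * ((p + r) * (q - r)) := by
      rw [hp]
      linear_combination (C α * q + C β * r + r) * (q * e3 + r * e4)
    have nS0 : C κ * ((p + q) * (p + r)) ≠ 0 := mul_ne_zero (C_ne_zero.2 hκ0) nR0
    have nS1 : C κ * ((p + q) * (p + r)) ≠ p ^ 2 - q ^ 2 := by
      rw [← sub_ne_zero, g1]
      exact mul_ne_zero (C_ne_zero.2 hκ10) (mul_ne_zero G1.1.ne_zero G6.1.ne_zero)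
    obtain ⟨S, hS⟩ := exists_pt (F := F) hT h2 ha hb hab (x := C κ * ((p + q) * (p + r)))
      (y := C ρ * ((p + q) * (p + r) * (q - r))) (p := (p + q) * (p + r))
      (q := (p + q) * (q - r)) (by
        rw [g1, g2]
        linear_combination ((p + q) * (p + r) * (q - r)) ^ 2 * e5) (by
        rw [if_neg nS0]
        exact (emb_C_mul hT h2 hκ0 _).symm) (by
        rw [if_neg nS1, g1]
        exact (emb_C_mul hT h2 hκ10 _).symm)
    refine triple hT h2 ha hb hab hpne (G := ![T0, Ta, R, S])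
      (M0 := ![![1, 1, 1, 1, 0, 0], ![1, 1, 0, 0, 0, 0], ![1, 0, 1, 0, 0, 0],
        ![1, 0, 1, 0, 0, 0]])
      (M1 := ![![1, 1, 0, 0, 0, 0], ![1, 1, 0, 0, 1, 1], ![1, 0, 0, 0, 1, 0],
        ![1, 0, 0, 0, 0, 1]]) ?_ h1 h3 h4 (x := ![x0, x1, 0, 0, 0, 0])
      (y := ![0, 0, y0, y1, 0, 0]) (z := ![0, 0, 0, 0, z0, z1]) ?_ ?_ ?_ ?_
    · intro j
      fin_cases j
      · simpa [Fin.prod_univ_six] using hT0
      · simpa [Fin.prod_univ_six] using hTa
      · simpa [Fin.prod_univ_six] using hR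
      · simpa [Fin.prod_univ_six] using hS
    · simp [Fin.prod_univ_six]
    · simp [Fin.prod_univ_six]
    · simp [Fin.prod_univ_six]
    · exact dec2 x0 x1 y0 y1 z0 z1 k1 k2

end rank2

end Pool.Agent.TH115.GD
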