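import Pool.Agent.TH115.GD.Fam
import Pool.Agent.TH115.GD.Defs2

/-!
The triples of divisors attached to the fixed classes; closure properties.
-/

set_option autoImplicit false
set_option linter.all false

open Polynomial IsDedekindDomain WeierstrassCurve WeierstrassCurve.Affine
open scoped Classical

namespace Pool.Agent.TH115.GD

section core

variable {k k' K F : Type} [Field k] [Field k'] [Algebra k k'] [Field K] [Algebra k[X] K]
    [Field F] [Algebra k'[X] F] [IsFractionRing k'[X] F] [Algebra K F]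

/-- Local solubility at all places. -/
def LSg (k' : Type) [Field k'] [Algebra k'[X] F] [IsFractionRing k'[X] F]
    (W : WeierstrassCurve K) (a b : K) (a0 a1 : F) : Prop :=
  (∀ v : HeightOneSpectrum k'[X], LocSol W a b (Comp k'[X] F v) a0 a1) ∧
    LocSol W a b (CompInf k' F) a0 a1

variable (hT : IsTower k k' K F) (h2 : (2 : k) ≠ 0) {a b : k[X]} (ha : a ≠ 0) (hb : b ≠ 0)
  (hab : a ≠ b) (hco : IsCoprime a b)
  (hsep : ∀ π : k[X], Irreducible π → π ∣ a * b * (a - b) → π.Separable)
  (hodd : Odd (max a.natDegree b.natDegree) ∨ TwoOddFactors a b)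

include hT h2 ha hb hab hco hsep hodd in
/-- The triple of a locally soluble and fixed pair. -/
theorem triple_of {a0 a1 : F} (n0 : a0 ≠ 0) (n1 : a1 ≠ 0)
    (hls : LSg k' (crv (algebraMap k[X] K a) (algebraMap k[X] K b)) (algebraMap k[X] K a)
      (algebraMap k[X] K b) a0 a1)
    (hfix : FixedMod (crv (algebraMap k[X] K a) (algebraMap k[X] K b)) (algebraMap k[X] K a)
      (algebraMap k[X] K b) (Sep F) a0 a1) :
    ∃ t ∈ Triples a b, SqEq a0 (emb k K F (t.1 * t.2.1)) ∧ SqEq a1 (emb k K F (t.1 * t.2.2)) := by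
  haveI := hT.sep
  haveI := hT.fracK
  have hKF := hT.map
  have h2K : (2 : K) ≠ 0 := tt h2
  have inj := IsFractionRing.injective k[X] K
  have haK : algebraMap k[X] K a ≠ 0 := by simpa using ha
  have hbK : algebraMap k[X] K b ≠ 0 := by simpa using hb
  have habK : algebraMap k[X] K a ≠ algebraMap k[X] K b := fun h => hab (inj h)
  have hsub : a - b ≠ 0 := sub_ne_zero.2 hab
  have injk := (algebraMap k k').injective
  have hprod : a * b * (a - b) ≠ 0 := mul_ne_zero (mul_ne_zero ha hb) hsub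
  have hs : ((a * b * (a - b)).map (algebraMap k k')).Splits := splits_of_sep hprod hsep
  have ho : TwoOdd k k' a b := by
    rcases hodd with h | h
    · exact twoOdd_of_odd ha hb hab hs h
    · exact twoOdd_of_factors ha hb hab hsep h
  obtain ⟨hfin, hinf⟩ := hls
  have vle : ∀ (v : HeightOneSpectrum k'[X]) (p : k[X]),
      v.valuation F (algebraMap K F (algebraMap k[X] K p)) ≤ 1 := by
    intro v p
    rw [hKF]
    exact v.valuation_le_one _
  have vone : ∀ (v : HeightOneSpectrum k'[X]) (p : k[X]),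
      p.map (algebraMap k k') ∉ v.asIdeal →
      v.valuation F (algebraMap K F (algebraMap k[X] K p)) = 1 := by
    intro v p hp
    rw [hKF, v.valuation_of_algebraMap, HeightOneSpectrum.intValuation_eq_one_iff]
    exact hp
  have gfin := fun v : HeightOneSpectrum k'[X] => gen_loc (F := F) (L := Comp k'[X] F v)
    h2K haK hbK habK
    (Valued.v (R := v.adicCompletion F) (Γ₀ := WithZero (Multiplicative ℤ)))
    (v.valuation F) (wFin v) (M := 1) ⟨1, (mul_one 1).symm⟩ one_ne_zero (vle v a) (vle v b)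
    (hfin v)
  have hloc : LocPar (k' := k') a b a0 a1 := by
    refine ⟨fun v h h' => ?_, fun v h h' => ?_, fun v h h' => ?_⟩
    · rw [par_eq_zero]
      exact (gfin v).1 (vone v a h) (vone v b h')
    · rw [par_eq_zero]
      refine (gfin v).2.1 (vone v a h) ?_
      rw [← map_sub]
      exact vone v (a - b) h'
    · rw [← par_mul v n0 n1, par_eq_zero]
      refine (gfin v).2.2 (vone v b h) ?_
      rw [← map_sub]
      exact vone v (a - b) h'
  obtain ⟨A, B, D, hA, hB, hD, sA, sB, sD, dA, dB, dD, c0, c1, hc0, hc1, w0, w1⟩ :=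
    global_core (k' := k') hKF h2 ha hb hab hco hs ho n0 n1 hloc hfix
  have hInf : InfCond a b A B D := by
    intro hN
    set N := max a.natDegree b.natDegree with hNdef
    have vdeg : ∀ p : k[X], p ≠ 0 → vInf k' F (algebraMap K F (algebraMap k[X] K p)) =
        WithZero.exp (p.natDegree : ℤ) := by
      intro p hp
      rw [hKF, vInf_poly ((Polynomial.map_ne_zero_iff injk).2 hp), natDegree_map]
    have vle' : ∀ p : k[X], p ≠ 0 → p.natDegree ≤ N →
        vInf k' F (algebraMap K F (algebraMap k[X] K p)) ≤ WithZero.exp (N : ℤ) := by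
      intro p hp h
      rw [vdeg p hp, WithZero.exp_le_exp]
      exact_mod_cast h
    have ginf := gen_loc (F := F) (L := CompInf k' F) h2K haK hbK habK
      (Valued.v (R := (pl (0 : k')).adicCompletion (AtInf F))
        (Γ₀ := WithZero (Multiplicative ℤ)))
      (vInf k' F) wInf (M := WithZero.exp (N : ℤ)) (isSquare_exp.2 (by exact_mod_cast hN))
      WithZero.exp_ne_zero (vle' a ha (le_max_left _ _)) (vle' b hb (le_max_right _ _)) hinf
    have even_of : ∀ (p : k[X]) (q : F) (x : F), p ≠ 0 → q ≠ 0 →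
        x = q ^ 2 * algebraMap K F (algebraMap k[X] K p) → IsSquare (vInf k' F x) →
        Even p.natDegree := by
      intro p q x hp hq hx hs
      rw [hx, map_mul, map_pow, pow_two] at hs
      have h3 := Pool.Agent.W309.TD.IsSquare.of_mul_left' ⟨vInf k' F q, rfl⟩
        (mul_ne_zero ((Valuation.ne_zero_iff _).2 hq) ((Valuation.ne_zero_iff _).2 hq)) hs
      rw [vdeg p hp, isSquare_exp] at h3
      exact_mod_cast h3
    refine ⟨fun h => ?_, fun h h' => ?_, fun h h' => ?_⟩
    · refine even_of (A * B) c0 a0 (mul_ne_zero hA.ne_zero hB.ne_zero) hc0 w0 (ginf.1 ?_ ?_)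
      · rw [vdeg a ha]
        congr 2
        rw [hNdef, h, max_self]
      · rw [vdeg b hb]
        congr 2
        rw [hNdef, h, max_self]
    · refine even_of (A * D) c1 a1 (mul_ne_zero hA.ne_zero hD.ne_zero) hc1 w1 (ginf.2.1 ?_ ?_)
      · rw [vdeg a ha, h]
      · rw [← map_sub, vdeg (a - b) hsub, h']
    · refine even_of (B * D) (c0 * c1 * algebraMap K F (algebraMap k[X] K A)) (a0 * a1)
        (mul_ne_zero hB.ne_zero hD.ne_zero) ?_ ?_ (ginf.2.2 ?_ ?_)
      · have : algebraMap K F (algebraMap k[X] K A) ≠ 0 := by simpa using hA.ne_zero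
        exact mul_ne_zero (mul_ne_zero hc0 hc1) this
      · rw [w0, w1, map_mul, map_mul, map_mul, map_mul, map_mul, map_mul]
        ring
      · rw [vdeg b hb, h]
      · rw [← map_sub, vdeg (a - b) hsub, h']
  exact ⟨(A, B, D), ⟨hA, hB, hD, sA, sB, sD, dA, dB, dD, hInf⟩, ⟨c0, hc0, w0⟩, ⟨c1, hc1, w1⟩⟩

end core

section closure

variable {K F : Type} [Field K] [Field F] [Algebra K F]

/-- Products of locally soluble pairs. -/
theorem LocSol.mul {a b : K} (h2 : (2 : K) ≠ 0) (ha : a ≠ 0) (hb : b ≠ 0) (hab : a ≠ b)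
    {L : Type} [Field L] [Algebra K L] [Algebra F L] {a0 a1 b0 b1 : F}
    (h : LocSol (crv a b) a b L a0 a1) (h' : LocSol (crv a b) a b L b0 b1) :
    LocSol (crv a b) a b L (a0 * b0) (a1 * b1) := by
  obtain ⟨Q, c0, c1, n0, n1, e0, e1⟩ := h
  obtain ⟨Q', c0', c1', n0', n1', e0', e1'⟩ := h'
  obtain ⟨u0, u1, m0, m1, f0, f1⟩ := d_add (K := K) (F := L) (Ω := Sep L) (crv a b)
    (isE a b (Sep L) h2 ha hb hab) Q Q'
  refine ⟨Q + Q', c0 * c0' * u0⁻¹, c1 * c1' * u1⁻¹, ?_, ?_, ?_, ?_⟩
  · exact mul_ne_zero (mul_ne_zero n0 n0') (inv_ne_zero m0)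
  · exact mul_ne_zero (mul_ne_zero n1 n1') (inv_ne_zero m1)
  · rw [map_mul, e0, e0', f0]
    field_simp
  · rw [map_mul, e1, e1', f1]
    field_simp

theorem FixedMod.mul {a b : K} (h2 : (2 : K) ≠ 0) (ha : a ≠ 0) (hb : b ≠ 0) (hab : a ≠ b)
    {a0 a1 b0 b1 : F} (h : FixedMod (crv a b) a b (Sep F) a0 a1)
    (h' : FixedMod (crv a b) a b (Sep F) b0 b1) :
    FixedMod (crv a b) a b (Sep F) (a0 * b0) (a1 * b1) := by
  intro τ
  obtain ⟨T, u0, u1, hT, n0, n1, e0, e1⟩ := h τ
  obtain ⟨T', u0', u1', hT', n0', n1', e0', e1'⟩ := h' τ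
  obtain ⟨w0, w1, m0, m1, f0, f1⟩ := d_add (K := K) (F := F) (Ω := Sep F) (crv a b)
    (isE a b (Sep F) h2 ha hb hab) T T'
  refine ⟨T + T', u0 * u0' * w0⁻¹, u1 * u1' * w1⁻¹, ?_, ?_, ?_, ?_, ?_⟩
  · rw [add_add_add_comm, hT, hT', add_zero]
  · exact mul_ne_zero (mul_ne_zero n0 n0') (inv_ne_zero m0)
  · exact mul_ne_zero (mul_ne_zero n1 n1') (inv_ne_zero m1)
  · rw [map_mul, map_mul, e0, e0', f0, ← map_mul]
    congr 1
    field_simp
  · rw [map_mul, map_mul, e1, e1', f1, ← map_mul]
    congr 1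
    field_simp

/-- The pair of a point over `K` is locally soluble. -/
theorem locSol_pt {a b : K} (h2 : (2 : K) ≠ 0) (ha : a ≠ 0) (hb : b ≠ 0) (hab : a ≠ b)
    {L : Type} [Field L] [Algebra K L] [Algebra F L] [IsScalarTower K F L]
    (P : Pt (crv a b) K) :
    LocSol (crv a b) a b L (algebraMap K F (d0 a b P)) (algebraMap K F (d1 a b P)) := by
  refine ⟨act (crv a b) (incl K K L) P, 1, 1, one_ne_zero, one_ne_zero, ?_, ?_⟩
  · have := d0_act (crv a b) (incl K K L) a b P
    have ea : incl K K L a = algebraMap K L a := rfl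
    have eb : incl K K L b = algebraMap K L b := rfl
    rw [ea, eb] at this
    rw [this, ← IsScalarTower.algebraMap_apply K F L]
    ring_nf
    rfl
  · have := d1_act (crv a b) (incl K K L) a b P
    have ea : incl K K L a = algebraMap K L a := rfl
    have eb : incl K K L b = algebraMap K L b := rfl
    rw [ea, eb] at this
    rw [this, ← IsScalarTower.algebraMap_apply K F L]
    ring_nf
    rfl

theorem fixed_pt {a b : K} (P : Pt (crv a b) K) :
    FixedMod (crv a b) a b (Sep F) (algebraMap K F (d0 a b P)) (algebraMap K F (d1 a b P)) := by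
  intro τ
  refine ⟨0, 1, 1, add_zero 0, one_ne_zero, one_ne_zero, ?_, ?_⟩
  · have z0 : d0 (algebraMap K F a) (algebraMap K F b) (0 : Pt (crv a b) F) = 1 := rfl
    rw [z0, mul_one, one_pow, one_mul, ← IsScalarTower.algebraMap_apply K F (Sep F), τ.commutes]
  · have z1 : d1 (algebraMap K F a) (algebraMap K F b) (0 : Pt (crv a b) F) = 1 := rfl
    rw [z1, mul_one, one_pow, one_mul, ← IsScalarTower.algebraMap_apply K F (Sep F), τ.commutes]

end closure

end Pool.Agent.TH115.GD
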