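import Pool.Agent.TH115.GD.MaxRk

/-!
Closure properties of the set of fixed and locally trivial classes.
-/

set_option autoImplicit false
set_option linter.all false

open Polynomial IsDedekindDomain WeierstrassCurve WeierstrassCurve.Affine
open scoped Classical

namespace Pool.Agent.TH115.GD

universe u

section any

variable {K F Ω L Ω' : Type u} [Field K] [Field F] [Field Ω] [Field L] [Field Ω']
  [Algebra K F] [Algebra F Ω] [Algebra K Ω] [IsScalarTower K F Ω] [IsGalois F Ω]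
  [Algebra K L] [Algebra L Ω'] [Algebra K Ω'] [Algebra F Ω'] [IsScalarTower K L Ω']
  [IsScalarTower K F Ω'] (W : WeierstrassCurve K)

/-- The condition of local triviality does not depend on the embedding. -/
theorem LocTriv.of_any {f : (Ω ≃ₐ[F] Ω) → Pt W Ω} (hf : IsCoc W f) (h : LocTriv W L Ω' f)
    (ι' : Ω →ₐ[F] Ω') : ∃ P : Pt W Ω', ∀ (τ : Ω' ≃ₐ[L] Ω') (σ : Ω ≃ₐ[F] Ω),
      (∀ x, τ (ι' x) = ι' (σ x)) →
        act W (ι'.restrictScalars K) (f σ) = act W (rs K τ) P - P := by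
  obtain ⟨ι, P, hP⟩ := h
  letI : Algebra Ω Ω' := ι.toRingHom.toAlgebra
  haveI : IsScalarTower F Ω Ω' := IsScalarTower.of_algebraMap_eq fun x => (ι.commutes x).symm
  let g0 : Ω →ₐ[F] Ω := AlgHom.restrictNormal ι' Ω
  have hg0 : ∀ x, ι (g0 x) = ι' x := fun x => AlgHom.restrictNormal_commutes ι' Ω x
  have hbij : Function.Bijective g0 := Algebra.IsAlgebraic.algHom_bijective g0
  let g : Ω ≃ₐ[F] Ω := AlgEquiv.ofBijective g0 hbij
  have hg : ∀ x, ι (g x) = ι' x := hg0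
  refine ⟨P + act W (ι.restrictScalars K) (f g), fun τ σ' hτ => ?_⟩
  -- conjugate
  set σ : Ω ≃ₐ[F] Ω := g * σ' * g⁻¹ with hσ
  have hσg : σ * g = g * σ' := by rw [hσ]; group
  have h1 : ∀ x, τ (ι x) = ι (σ x) := by
    intro x
    obtain ⟨y, rfl⟩ := g.surjective x
    have h3 : σ (g y) = g (σ' y) := by
      have := congrArg (fun e : Ω ≃ₐ[F] Ω => e y) hσg
      exact this
    rw [hg, hτ, h3, hg]
  have h2 := hP τ σ h1
  have c1 := hf.mul σ g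
  have c2 := hf.mul g σ'
  rw [hσg, c2] at c1
  -- `g (f σ') = f σ + σ (f g) - f g`
  have h4 : act W (rs K g) (f σ') = f σ + act W (rs K σ) (f g) - f g := by
    rw [← c1]; abel
  have h5 : (ι'.restrictScalars K) = (ι.restrictScalars K).comp (rs K g) :=
    AlgHom.ext fun x => (hg x).symm
  have h6 : (ι.restrictScalars K).comp (rs K σ) = (rs K τ).comp (ι.restrictScalars K) :=
    AlgHom.ext fun x => (h1 x).symm
  rw [h5, ← act_act, h4, map_sub, map_add, h2, act_act, h6, ← act_act, map_add]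
  abel

theorem LocTriv.add {f f' : (Ω ≃ₐ[F] Ω) → Pt W Ω} (hf' : IsCoc W f')
    (h : LocTriv W L Ω' f) (h' : LocTriv W L Ω' f') :
    LocTriv W L Ω' (fun σ => f σ + f' σ) := by
  obtain ⟨ι, P, hP⟩ := h
  obtain ⟨P', hP'⟩ := LocTriv.of_any W hf' h' ι
  refine ⟨ι, P + P', fun τ σ hτ => ?_⟩
  rw [map_add, hP τ σ hτ, hP' τ σ hτ, map_add]
  abel

theorem LocTriv.smul {f : (Ω ≃ₐ[F] Ω) → Pt W Ω} (h : LocTriv W L Ω' f) (z : ℤ) :
    LocTriv W L Ω' (fun σ => z • f σ) := by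
  obtain ⟨ι, P, hP⟩ := h
  refine ⟨ι, z • P, fun τ σ hτ => ?_⟩
  rw [map_zsmul, hP τ σ hτ, map_zsmul, smul_sub]

theorem IsCoc.add {f f' : (Ω ≃ₐ[F] Ω) → Pt W Ω} (h : IsCoc W f) (h' : IsCoc W f') :
    IsCoc W (fun σ => f σ + f' σ) := by
  refine ⟨?_, fun σ τ => ?_⟩
  · exact h.lc.comp₂ h'.lc (fun a b => a + b)
  · show f (σ * τ) + f' (σ * τ) = f σ + f' σ + act W (rs K σ) (f τ + f' τ)
    rw [h.mul, h'.mul, map_add]
    abel

theorem IsCoc.smul {f : (Ω ≃ₐ[F] Ω) → Pt W Ω} (h : IsCoc W f) (z : ℤ) :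
    IsCoc W (fun σ => z • f σ) := by
  refine ⟨?_, fun σ τ => ?_⟩
  · exact h.lc.comp (fun a => z • a)
  · show z • f (σ * τ) = z • f σ + act W (rs K σ) (z • f τ)
    rw [h.mul, map_zsmul, smul_add]

theorem IsTC.add {c c' : ℕ → (Ω ≃ₐ[F] Ω) → Pt W Ω} (h : IsTC W c) (h' : IsTC W c') :
    IsTC W (fun n σ => c n σ + c' n σ) := by
  refine ⟨fun n => (h.coc n).add W (h'.coc n), fun σ => ?_, fun n σ => ?_⟩
  · show c 0 σ + c' 0 σ = 0
    rw [h.zero, h'.zero, add_zero]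
  · show 2 • (c (n + 1) σ + c' (n + 1) σ) = c n σ + c' n σ
    rw [smul_add, h.two, h'.two]

theorem IsTC.smul {c : ℕ → (Ω ≃ₐ[F] Ω) → Pt W Ω} (h : IsTC W c) (z : ℤ) :
    IsTC W (fun n σ => z • c n σ) := by
  refine ⟨fun n => (h.coc n).smul W z, fun σ => ?_, fun n σ => ?_⟩
  · show z • c 0 σ = 0
    rw [h.zero, smul_zero]
  · show 2 • (z • c (n + 1) σ) = z • c n σ
    rw [smul_comm, h.two]

theorem IsTC.zero' : IsTC W (fun (_ : ℕ) (_ : Ω ≃ₐ[F] Ω) => (0 : Pt W Ω)) := by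
  refine ⟨fun n => ⟨IsLocallyConstant.const _, fun σ τ => ?_⟩, fun σ => rfl, fun n σ => ?_⟩
  · show (0 : Pt W Ω) = 0 + act W (rs K σ) 0
    rw [map_zero, add_zero]
  · show 2 • (0 : Pt W Ω) = 0
    rw [smul_zero]

omit [IsGalois F Ω] in
theorem IsInv.add {c c' : ℕ → (Ω ≃ₐ[F] Ω) → Pt W Ω} (h : IsInv W c) (h' : IsInv W c') :
    IsInv W (fun n σ => c n σ + c' n σ) := by
  intro τ
  obtain ⟨m, Q, hQ, e⟩ := h τ
  obtain ⟨m', Q', hQ', e'⟩ := h' τ
  refine ⟨m + m', fun n => 2 ^ m' • Q n + 2 ^ m • Q' n, ⟨?_, fun n => ?_⟩,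
    fun n σ σ' hσ => ?_⟩
  · show 2 ^ m' • Q 0 + 2 ^ m • Q' 0 = 0
    rw [hQ.zero, hQ'.zero, smul_zero, smul_zero, add_zero]
  · show 2 • (2 ^ m' • Q (n + 1) + 2 ^ m • Q' (n + 1)) = 2 ^ m' • Q n + 2 ^ m • Q' n
    rw [smul_add, smul_comm 2, smul_comm 2, hQ.two, hQ'.two]
  · have h1 := e n σ σ' hσ
    have h2 := e' n σ σ' hσ
    show 2 ^ (m + m') • (act W (ak τ) (c n σ' + c' n σ') - (c n σ + c' n σ)) =
      act W (rs K σ) (2 ^ m' • Q n + 2 ^ m • Q' n) - (2 ^ m' • Q n + 2 ^ m • Q' n)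
    have h3 : act W (ak τ) (c n σ' + c' n σ') - (c n σ + c' n σ) =
        (act W (ak τ) (c n σ') - c n σ) + (act W (ak τ) (c' n σ') - c' n σ) := by
      rw [map_add]; abel
    rw [h3, smul_add]
    nth_rewrite 1 [pow_add]
    rw [mul_comm (2 ^ m) (2 ^ m'), mul_smul, h1, pow_add, mul_smul, h2, map_add, map_nsmul,
      map_nsmul, smul_sub, smul_sub]
    abel

omit [IsGalois F Ω] in
theorem IsInv.smul {c : ℕ → (Ω ≃ₐ[F] Ω) → Pt W Ω} (h : IsInv W c) (z : ℤ) :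
    IsInv W (fun n σ => z • c n σ) := by
  intro τ
  obtain ⟨m, Q, hQ, e⟩ := h τ
  refine ⟨m, fun n => z • Q n, ⟨?_, fun n => ?_⟩, fun n σ σ' hσ => ?_⟩
  · show z • Q 0 = 0
    rw [hQ.zero, smul_zero]
  · show 2 • (z • Q (n + 1)) = z • Q n
    rw [smul_comm, hQ.two]
  · have h1 := e n σ σ' hσ
    show 2 ^ m • (act W (ak τ) (z • c n σ') - z • c n σ) =
      act W (rs K σ) (z • Q n) - z • Q n
    rw [map_zsmul, map_zsmul, ← smul_sub, ← smul_sub, smul_comm, h1]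

omit [IsGalois F Ω] in
theorem IsInv.zero' : IsInv W (fun (_ : ℕ) (_ : Ω ≃ₐ[F] Ω) => (0 : Pt W Ω)) := by
  intro τ
  refine ⟨0, fun _ => 0, ⟨rfl, fun n => smul_zero _⟩, fun n σ σ' hσ => ?_⟩
  simp

end any

section cls

variable {K F : Type} [Field K] [Field F] [Algebra K F]

variable {k' : Type} [Field k'] [Algebra k'[X] F] [IsFractionRing k'[X] F]
    {W : WeierstrassCurve K} {c c' : ℕ → (Sep F ≃ₐ[F] Sep F) → Pt W (Sep F)}

theorem IsTateClass.add (h : IsTateClass k' W c) (h' : IsTateClass k' W c') :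
    IsTateClass k' W (fun n σ => c n σ + c' n σ) :=
  ⟨h.tc.add W h'.tc, fun n => ⟨fun v => LocTriv.add W (h'.tc.coc n) ((h.loc n).1 v)
    ((h'.loc n).1 v), LocTriv.add W (h'.tc.coc n) (h.loc n).2 (h'.loc n).2⟩, h.inv.add W h'.inv⟩

theorem IsTateClass.smul (h : IsTateClass k' W c) (z : ℤ) :
    IsTateClass k' W (fun n σ => z • c n σ) :=
  ⟨h.tc.smul W z, fun n => ⟨fun v => LocTriv.smul W ((h.loc n).1 v) z,
    LocTriv.smul W (h.loc n).2 z⟩, h.inv.smul W z⟩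

end cls

end Pool.Agent.TH115.GD
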