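import Pool.Agent.TH115.GD.Final

/-!
The criterion: from irreducible separable factors to the hypotheses of the main theorem.
-/

set_option autoImplicit false
set_option linter.all false

open Polynomial IsDedekindDomain WeierstrassCurve WeierstrassCurve.Affine
open scoped Classical

namespace Pool.Agent.TH115.GD

section

variable {k k' : Type} [Field k] [Field k'] [Algebra k k'] [IsSepClosure k k']

theorem splits_of_sep {p : k[X]} (hp : p ≠ 0)
    (h : ∀ π : k[X], Irreducible π → π ∣ p → π.Separable) :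
    (p.map (algebraMap k k')).Splits := by
  haveI : IsSepClosed k' := IsSepClosure.sep_closed k
  revert hp h
  refine WfDvdMonoid.induction_on_irreducible p ?_ ?_ ?_
  · intro hp
    exact absurd rfl hp
  · intro u hu _ _
    obtain ⟨c, hc, rfl⟩ := Polynomial.isUnit_iff.1 hu
    rw [map_C]
    exact Splits.C _
  · intro q π hq hπ ih hp h
    rw [Polynomial.map_mul]
    refine Splits.mul ?_ (ih hq fun π' h1 h2 => h π' h1 (h2.mul_left _))
    exact IsSepClosed.splits_codomain _ (h π hπ (dvd_mul_right _ _))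

theorem splits_dvd {p q : k[X]} (hpq : q ∣ p) (hp : p ≠ 0)
    (h : (p.map (algebraMap k k')).Splits) : (q.map (algebraMap k k')).Splits :=
  h.of_dvd ((Polynomial.map_ne_zero_iff (algebraMap k k').injective).2 hp)
    (Polynomial.map_dvd _ hpq)

theorem oddRoots_of_factor {p : k[X]} (hp : p ≠ 0)
    (h : ∀ π : k[X], Irreducible π → π ∣ p → π.Separable) (ho : HasOddFactor p) :
    OddRoots k k' p := by
  haveI : IsSepClosed k' := IsSepClosure.sep_closed k
  obtain ⟨π, m, hπ, hodd, hd, hnd⟩ := ho
  have hsep : π.Separable := h π hπ ((dvd_pow_self π (by omega)).trans hd)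
  obtain ⟨q, hq⟩ := hd
  have hcop : IsCoprime π q := by
    rw [hπ.coprime_iff_not_dvd]
    rintro ⟨r, rfl⟩
    exact hnd ⟨r, by rw [hq]; ring⟩
  have hπ0 : π.map (algebraMap k k') ≠ 0 :=
    (Polynomial.map_ne_zero_iff (algebraMap k k').injective).2 hπ.ne_zero
  have hspl : (π.map (algebraMap k k')).Splits := IsSepClosed.splits_codomain _ hsep
  have hcard := card_rootSet_eq_natDegree (K := k') hsep hspl
  have hmem : ∀ θ : k', θ ∈ (π.map (algebraMap k k')).roots.toFinset ↔
      (π.map (algebraMap k k')).IsRoot θ := by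
    intro θ
    rw [Multiset.mem_toFinset, mem_roots hπ0]
  have hp0 : p.map (algebraMap k k') ≠ 0 :=
    (Polynomial.map_ne_zero_iff (algebraMap k k').injective).2 hp
  refine ⟨(π.map (algebraMap k k')).roots.toFinset, ?_, ?_, ?_⟩
  · have h1 : (π.map (algebraMap k k')).roots.Nodup := nodup_roots hsep.map
    rw [Multiset.toFinset_card_of_nodup h1, ← hspl.natDegree_eq_card_roots, natDegree_map]
    exact hodd
  · intro s θ hθ
    rw [hmem] at hθ ⊢
    rw [← rootMultiplicity_pos hπ0] at hθ ⊢
    rw [rootMult_galois s π θ]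
    exact hθ
  · intro θ hθ
    rw [hmem] at hθ
    have h1 : rootMultiplicity θ (π.map (algebraMap k k')) = 1 := by
      apply le_antisymm
      · exact rootMultiplicity_le_one_of_separable hsep.map θ
      · exact (rootMultiplicity_pos hπ0).2 hθ
    have h2 : rootMultiplicity θ (q.map (algebraMap k k')) = 0 := by
      apply rootMultiplicity_eq_zero
      intro h3
      obtain ⟨u, w, huw⟩ := hcop
      have h4 := congrArg (fun p => eval θ (p.map (algebraMap k k'))) huw
      simp only [Polynomial.map_add, Polynomial.map_mul, eval_add, eval_mul,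
        Polynomial.map_one, eval_one] at h4
      rw [IsRoot.def.1 hθ, IsRoot.def.1 h3, mul_zero, mul_zero, add_zero] at h4
      exact one_ne_zero h4.symm
    rw [hq, Polynomial.map_mul, Polynomial.map_pow] at hp0 ⊢
    rw [← count_roots] at h1 h2 ⊢
    rw [roots_mul hp0, Multiset.count_add, roots_pow, Multiset.count_nsmul, h1, h2]
    exact ⟨m, by ring⟩

variable {a b : k[X]}

theorem twoOdd_of_factors (ha : a ≠ 0) (hb : b ≠ 0) (hab : a ≠ b)
    (h : ∀ π : k[X], Irreducible π → π ∣ a * b * (a - b) → π.Separable)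
    (ho : TwoOddFactors a b) : TwoOdd k k' a b := by
  have hsub : a - b ≠ 0 := sub_ne_zero.2 hab
  have Ha : HasOddFactor a → OddRoots k k' a := fun o =>
    oddRoots_of_factor ha (fun π h1 h2 => h π h1 ((h2.mul_right b).mul_right _)) o
  have Hb : HasOddFactor b → OddRoots k k' b := fun o =>
    oddRoots_of_factor hb (fun π h1 h2 => h π h1 ((h2.mul_left a).mul_right _)) o
  have Hc : HasOddFactor (a - b) → OddRoots k k' (a - b) := fun o =>
    oddRoots_of_factor hsub (fun π h1 h2 => h π h1 (h2.mul_left _)) o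
  rcases ho with ⟨h1, h2⟩ | ⟨h1, h2⟩ | ⟨h1, h2⟩
  · exact Or.inl ⟨Ha h1, Hb h2⟩
  · exact Or.inr (Or.inl ⟨Ha h1, Hc h2⟩)
  · exact Or.inr (Or.inr ⟨Hb h1, Hc h2⟩)

theorem twoOdd_of_odd (ha : a ≠ 0) (hb : b ≠ 0) (hab : a ≠ b)
    (hs : ((a * b * (a - b)).map (algebraMap k k')).Splits)
    (ho : Odd (max a.natDegree b.natDegree)) : TwoOdd k k' a b := by
  have hsub : a - b ≠ 0 := sub_ne_zero.2 hab
  have hprod : a * b * (a - b) ≠ 0 := mul_ne_zero (mul_ne_zero ha hb) hsub
  have sa : (a.map (algebraMap k k')).Splits :=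
    splits_dvd ((dvd_mul_right a b).mul_right _) hprod hs
  have sb : (b.map (algebraMap k k')).Splits :=
    splits_dvd ((dvd_mul_left b a).mul_right _) hprod hs
  have sc : ((a - b).map (algebraMap k k')).Splits := splits_dvd (dvd_mul_left _ _) hprod hs
  rcases lt_trichotomy a.natDegree b.natDegree with h | h | h
  · right; right
    rw [max_eq_right h.le] at ho
    refine ⟨oddRoots_of_natDegree ho sb, oddRoots_of_natDegree ?_ sc⟩
    rw [natDegree_sub_eq_right_of_natDegree_lt h]
    exact ho
  · left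
    rw [h, max_self] at ho
    exact ⟨oddRoots_of_natDegree (h ▸ ho) sa, oddRoots_of_natDegree ho sb⟩
  · right; left
    rw [max_eq_left h.le] at ho
    refine ⟨oddRoots_of_natDegree ho sa, oddRoots_of_natDegree ?_ sc⟩
    rw [natDegree_sub_eq_left_of_natDegree_lt h]
    exact ho

end

/-- The criterion. -/
theorem criterion {k k' K F : Type} [Field k] [Field k'] [Algebra k k'] [Field K] [Algebra k[X] K]
    [Field F] [Algebra k'[X] F] [IsFractionRing k'[X] F] [Algebra K F] (hT : IsTower k k' K F)
    (h2 : (2 : k) ≠ 0) {a b : k[X]} (ha : a ≠ 0) (hb : b ≠ 0) (hab : a ≠ b) (hco : IsCoprime a b)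
    (hsep : ∀ π : k[X], Irreducible π → π ∣ a * b * (a - b) → π.Separable)
    (hodd : Odd (max a.natDegree b.natDegree) ∨ TwoOddFactors a b)
    (hpts : EnoughPoints K F a b) :
    TateAtTwo (F := F) k' (crv (algebraMap k[X] K a) (algebraMap k[X] K b)) := by
  haveI := hT.sep
  haveI := hT.fracK
  have hsub : a - b ≠ 0 := sub_ne_zero.2 hab
  have hprod : a * b * (a - b) ≠ 0 := mul_ne_zero (mul_ne_zero ha hb) hsub
  have hs : ((a * b * (a - b)).map (algebraMap k k')).Splits := splits_of_sep hprod hsep
  have ho : TwoOdd k k' a b := by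
    rcases hodd with h | h
    · exact twoOdd_of_odd ha hb hab hs h
    · exact twoOdd_of_factors ha hb hab hsep h
  intro c hc hl hi n
  exact main hT.map h2 ha hb hab hco hs ho hpts c hc hl hi n

end Pool.Agent.TH115.GD
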