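import Mathlib

/-!
Group law formulas for the curves `y ^ 2 = x (x - a) (x - b)` over a field in which `2 ≠ 0`:
halving of points and the functions `((x - e) ^ 2 - f'(e)) / (2 y)` attached to the points of order
two.
-/

set_option autoImplicit false
set_option linter.all false

open WeierstrassCurve WeierstrassCurve.Affine

namespace Pool.Agent.TH115.GD

/-- The Weierstrass curve `y ^ 2 = x (x - a) (x - b)`. -/
structure IsE {F : Type*} [Field F] (W : Affine F) (a b : F) : Prop where
  a1 : W.a₁ = 0
  a2 : W.a₂ = -(a + b)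
  a3 : W.a₃ = 0
  a4 : W.a₄ = a * b
  a6 : W.a₆ = 0
  two : (2 : F) ≠ 0
  nea : a ≠ 0
  neb : b ≠ 0
  neab : a ≠ b

variable {F : Type*} [Field F] {W : Affine F} {a b : F}

theorem IsE.equation (h : IsE W a b) {x y : F} :
    W.Equation x y ↔ y ^ 2 = x * (x - a) * (x - b) := by
  rw [W.equation_iff, h.a1, h.a2, h.a3, h.a4, h.a6]
  constructor <;> intro h' <;> linear_combination h'

theorem IsE.nonsingular (h : IsE W a b) {x y : F} :
    W.Nonsingular x y ↔ y ^ 2 = x * (x - a) * (x - b) := by
  rw [W.nonsingular_iff, h.equation, h.a1, h.a2, h.a3, h.a4]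
  refine ⟨fun h' => h'.1, fun h' => ⟨h', ?_⟩⟩
  by_cases hy : y = 0
  · left
    subst hy
    have h0 : x * (x - a) * (x - b) = 0 := by rw [← h']; ring
    intro hd
    have hd' : 3 * x ^ 2 - 2 * (a + b) * x + a * b = 0 := by linear_combination -hd
    rcases mul_eq_zero.1 h0 with h1 | h1
    · rcases mul_eq_zero.1 h1 with h2 | h2
      · subst h2
        have h3 : a * b = 0 := by linear_combination hd'
        rcases mul_eq_zero.1 h3 with h4 | h4
        · exact h.nea h4
        · exact h.neb h4
      · obtain rfl : x = a := by linear_combination h2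
        have h3 : x * (x - b) = 0 := by linear_combination hd'
        rcases mul_eq_zero.1 h3 with h4 | h4
        · exact h.nea h4
        · exact h.neab (by linear_combination h4)
    · obtain rfl : x = b := by linear_combination h1
      have : x * (x - a) = 0 := by linear_combination hd'
      rcases mul_eq_zero.1 this with h2 | h2
      · exact h.neb h2
      · exact h.neab (by linear_combination -h2)
  · right
    intro hd
    have : (2 : F) * y = 0 := by linear_combination hd
    rcases mul_eq_zero.1 this with h2 | h2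
    · exact h.two h2
    · exact hy h2

theorem IsE.negY (h : IsE W a b) (x y : F) : W.negY x y = -y := by
  simp [WeierstrassCurve.Affine.negY, h.a1, h.a3]

/-- The function attached to the root `e`. -/
noncomputable def rt (e D : F) : W.Point → F
  | .zero => 0
  | .some x y _ => ((x - e) ^ 2 - D) / (2 * y)

variable [DecidableEq F]

/-- Addition of a point of order two. -/
theorem add_tor (h : IsE W a b) {x y : F} (hP : W.Nonsingular x y) (hy : y ≠ 0) {e : F}
    (ha : W.Nonsingular e 0) (hr : e * (e - a) * (e - b) = 0) :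
    x - e ≠ 0 ∧ ∃ hQ, Point.some x y hP + Point.some e 0 ha =
      Point.some (e + (3 * e ^ 2 - 2 * (a + b) * e + a * b) / (x - e))
        (-((3 * e ^ 2 - 2 * (a + b) * e + a * b) * y) / (x - e) ^ 2) hQ := by
  have hxa : x ≠ e := by
    rintro rfl
    apply hy
    have := h.nonsingular.1 hP
    rw [hr] at this
    exact pow_eq_zero_iff (two_ne_zero) |>.1 this
  have hxa' : x - e ≠ 0 := sub_ne_zero.2 hxa
  refine ⟨hxa', ?_⟩
  rw [Point.add_of_X_ne hxa]
  have he := h.nonsingular.1 hP
  have h1 : W.addX x e (W.slope x e y 0) =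
      e + (3 * e ^ 2 - 2 * (a + b) * e + a * b) / (x - e) := by
    rw [slope_of_X_ne hxa, addX, h.a1, h.a2]
    field_simp
    linear_combination he + hr
  have h2 : W.addY x e y (W.slope x e y 0) =
      -((3 * e ^ 2 - 2 * (a + b) * e + a * b) * y) / (x - e) ^ 2 := by
    rw [addY, negAddY, h1, slope_of_X_ne hxa, h.negY]
    field_simp
    ring
  have hh : W.Nonsingular (e + (3 * e ^ 2 - 2 * (a + b) * e + a * b) / (x - e))
      (-((3 * e ^ 2 - 2 * (a + b) * e + a * b) * y) / (x - e) ^ 2) := by
    rw [← h1, ← h2]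
    exact nonsingular_add hP ha fun hxy => hxa hxy.1
  refine ⟨hh, ?_⟩
  simp only [h1, h2]

omit [DecidableEq F] in
theorem root_of_tor (h : IsE W a b) {x y : F} (hP : W.Nonsingular x y) (hy : y = 0) :
    x = 0 ∨ x = a ∨ x = b := by
  have := h.nonsingular.1 hP
  rw [hy] at this
  have h0 : x * (x - a) * (x - b) = 0 := by rw [← this]; ring
  rcases mul_eq_zero.1 h0 with h1 | h1
  · rcases mul_eq_zero.1 h1 with h2 | h2
    · exact Or.inl h2
    · exact Or.inr (Or.inl (by linear_combination h2))
  · exact Or.inr (Or.inr (by linear_combination h1))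

theorem add_self_eq_zero_iff (h : IsE W a b) {x y : F} (hP : W.Nonsingular x y) :
    Point.some x y hP + Point.some x y hP = 0 ↔ y = 0 := by
  constructor
  · intro h0
    by_contra hy
    have : y ≠ W.negY x y := by
      rw [h.negY]
      intro h1
      have : (2 : F) * y = 0 := by linear_combination h1
      rcases mul_eq_zero.1 this with h2 | h2
      · exact h.two h2
      · exact hy h2
    rw [Point.add_self_of_Y_ne this] at h0
    exact Point.some_ne_zero _ h0
  · rintro rfl
    exact Point.add_self_of_Y_eq (by rw [h.negY]; ring)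

/-- The sign at the root `0`. -/
noncomputable def s0 : W.Point → F
  | .zero => 1
  | .some x _ _ => if x = 0 then 1 else -1

/-- The sign at the root `a`. -/
noncomputable def s1 (a : F) : W.Point → F
  | .zero => 1
  | .some x _ _ => if x = a then 1 else -1

/-- The three functions. -/
noncomputable def r0 (a b : F) : W.Point → F := rt 0 (a * b)
noncomputable def r1 (a b : F) : W.Point → F := rt a (a * (a - b))
noncomputable def rg (a b : F) : W.Point → F := rt b (b * (b - a))

theorem translate (h : IsE W a b) {P T : W.Point} (hP : P + P ≠ 0) (hT : T + T = 0) :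
    r0 a b (P + T) = s0 T * r0 a b P ∧ r1 a b (P + T) = s1 a T * r1 a b P ∧
      rg a b (P + T) = s0 T * s1 a T * rg a b P := by
  rcases P with _ | ⟨x, y, hxy⟩
  · exact absurd (add_zero (0 : W.Point)) hP
  have hy : y ≠ 0 := fun h0 => hP ((add_self_eq_zero_iff h hxy).2 h0)
  have h2y : (2 : F) * y ≠ 0 := mul_ne_zero h.two hy
  have h2 := h.two
  rcases T with _ | ⟨e, f, hab⟩
  · rw [← Point.zero_def, add_zero, Point.zero_def]
    simp [s0, s1]
  obtain rfl : f = 0 := (add_self_eq_zero_iff h hab).1 hT
  have hr : e * (e - a) * (e - b) = 0 := by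
    rw [← h.nonsingular.1 hab]; ring
  obtain ⟨hxa, hQ, hadd⟩ := add_tor h hxy hy hab hr
  rw [hadd]
  have hna := h.nea
  have hnb := h.neb
  have hn1 : a - b ≠ 0 := sub_ne_zero.2 h.neab
  have hn1' : b - a ≠ 0 := sub_ne_zero.2 (Ne.symm h.neab)
  rcases root_of_tor h hab rfl with rfl | rfl | rfl
  · have e1 : s0 (Point.some (0 : F) 0 hab) = 1 := by simp [s0]
    have e2 : s1 a (Point.some (0 : F) 0 hab) = -1 := by simp [s1, Ne.symm h.nea]
    rw [e1, e2]
    have e3 : 3 * (0 : F) ^ 2 - 2 * (a + b) * 0 + a * b = a * b := by ring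
    simp only [r0, r1, rg, rt, e3]
    have hx : x ≠ 0 := by simpa using hxa
    rw [sub_zero, zero_add]
    refine ⟨?_, ?_, ?_⟩
    · field_simp
      ring
    · field_simp
      ring
    · field_simp
      ring
  · have e1 : s0 (Point.some e 0 hab) = -1 := by simp [s0, h.nea]
    have e2 : s1 e (Point.some e 0 hab) = 1 := by simp [s1]
    rw [e1, e2]
    have e3 : 3 * e ^ 2 - 2 * (e + b) * e + e * b = e * (e - b) := by ring
    simp only [r0, r1, rg, rt, e3]
    refine ⟨?_, ?_, ?_⟩
    · field_simp
      ring
    · field_simp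
      ring
    · field_simp
      ring
  · have e1 : s0 (Point.some e 0 hab) = -1 := by simp [s0, h.neb]
    have e2 : s1 a (Point.some e 0 hab) = -1 := by simp [s1, Ne.symm h.neab]
    rw [e1, e2]
    have e3 : 3 * e ^ 2 - 2 * (a + e) * e + a * e = e * (e - a) := by ring
    simp only [r0, r1, rg, rt, e3]
    refine ⟨?_, ?_, ?_⟩
    · field_simp
      ring
    · field_simp
      ring
    · field_simp
      ring

/-- Doubling. -/
theorem double (h : IsE W a b) {P : W.Point} (hP : P + P ≠ 0) :
    ∃ X Y hQ, P + P = Point.some X Y hQ ∧ r0 a b P ^ 2 = X ∧ r1 a b P ^ 2 = X - a ∧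
      rg a b P ^ 2 = X - b ∧ r0 a b P * r1 a b P * rg a b P = Y := by
  rcases P with _ | ⟨x, y, hxy⟩
  · exact absurd (add_zero (0 : W.Point)) hP
  have hy : y ≠ 0 := fun h0 => hP ((add_self_eq_zero_iff h hxy).2 h0)
  have h2y : (2 : F) * y ≠ 0 := mul_ne_zero h.two hy
  have h2 := h.two
  have hne : y ≠ W.negY x y := by
    rw [h.negY]
    intro h1
    apply h2y
    linear_combination h1
  have hs : W.slope x x y y = (3 * x ^ 2 - 2 * (a + b) * x + a * b) / (2 * y) := by
    rw [slope_of_Y_ne rfl hne, h.negY, h.a1, h.a2, h.a4]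
    congr 1 <;> ring
  have he := h.nonsingular.1 hxy
  have hX : W.addX x x (W.slope x x y y) = (r0 a b (Point.some x y hxy)) ^ 2 := by
    rw [hs, addX, h.a1, h.a2]
    simp only [r0, rt]
    field_simp
    linear_combination 4 * (a + b - 2 * x) * he
  refine ⟨_, _, _, Point.add_self_of_Y_ne hne, hX.symm, ?_, ?_, ?_⟩
  · rw [hX]
    simp only [r0, r1, rt]
    field_simp
    linear_combination 4 * a * he
  · rw [hX]
    simp only [r0, rg, rt]
    field_simp
    linear_combination 4 * b * he
  · rw [addY, negAddY, hX, h.negY, hs]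
    simp only [r0, r1, rg, rt]
    field_simp
    linear_combination (8 * (y ^ 2 + x * (x - a) * (x - b)) - 4 * x * (3 * x ^ 2 - 2 * (a + b) * x + a * b)) * he

/-- Halving. -/
theorem halve (h : IsE W a b) {X Y : F} (hQ : W.Nonsingular X Y) {u v w : F} (hu : u ^ 2 = X)
    (hv : v ^ 2 = X - a) (hw : w ^ 2 = X - b) :
    ∃ P : W.Point, P + P = Point.some X Y hQ := by
  wlog hY : Y = u * v * w generalizing w with H
  · apply H (w := -w) (by rw [neg_sq, hw])
    have h1 : Y ^ 2 = (u * v * w) ^ 2 := by
      rw [h.nonsingular.1 hQ, mul_pow, mul_pow, hu, hv, hw]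
    rcases sq_eq_sq_iff_eq_or_eq_neg.1 h1 with h2 | h2
    · exact absurd h2 hY
    · rw [h2]; ring
  have huv : u + v ≠ 0 := by
    intro h0
    have : u ^ 2 = v ^ 2 := by rw [show u = -v by linear_combination h0]; ring
    rw [hu, hv] at this
    exact h.nea (by linear_combination this)
  have huw : u + w ≠ 0 := by
    intro h0
    have : u ^ 2 = w ^ 2 := by rw [show u = -w by linear_combination h0]; ring
    rw [hu, hw] at this
    exact h.neb (by linear_combination this)
  have hvw : v + w ≠ 0 := by
    intro h0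
    have : v ^ 2 = w ^ 2 := by rw [show v = -w by linear_combination h0]; ring
    rw [hv, hw] at this
    exact h.neab (by linear_combination -this)
  have hP : W.Nonsingular (X + u * v + u * w + v * w) ((u + v) * (u + w) * (v + w)) := by
    rw [h.nonsingular]
    have e1 : X + u * v + u * w + v * w = (u + v) * (u + w) := by rw [← hu]; ring
    have e2 : X + u * v + u * w + v * w - a = (v + u) * (v + w) := by
      linear_combination -hv
    have e3 : X + u * v + u * w + v * w - b = (w + u) * (w + v) := by
      linear_combination -hw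
    rw [e2, e3, e1]; ring
  have hne : (u + v) * (u + w) * (v + w) ≠ 0 := mul_ne_zero (mul_ne_zero huv huw) hvw
  have hne2 : Point.some _ _ hP + Point.some _ _ hP ≠ 0 := fun h0 =>
    hne ((add_self_eq_zero_iff h hP).1 h0)
  obtain ⟨X', Y', hQ', h1, h2, h3, h4, h5⟩ := double h hne2
  refine ⟨_, h1.trans ?_⟩
  have h2' := h.two
  have e0 : r0 a b (Point.some _ _ hP) = u := by
    simp only [r0, rt]
    rw [div_eq_iff (mul_ne_zero h.two hne)]
    have e1 : X + u * v + u * w + v * w = (u + v) * (u + w) := by rw [← hu]; ring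
    have e4 : a * b = (v ^ 2 - u ^ 2) * (w ^ 2 - u ^ 2) := by
      rw [hu, hv, hw]; ring
    rw [e1, e4]
    ring
  have e1 : r1 a b (Point.some _ _ hP) = v := by
    simp only [r1, rt]
    rw [div_eq_iff (mul_ne_zero h.two hne)]
    have e2 : X + u * v + u * w + v * w - a = (v + u) * (v + w) := by
      linear_combination -hv
    have e4 : a * (a - b) = (u ^ 2 - v ^ 2) * (w ^ 2 - v ^ 2) := by
      rw [hu, hv, hw]; ring
    rw [e2, e4]
    ring
  have e2 : rg a b (Point.some _ _ hP) = w := by
    simp only [rg, rt]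
    rw [div_eq_iff (mul_ne_zero h.two hne)]
    have e3 : X + u * v + u * w + v * w - b = (w + u) * (w + v) := by
      linear_combination -hw
    have e4 : b * (b - a) = (u ^ 2 - w ^ 2) * (v ^ 2 - w ^ 2) := by
      rw [hu, hv, hw]; ring
    rw [e3, e4]
    ring
  rw [e0] at h2
  rw [e0, e1, e2, ← hY] at h5
  have hX : X' = X := by rw [← h2, hu]
  subst hX
  subst h5
  rfl

end Pool.Agent.TH115.GD
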