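import Pool.Agent.TH115.GD.Kum

/-!
Two-descent for the classes of `H ^ 1 (F, T_2 E)` which are fixed by the Galois group of `K`.
-/

set_option autoImplicit false
set_option linter.all false

open WeierstrassCurve WeierstrassCurve.Affine
open scoped Classical

namespace Pool.Agent.TH115.GD

open Pool.Agent.W309.TD (locConst_apply exists_root compare)

universe u

section loc

variable {K F Ω L Ω' : Type u} [Field K] [Field F] [Field Ω] [Field L] [Field Ω']
  [Algebra K F] [Algebra F Ω] [Algebra K Ω] [IsScalarTower K F Ω] [IsGalois F Ω]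
  [Algebra K L] [Algebra F L] [IsScalarTower K F L]
  [Algebra L Ω'] [Algebra K Ω'] [Algebra F Ω'] [IsScalarTower K L Ω'] [IsScalarTower F L Ω']
  [IsScalarTower K F Ω'] [IsGalois L Ω']
  (W : WeierstrassCurve K) {a b : K}

/-- Local solubility of the pair `(a0, a1)`. -/
def LocSol (W : WeierstrassCurve K) (a b : K) (L : Type u) [Field L] [Algebra K L] [Algebra F L]
    (a0 a1 : F) : Prop :=
  ∃ (Q : Pt W L) (c0 c1 : L), c0 ≠ 0 ∧ c1 ≠ 0 ∧
    algebraMap F L a0 = c0 ^ 2 * d0 (algebraMap K L a) (algebraMap K L b) Q ∧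
    algebraMap F L a1 = c1 ^ 2 * d1 (algebraMap K L a) (algebraMap K L b) Q

theorem exists_restrict (ι : Ω →ₐ[F] Ω') (τ : Ω' ≃ₐ[L] Ω') :
    ∃ σ : Ω ≃ₐ[F] Ω, ∀ x, τ (ι x) = ι (σ x) := by
  letI : Algebra Ω Ω' := ι.toRingHom.toAlgebra
  haveI : IsScalarTower F Ω Ω' := IsScalarTower.of_algebraMap_eq fun x => (ι.commutes x).symm
  refine ⟨(τ.restrictScalars F).restrictNormal Ω, fun x => ?_⟩
  exact ((τ.restrictScalars F).restrictNormal_commutes Ω x).symm

variable (hL' : IsE (W.baseChange Ω').toAffine (algebraMap K Ω' a) (algebraMap K Ω' b))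

include hL'

theorem loc_rep {f : (Ω ≃ₐ[F] Ω) → Pt W Ω}
    (hf2 : ∀ σ, f σ + f σ = 0) (hloc : LocTriv W L Ω' f) {t0 t1 : Ω} {a0 a1 : F}
    (n0 : t0 ≠ 0) (n1 : t1 ≠ 0)
    (e0 : t0 ^ 2 = algebraMap F Ω a0) (e1 : t1 ^ 2 = algebraMap F Ω a1)
    (k0 : ∀ σ, σ t0 = s0 (f σ) * t0) (k1 : ∀ σ, σ t1 = s1 (algebraMap K Ω a) (f σ) * t1) :
    LocSol W a b L a0 a1 := by
  obtain ⟨ι, P, hP⟩ := hloc
  choose res hres using exists_restrict (F := F) (Ω := Ω) (L := L) (Ω' := Ω') ι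
  set ι' : Ω →ₐ[K] Ω' := ι.restrictScalars K with hι'
  have hιx : ∀ x, ι' x = ι x := fun x => rfl
  have hT : ∀ τ : Ω' ≃ₐ[L] Ω', act W ι' (f (res τ)) = act W (rs K τ) P - P :=
    fun τ => hP τ (res τ) (hres τ)
  have hTT : ∀ τ : Ω' ≃ₐ[L] Ω', act W ι' (f (res τ)) + act W ι' (f (res τ)) = 0 :=
    fun τ => (two_act W ι' _).2 (hf2 _)
  have hTP : ∀ τ : Ω' ≃ₐ[L] Ω', act W (rs K τ) P = P + act W ι' (f (res τ)) := by
    intro τ; rw [hT]; abel
  have hPP : ∀ τ : Ω' ≃ₐ[L] Ω', act W (rs K τ) (P + P) = P + P := by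
    intro τ
    rw [map_add, hTP, add_add_add_comm, hTT, add_zero]
  obtain ⟨Q, hQ⟩ := fixed_point (K := K) (F := L) W (P + P) hPP
  have ga : incl K L Ω' (algebraMap K L a) = algebraMap K Ω' a :=
    (IsScalarTower.algebraMap_apply K L Ω' a).symm
  have gb : incl K L Ω' (algebraMap K L b) = algebraMap K Ω' b :=
    (IsScalarTower.algebraMap_apply K L Ω' b).symm
  have hs : ∀ τ : Ω' ≃ₐ[L] Ω', act W (rs K τ) P - P = act W ι' (f (res τ)) := fun τ => (hT τ).symm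
  have inj := (algebraMap L Ω').injective
  have m0 : ∀ τ : Ω' ≃ₐ[L] Ω', τ (h0 (algebraMap K Ω' a) (algebraMap K Ω' b) P) =
      s0 (act W ι' (f (res τ))) * h0 (algebraMap K Ω' a) (algebraMap K Ω' b) P := by
    intro τ
    rw [← hs]
    exact (sign_half W hL' hPP τ).2.1
  have m1 : ∀ τ : Ω' ≃ₐ[L] Ω', τ (h1 (algebraMap K Ω' a) (algebraMap K Ω' b) P) =
      s1 (algebraMap K Ω' a) (act W ι' (f (res τ))) *
        h1 (algebraMap K Ω' a) (algebraMap K Ω' b) P := by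
    intro τ
    rw [← hs]
    exact (sign_half W hL' hPP τ).2.2
  have l0 : ∀ τ : Ω' ≃ₐ[L] Ω', τ (ι t0) = s0 (act W ι' (f (res τ))) * ι t0 := by
    intro τ
    rw [hres τ t0, k0, map_mul, s0_act, hιx]
  have l1 : ∀ τ : Ω' ≃ₐ[L] Ω', τ (ι t1) =
      s1 (algebraMap K Ω' a) (act W ι' (f (res τ))) * ι t1 := by
    intro τ
    have h3 := s1_act W ι' (algebraMap K Ω a) (f (res τ))
    rw [ι'.commutes] at h3
    rw [hres τ t1, k1, map_mul, h3, hιx]
  have ιn0 : ι t0 ≠ 0 := (map_ne_zero ι).2 n0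
  have ιn1 : ι t1 ≠ 0 := (map_ne_zero ι).2 n1
  obtain ⟨c0, hc0, q0⟩ := compare (K := L) ιn0 (h0_ne hL' P) _ (fun τ => s0_ne _) l0 m0
  obtain ⟨c1, hc1, q1⟩ := compare (K := L) ιn1 (h1_ne hL' P) _ (fun τ => s1_ne _ _) l1 m1
  refine ⟨Q, c0, c1, hc0, hc1, ?_, ?_⟩
  · apply inj
    have w1 : (ι t0) ^ 2 = algebraMap F Ω' a0 := by rw [← map_pow, e0, ι.commutes]
    rw [← IsScalarTower.algebraMap_apply F L Ω', ← w1, q0, mul_pow, h0_sq hL', ← hQ, ← ga, ← gb,
      d0_act, map_mul, map_pow]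
    rfl
  · apply inj
    have w1 : (ι t1) ^ 2 = algebraMap F Ω' a1 := by rw [← map_pow, e1, ι.commutes]
    rw [← IsScalarTower.algebraMap_apply F L Ω', ← w1, q1, mul_pow, h1_sq hL', ← hQ, ← ga, ← gb,
      d1_act, map_mul, map_pow]
    rfl

end loc

section sub

variable {K F Ω L Ω' : Type u} [Field K] [Field F] [Field Ω] [Field L] [Field Ω']
  [Algebra K F] [Algebra F Ω] [Algebra K Ω] [IsScalarTower K F Ω]
  [Algebra K L] [Algebra L Ω'] [Algebra K Ω'] [Algebra F Ω'] [IsScalarTower K L Ω']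
  [IsScalarTower K F Ω'] (W : WeierstrassCurve K)

theorem LocTriv.sub {f : (Ω ≃ₐ[F] Ω) → Pt W Ω} (h : LocTriv W L Ω' f) (H : Pt W Ω) :
    LocTriv W L Ω' (fun σ => f σ - (act W (rs K σ) H - H)) := by
  obtain ⟨ι, S, hS⟩ := h
  refine ⟨ι, S - act W (ι.restrictScalars K) H, fun τ σ hτσ => ?_⟩
  have h3 := hS τ σ hτσ
  have h5 : (ι.restrictScalars K).comp (rs K σ) = (rs K τ).comp (ι.restrictScalars K) :=
    AlgHom.ext fun x => (hτσ x).symm
  have h4 : act W (ι.restrictScalars K) (act W (rs K σ) H) =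
      act W (rs K τ) (act W (ι.restrictScalars K) H) := by
    rw [act_act, act_act, h5]
  rw [map_sub, map_sub, h3, map_sub, h4]
  abel

end sub

section main

variable {K F Ω : Type u} [Field K] [Field F] [Field Ω] [Algebra K F] [Algebra F Ω] [Algebra K Ω]
  [IsScalarTower K F Ω] [IsGalois F Ω] [IsSepClosed Ω]
  (W : WeierstrassCurve K) {a b : K}

/-- `Ω / K` preserves `F`. -/
def Preserves (K F Ω : Type u) [Field K] [Field F] [Field Ω] [Algebra K F] [Algebra F Ω]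
    [Algebra K Ω] : Prop :=
  ∀ (τ : Ω ≃ₐ[K] Ω) (x : F), ∃ y : F, τ (algebraMap F Ω x) = algebraMap F Ω y

theorem exists_conj (hN : Preserves K F Ω) (τ : Ω ≃ₐ[K] Ω) (σ : Ω ≃ₐ[F] Ω) :
    ∃ σ' : Ω ≃ₐ[F] Ω, ∀ x, τ (σ' x) = σ (τ x) := by
  let e : Ω ≃+* Ω := (τ.toRingEquiv.trans σ.toRingEquiv).trans τ.symm.toRingEquiv
  refine ⟨AlgEquiv.ofRingEquiv (f := e) ?_, ?_⟩
  · intro x
    obtain ⟨y, hy⟩ := hN τ x
    show τ.symm (σ (τ (algebraMap F Ω x))) = algebraMap F Ω x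
    rw [hy, σ.commutes, ← hy, AlgEquiv.symm_apply_apply]
  · intro x
    show τ (τ.symm (σ (τ x))) = σ (τ x)
    rw [AlgEquiv.apply_symm_apply]

/-- The pair `(a0, a1)` is fixed by `Gal(Ω / K)` modulo squares and the points of order two. -/
def FixedMod (W : WeierstrassCurve K) (a b : K) (Ω : Type u) [Field Ω] [Algebra F Ω] [Algebra K Ω]
    (a0 a1 : F) : Prop :=
  ∀ τ : Ω ≃ₐ[K] Ω, ∃ (T : Pt W F) (u0 u1 : F), T + T = 0 ∧ u0 ≠ 0 ∧ u1 ≠ 0 ∧
    τ (algebraMap F Ω a0) = algebraMap F Ω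
      (u0 ^ 2 * (a0 * d0 (algebraMap K F a) (algebraMap K F b) T)) ∧
    τ (algebraMap F Ω a1) = algebraMap F Ω
      (u1 ^ 2 * (a1 * d1 (algebraMap K F a) (algebraMap K F b) T))

/-- Everywhere locally soluble pairs which are fixed come from points over `K`. -/
def GlobalProp (W : WeierstrassCurve K) (a b : K) (Ω : Type u) [Field Ω] [Algebra F Ω]
    [Algebra K Ω] (LS : F → F → Prop) : Prop :=
  ∀ a0 a1 : F, a0 ≠ 0 → a1 ≠ 0 → LS a0 a1 →
    FixedMod W a b Ω a0 a1 →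
    ∃ (P : Pt W K) (c0 c1 : F), c0 ≠ 0 ∧ c1 ≠ 0 ∧
      a0 = c0 ^ 2 * algebraMap K F (d0 a b P) ∧
      a1 = c1 ^ 2 * algebraMap K F (d1 a b P)

variable (hL : IsE (W.baseChange Ω).toAffine (algebraMap K Ω a) (algebraMap K Ω b))

/-- There are no points of order four over `F`. -/
def NoFour (W : WeierstrassCurve K) (F : Type u) [Field F] [Algebra K F] : Prop :=
  ∀ R : Pt W F, (R + R) + (R + R) = 0 → R + R = 0

omit [IsGalois F Ω] [IsSepClosed Ω] [Algebra F Ω] [IsScalarTower K F Ω] [Field Ω] [Algebra K Ω] in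
theorem two_of_pow (hF : NoFour W F) (m : ℕ) (T : Pt W F) (hT : 2 ^ m • T = 0) : T + T = 0 := by
  induction m generalizing T with
  | zero =>
    rw [pow_zero, one_smul] at hT
    rw [hT, add_zero]
  | succ m ih =>
    have h1 : 2 ^ m • (T + T) = 0 := by
      rw [← two_nsmul, smul_smul, ← pow_succ, hT]
    exact hF T (ih _ h1)

include hL in
theorem fixed_rep (hN : Preserves K F Ω) (hF : NoFour W F)
    {c : ℕ → (Ω ≃ₐ[F] Ω) → Pt W Ω} (hc : IsTC W c) (hi : IsInv W c)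
    {t0 t1 : Ω} {a0 a1 : F} (n0 : t0 ≠ 0) (n1 : t1 ≠ 0)
    (e0 : t0 ^ 2 = algebraMap F Ω a0) (e1 : t1 ^ 2 = algebraMap F Ω a1)
    (k0 : ∀ σ, σ t0 = s0 (c 1 σ) * t0) (k1 : ∀ σ, σ t1 = s1 (algebraMap K Ω a) (c 1 σ) * t1) :
    FixedMod W a b Ω a0 a1 := by
  intro τ
  obtain ⟨m, Q, hQ, hinv⟩ := hi τ
  have hc2 : ∀ σ, c 1 σ + c 1 σ = 0 := fun σ => by
    rw [← two_nsmul, hc.two 0 σ, hc.zero]
  -- the relation in level one
  have hpow : ∀ (k : ℕ) (σ), 2 ^ k • c (k + 1) σ = c 1 σ := by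
    intro k
    induction k with
    | zero => intro σ; rw [pow_zero, one_smul]
    | succ k ih =>
      intro σ
      rw [pow_succ, mul_smul, hc.two, ih]
  set R := Q (m + 1) with hR
  have hrel : ∀ σ σ' : Ω ≃ₐ[F] Ω, (∀ x, τ (σ' x) = σ (τ x)) →
      act W (ak τ) (c 1 σ') - c 1 σ = act W (rs K σ) R - R := by
    intro σ σ' h
    rw [← hinv (m + 1) σ σ' h, smul_sub, ← map_nsmul, hpow, hpow]
  have hQpow : ∀ (k : ℕ), 2 ^ k • Q k = 0 := by
    intro k
    induction k with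
    | zero => rw [hQ.zero, smul_zero]
    | succ k ih =>
      rw [pow_succ, mul_smul, hQ.two, ih]
  have hd : ∀ σ : Ω ≃ₐ[F] Ω, (act W (rs K σ) R - R) + (act W (rs K σ) R - R) = 0 := by
    intro σ
    obtain ⟨σ', hσ'⟩ := exists_conj hN τ σ
    rw [← hrel σ σ' hσ']
    have h1 : act W (ak τ) (c 1 σ') + act W (ak τ) (c 1 σ') = 0 :=
      (two_act W (ak τ) _).2 (hc2 σ')
    rw [sub_add_sub_comm, h1, hc2, sub_zero]
  have hfix : ∀ σ : Ω ≃ₐ[F] Ω, act W (rs K σ) (R + R) = R + R := by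
    intro σ
    have h1 := hd σ
    rw [sub_add_sub_comm, ← map_add] at h1
    exact sub_eq_zero.1 h1
  obtain ⟨T, hT⟩ := fixed_point (K := K) (F := F) W (R + R) hfix
  have hTT : T + T = 0 := by
    apply two_of_pow W hF (m + 1)
    apply act_inj W (incl K F Ω)
    rw [map_nsmul, hT, map_zero, ← two_nsmul, smul_smul, mul_comm, mul_smul]
    rw [hR, hQpow, smul_zero]
  have sR := sign_half W hL hfix
  set A := algebraMap K Ω a with hA
  set B := algebraMap K Ω b with hB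
  have ga : incl K F Ω (algebraMap K F a) = A := (IsScalarTower.algebraMap_apply K F Ω a).symm
  have gb : incl K F Ω (algebraMap K F b) = B := (IsScalarTower.algebraMap_apply K F Ω b).symm
  have key : ∀ σ σ' : Ω ≃ₐ[F] Ω, (∀ x, τ (σ' x) = σ (τ x)) →
      act W (ak τ) (c 1 σ') = c 1 σ + (act W (rs K σ) R - R) := by
    intro σ σ' h
    rw [← hrel σ σ' h]; abel
  have s0τ : ∀ P : Pt W Ω, τ (s0 P) = s0 (act W (ak τ) P) := fun P => (s0_act W (ak τ) P).symm
  have s1τ : ∀ P : Pt W Ω, τ (s1 A P) = s1 A (act W (ak τ) P) := fun P => by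
    have := s1_act W (ak τ) A P
    rw [(ak τ).commutes] at this
    exact this.symm
  obtain ⟨u0, hu0, q0⟩ := compare (K := F) (t := τ t0) (u := t0 * h0 A B R)
    ((map_ne_zero τ).2 n0) (mul_ne_zero n0 (h0_ne hL R))
    (fun σ => s0 (c 1 σ) * s0 (act W (rs K σ) R - R))
    (fun σ => mul_ne_zero (s0_ne _) (s0_ne _)) (fun σ => by
      obtain ⟨σ', hσ'⟩ := exists_conj hN τ σ
      rw [← hσ', k0, map_mul, s0τ, key σ σ' hσ', (s_add W hL (hc2 σ) (hd σ)).1])
    (fun σ => by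
      rw [map_mul, k0, (sR σ).2.1]; ring)
  obtain ⟨u1, hu1, q1⟩ := compare (K := F) (t := τ t1) (u := t1 * h1 A B R)
    ((map_ne_zero τ).2 n1) (mul_ne_zero n1 (h1_ne hL R))
    (fun σ => s1 A (c 1 σ) * s1 A (act W (rs K σ) R - R))
    (fun σ => mul_ne_zero (s1_ne _ _) (s1_ne _ _)) (fun σ => by
      obtain ⟨σ', hσ'⟩ := exists_conj hN τ σ
      rw [← hσ', k1, map_mul, s1τ, key σ σ' hσ', (s_add W hL (hc2 σ) (hd σ)).2])
    (fun σ => by
      rw [map_mul, k1, (sR σ).2.2]; ring)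
  refine ⟨T, u0, u1, hTT, hu0, hu1, ?_, ?_⟩
  · rw [← e0, map_pow, q0, mul_pow, mul_pow, h0_sq hL, ← hT, ← ga, ← gb, d0_act, e0, map_mul,
      map_mul, map_pow]
    rfl
  · rw [← e1, map_pow, q1, mul_pow, mul_pow, h1_sq hL, ← hT, ← ga, ← gb, d1_act, e1, map_mul,
      map_mul, map_pow]
    rfl

/-- Square roots of `a0`, `a1` attached to `f`. -/
def Rep (W : WeierstrassCurve K) (a : K) (f : (Ω ≃ₐ[F] Ω) → Pt W Ω) (a0 a1 : F) : Prop :=
  ∃ t0 t1 : Ω, t0 ≠ 0 ∧ t1 ≠ 0 ∧ t0 ^ 2 = algebraMap F Ω a0 ∧ t1 ^ 2 = algebraMap F Ω a1 ∧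
    (∀ σ, σ t0 = s0 (f σ) * t0) ∧ ∀ σ, σ t1 = s1 (algebraMap K Ω a) (f σ) * t1

variable {LS : F → F → Prop} {Lt : ((Ω ≃ₐ[F] Ω) → Pt W Ω) → Prop}
  (hLt : ∀ f H, Lt f → Lt (fun σ => f σ - (act W (rs K σ) H - H)))
  (hLS : ∀ f, Lt f → (∀ σ, f σ + f σ = 0) → ∀ a0 a1, Rep W a f a0 a1 → LS a0 a1)
  (hG : GlobalProp (F := F) W a b Ω LS)

include hL hLt hLS hG in
/-- **Descent.** Fixed and locally trivial cocycles with values in the Tate module come from points
over `K`. -/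
theorem descent (hN : Preserves K F Ω) (hF : NoFour W F) (n : ℕ) :
    ∀ c : ℕ → (Ω ≃ₐ[F] Ω) → Pt W Ω, IsTC W c → IsInv W c →
      (∀ n, Lt (c n)) →
      ∃ (P : Pt W K) (R : Pt W Ω), 2 ^ n • R = act W (incl K K Ω) P ∧
        ∀ σ, c n σ = act W (rs K σ) R - R := by
  induction n with
  | zero =>
    intro c hc _ _
    refine ⟨0, 0, by simp, fun σ => ?_⟩
    rw [hc.zero, map_zero, sub_zero]
  | succ n ih =>
    intro c hc hi hloc
    have hc2 : ∀ σ, c 1 σ + c 1 σ = 0 := fun σ => by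
      rw [← two_nsmul, hc.two 0 σ, hc.zero]
    obtain ⟨t0, t1, a0, a1, n0, n1, e0, e1, k0, k1⟩ := kummer_rep W hL (hc.coc 1) hc2
    have ha0 : a0 ≠ 0 := by
      rintro rfl
      rw [map_zero] at e0
      exact pow_ne_zero 2 n0 e0
    have ha1 : a1 ≠ 0 := by
      rintro rfl
      rw [map_zero] at e1
      exact pow_ne_zero 2 n1 e1
    obtain ⟨P, c0, c1, m0, m1, w0, w1⟩ := hG a0 a1 ha0 ha1
      (hLS _ (hloc 1) hc2 a0 a1 ⟨t0, t1, n0, n1, e0, e1, k0, k1⟩)
      (fixed_rep W hL hN hF hc hi n0 n1 e0 e1 k0 k1)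
    -- halves
    have hhalf : ∀ X : Pt W Ω, ∃ Y : Pt W Ω, Y + Y = X := halve_sep hL
    choose hv hhv using hhalf
    obtain ⟨H, H0, HS⟩ : ∃ H : ℕ → Pt W Ω, H 0 = act W (incl K K Ω) P ∧
        ∀ j, 2 • H (j + 1) = H j :=
      ⟨fun j => Nat.rec (act W (incl K K Ω) P) (fun _ X => hv X) j, rfl, fun j => by
        rw [two_nsmul]
        exact hhv _⟩
    have H1 : 2 • H 1 = H 0 := HS 0
    have Hpow : ∀ j, 2 ^ j • H j = act W (incl K K Ω) P := by
      intro j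
      induction j with
      | zero => rw [pow_zero, one_smul, H0]
      | succ j ih => rw [pow_succ, mul_smul, HS, ih]
    have PK : ∀ φ : Ω →ₐ[K] Ω, act W φ (act W (incl K K Ω) P) = act W (incl K K Ω) P := by
      intro φ
      have h1 : φ.comp (incl K K Ω) = incl K K Ω := AlgHom.ext fun x => φ.commutes x
      rw [act_act, h1]
    have key := cob_of_rep W hL hc2 n0 n1 k0 k1 (H := H 1) (c0 := c0) (c1 := c1)
      (fun σ => by
        rw [← two_nsmul, H1, H0]; exact PK _)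
      (by
        rw [← two_nsmul, H1, H0, e0, w0, map_mul, map_pow]
        congr 1
        have := d0_act W (incl K K Ω) a b P
        have ea : incl K K Ω a = algebraMap K Ω a := rfl
        have eb : incl K K Ω b = algebraMap K Ω b := rfl
        rw [ea, eb] at this
        rw [this, ← IsScalarTower.algebraMap_apply K F Ω]
        rfl)
      (by
        rw [← two_nsmul, H1, H0, e1, w1, map_mul, map_pow]
        congr 1
        have := d1_act W (incl K K Ω) a b P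
        have ea : incl K K Ω a = algebraMap K Ω a := rfl
        have eb : incl K K Ω b = algebraMap K Ω b := rfl
        rw [ea, eb] at this
        rw [this, ← IsScalarTower.algebraMap_apply K F Ω]
        rfl)
    -- the new cocycle
    set c' : ℕ → (Ω ≃ₐ[F] Ω) → Pt W Ω :=
      fun j σ => c (j + 1) σ - (act W (rs K σ) (H (j + 1)) - H (j + 1)) with hc'
    have hc'T : IsTC W c' := by
      refine ⟨fun j => (hc.coc (j + 1)).sub W (cob_isCoc W _), fun σ => ?_, fun j σ => ?_⟩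
      · show c (0 + 1) σ - (act W (rs K σ) (H (0 + 1)) - H (0 + 1)) = 0
        rw [zero_add, key σ, sub_self]
      · show 2 • (c (j + 1 + 1) σ - (act W (rs K σ) (H (j + 1 + 1)) - H (j + 1 + 1))) =
          c (j + 1) σ - (act W (rs K σ) (H (j + 1)) - H (j + 1))
        rw [smul_sub, smul_sub, ← map_nsmul, HS (j + 1), hc.two (j + 1)]
    have hc'I : IsInv W c' := by
      intro τ
      obtain ⟨m, Q, hQ, hinv⟩ := hi τ
      refine ⟨m + 1, fun j => Q j - 2 ^ m • (act W (ak τ) (H j) - H j), ⟨?_, fun j => ?_⟩, ?_⟩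
      · show Q 0 - 2 ^ m • (act W (ak τ) (H 0) - H 0) = 0
        rw [hQ.zero, H0, PK, sub_self, smul_zero, sub_zero]
      · show 2 • (Q (j + 1) - 2 ^ m • (act W (ak τ) (H (j + 1)) - H (j + 1))) =
          Q j - 2 ^ m • (act W (ak τ) (H j) - H j)
        rw [smul_sub, hQ.two, smul_comm, smul_sub, ← map_nsmul, HS]
      · intro j σ σ' h
        have h1 := hinv j σ σ' h
        have hcomp : act W (ak τ) (act W (rs K σ') (H j)) = act W (rs K σ) (act W (ak τ) (H j)) := by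
          have h5 : (ak τ).comp (rs K σ') = (rs K σ).comp (ak τ) := AlgHom.ext fun x => h x
          rw [act_act, act_act, h5]
        -- `2 • c' j = c j - κ j`
        have h2 : ∀ ρ : Ω ≃ₐ[F] Ω, 2 • c' j ρ = c j ρ - (act W (rs K ρ) (H j) - H j) := by
          intro ρ
          show 2 • (c (j + 1) ρ - (act W (rs K ρ) (H (j + 1)) - H (j + 1))) = _
          rw [smul_sub, smul_sub, ← map_nsmul, HS, hc.two]
        show 2 ^ (m + 1) • (act W (ak τ) (c' j σ') - c' j σ) =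
          act W (rs K σ) (Q j - 2 ^ m • (act W (ak τ) (H j) - H j)) -
            (Q j - 2 ^ m • (act W (ak τ) (H j) - H j))
        have h3 : 2 ^ (m + 1) • (act W (ak τ) (c' j σ') - c' j σ) =
            2 ^ m • (act W (ak τ) (2 • c' j σ') - 2 • c' j σ) := by
          rw [pow_succ, mul_smul, smul_sub 2, map_nsmul]
        rw [h3, h2, h2, map_sub (act W (ak τ)), map_sub (act W (ak τ)), hcomp]
        have h4 : act W (ak τ) (c j σ') -
            (act W (rs K σ) (act W (ak τ) (H j)) - act W (ak τ) (H j)) -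
            (c j σ - (act W (rs K σ) (H j) - H j)) =
            (act W (ak τ) (c j σ') - c j σ) -
            (act W (rs K σ) (act W (ak τ) (H j) - H j) - (act W (ak τ) (H j) - H j)) := by
          rw [map_sub (act W (rs K σ))]; abel
        rw [h4, smul_sub, h1, map_sub (act W (rs K σ)) (Q j), map_nsmul (act W (rs K σ)), smul_sub]
        abel
    have hc'L : ∀ j, Lt (c' j) := fun j => hLt _ _ (hloc (j + 1))
    obtain ⟨P', R', hR', hcn⟩ := ih c' hc'T hc'I hc'L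
    refine ⟨P' + P' + P, R' + H (n + 1), ?_, fun σ => ?_⟩
    · rw [smul_add, Hpow, pow_succ', mul_smul, hR', two_nsmul, map_add, map_add]
    · have h1 := hcn σ
      have h2 : c (n + 1) σ - (act W (rs K σ) (H (n + 1)) - H (n + 1)) =
        act W (rs K σ) R' - R' := h1
      rw [sub_eq_iff_eq_add] at h2
      rw [h2, map_add]
      abel

end main

end Pool.Agent.TH115.GD
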