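import Pool.Agent.TH115.GD.Bnd

/-!
Points over `K` which are divisible by two over `F` are divisible by two over `K`.
-/

set_option autoImplicit false
set_option linter.all false

open Polynomial IsDedekindDomain WeierstrassCurve WeierstrassCurve.Affine
open scoped Classical

namespace Pool.Agent.TH115.GD

section core

variable {k k' K F : Type} [Field k] [Field k'] [Algebra k k'] [Field K] [Algebra k[X] K]
    [Field F] [Algebra k'[X] F] [IsFractionRing k'[X] F] [Algebra K F]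

variable (hT : IsTower k k' K F) (h2 : (2 : k) ≠ 0) {a b : k[X]} (ha : a ≠ 0) (hb : b ≠ 0)
  (hab : a ≠ b) (hco : IsCoprime a b)
  (hsep : ∀ π : k[X], Irreducible π → π ∣ a * b * (a - b) → π.Separable)
  (hodd : Odd (max a.natDegree b.natDegree) ∨ TwoOddFactors a b)

include hT h2 ha hb hab hco hsep hodd in
/-- The point of order two in the relation is zero. -/
theorem fixed_zero (τ : Sep F ≃ₐ[K] Sep F) {a0 a1 u0 u1 : F} (n0 : a0 ≠ 0) (n1 : a1 ≠ 0)
    (hu0 : u0 ≠ 0) (hu1 : u1 ≠ 0)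
    {T : Pt (crv (algebraMap k[X] K a) (algebraMap k[X] K b)) F} (hTT : T + T = 0)
    (e0 : τ (algebraMap F (Sep F) a0) = algebraMap F (Sep F)
      (u0 ^ 2 * (a0 * d0 (algebraMap K F (algebraMap k[X] K a))
        (algebraMap K F (algebraMap k[X] K b)) T)))
    (e1 : τ (algebraMap F (Sep F) a1) = algebraMap F (Sep F)
      (u1 ^ 2 * (a1 * d1 (algebraMap K F (algebraMap k[X] K a))
        (algebraMap K F (algebraMap k[X] K b)) T))) : T = 0 := by
  haveI := hT.sep
  haveI := hT.fracK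
  have hKF := hT.map
  have hprod : a * b * (a - b) ≠ 0 := mul_ne_zero (mul_ne_zero ha hb) (sub_ne_zero.2 hab)
  have hs : ((a * b * (a - b)).map (algebraMap k k')).Splits := splits_of_sep hprod hsep
  have ho : TwoOdd k k' a b := by
    rcases hodd with h | h
    · exact twoOdd_of_odd ha hb hab hs h
    · exact twoOdd_of_factors ha hb hab hsep h
  have hsub : a - b ≠ 0 := sub_ne_zero.2 hab
  have h2K : (2 : K) ≠ 0 := tt h2
  have inj := IsFractionRing.injective k[X] K
  have haK : algebraMap k[X] K a ≠ 0 := by simpa using ha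
  have hbK : algebraMap k[X] K b ≠ 0 := by simpa using hb
  have habK : algebraMap k[X] K a ≠ algebraMap k[X] K b := fun h => hab (inj h)
  have hE := isE (algebraMap k[X] K a) (algebraMap k[X] K b) F h2K haK hbK habK
  set αF := algebraMap K F (algebraMap k[X] K a) with hαF
  set βF := algebraMap K F (algebraMap k[X] K b) with hβF
  have hαβ : αF - βF = algebraMap K F (algebraMap k[X] K (a - b)) := by
    rw [map_sub, map_sub]
  have hβα : βF - αF = -algebraMap K F (algebraMap k[X] K (a - b)) := by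
    rw [← hαβ]; ring
  have nα : αF ≠ 0 := hE.nea
  have nβ : βF ≠ 0 := hE.neb
  have nαβ : αF - βF ≠ 0 := sub_ne_zero.2 hE.neab
  have nβα : βF - αF ≠ 0 := sub_ne_zero.2 (Ne.symm hE.neab)
  have par_neg : ∀ (v : HeightOneSpectrum k'[X]) (x : F), par v (-x) = par v x := by
    intro v x
    unfold par
    rw [Valuation.map_neg]
  have nb := fun θ : k' => not_both (a := a) (b := b) hco (pl θ)
  simp only [mem_pl] at nb
  obtain ⟨s, hτ⟩ := restr (Ω := Sep F) hKF τ
  have m0 : ∀ θ, par (pl (s θ)) (u0 ^ 2 * (a0 * d0 αF βF T)) = par (pl θ) a0 :=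
    fun θ => par_galois τ s hτ n0 e0 θ
  have m1 : ∀ θ, par (pl (s θ)) (u1 ^ 2 * (a1 * d1 αF βF T)) = par (pl θ) a1 :=
    fun θ => par_galois τ s hτ n1 e1 θ
  have nd0 : d0 αF βF T ≠ 0 := d0_ne hE T
  have nd1 : d1 αF βF T ≠ 0 := d1_ne hE T
  have m0' : ∀ θ, par (pl θ) a0 = par (pl (s θ)) a0 + par (pl (s θ)) (d0 αF βF T) := by
    intro θ
    rw [← m0, par_sq _ hu0 (mul_ne_zero n0 nd0), par_mul _ n0 nd0]
  have m1' : ∀ θ, par (pl θ) a1 = par (pl (s θ)) a1 + par (pl (s θ)) (d1 αF βF T) := by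
    intro θ
    rw [← m1, par_sq _ hu1 (mul_ne_zero n1 nd1), par_mul _ n1 nd1]
  have swapA : OddRoots k k' a → (d1 αF βF T = -αF ∨ d1 αF βF T = αF * (αF - βF)) → False := by
    rintro ⟨Z, hZ1, hZ2, hZ3⟩ hd
    refine no_swap Z hZ1 s (hZ2 s) (fun θ => par (pl θ) a1) fun θ hθ => ?_
    show par (pl θ) a1 = par (pl (s θ)) a1 + 1
    rw [m1' θ]
    congr 1
    have ho := hZ3 _ (hZ2 s θ hθ)
    rcases hd with hd | hd
    · rw [hd, par_neg, hαF, par_odd hKF ha ho]
    · rw [hd, par_mul _ nα nαβ, hαβ, hαF, par_odd hKF ha ho,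
        par_unit hKF hsub ((nb _).1 (isRoot_of_odd ho)).2, add_zero]
  have swapB : OddRoots k k' b → (d0 αF βF T = αF * βF ∨ d0 αF βF T = βF) → False := by
    rintro ⟨Z, hZ1, hZ2, hZ3⟩ hd
    refine no_swap Z hZ1 s (hZ2 s) (fun θ => par (pl θ) a0) fun θ hθ => ?_
    show par (pl θ) a0 = par (pl (s θ)) a0 + 1
    rw [m0' θ]
    congr 1
    have ho := hZ3 _ (hZ2 s θ hθ)
    rcases hd with hd | hd
    · rw [hd, par_mul _ nα nβ, hαF, hβF, par_odd hKF hb ho,
        par_unit hKF ha ((nb _).2.1 (isRoot_of_odd ho)).1, zero_add]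
    · rw [hd, hβF, par_odd hKF hb ho]
  have swapC : OddRoots k k' (a - b) →
      (d1 αF βF T = αF * (αF - βF) ∨ d1 αF βF T = βF - αF) → False := by
    rintro ⟨Z, hZ1, hZ2, hZ3⟩ hd
    refine no_swap Z hZ1 s (hZ2 s) (fun θ => par (pl θ) a1) fun θ hθ => ?_
    show par (pl θ) a1 = par (pl (s θ)) a1 + 1
    rw [m1' θ]
    congr 1
    have ho := hZ3 _ (hZ2 s θ hθ)
    rcases hd with hd | hd
    · rw [hd, par_mul _ nα nαβ, hαβ, hαF, par_odd hKF hsub ho,
        par_unit hKF ha ((nb _).2.2 (isRoot_of_odd ho)).1, zero_add]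
    · rw [hd, hβα, par_neg, par_odd hKF hsub ho]
  rcases tor_d hE hTT with h | ⟨h, h'⟩ | ⟨h, h'⟩ | ⟨h, h'⟩
  · exact h
  · exfalso
    rcases ho with ⟨o1, o2⟩ | ⟨o1, o2⟩ | ⟨o1, o2⟩
    · exact swapA o1 (Or.inl h')
    · exact swapA o1 (Or.inl h')
    · exact swapB o1 (Or.inl h)
  · exfalso
    rcases ho with ⟨o1, o2⟩ | ⟨o1, o2⟩ | ⟨o1, o2⟩
    · exact swapA o1 (Or.inr h')
    · exact swapA o1 (Or.inr h')
    · exact swapC o2 (Or.inl h')
  · exfalso
    rcases ho with ⟨o1, o2⟩ | ⟨o1, o2⟩ | ⟨o1, o2⟩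
    · exact swapB o2 (Or.inr h)
    · exact swapC o2 (Or.inr h')
    · exact swapB o1 (Or.inr h)

/-- A point over `F` whose coordinates are squares up to the representatives `d0`, `d1` is
divisible by two over `F`. -/
theorem half_F {K F : Type} [Field K] [Field F] [Algebra K F] {α β : K} (h2 : (2 : K) ≠ 0)
    (hα : α ≠ 0) (hβ : β ≠ 0) (hαβ : α ≠ β) (P : Pt (crv α β) F)
    (q0 : SqEq (d0 (algebraMap K F α) (algebraMap K F β) P) 1)
    (q1 : SqEq (d1 (algebraMap K F α) (algebraMap K F β) P) 1) :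
    ∃ R : Pt (crv α β) F, R + R = P := by
  have hL := isE α β (Sep F) h2 hα hβ hαβ
  obtain ⟨H, hH⟩ := halve_sep hL (act (crv α β) (incl K F (Sep F)) P)
  obtain ⟨c0, n0, e0⟩ := q0
  obtain ⟨c1, n1, e1⟩ := q1
  have ga : incl K F (Sep F) (algebraMap K F α) = algebraMap K (Sep F) α :=
    (IsScalarTower.algebraMap_apply K F (Sep F) α).symm
  have gb : incl K F (Sep F) (algebraMap K F β) = algebraMap K (Sep F) β :=
    (IsScalarTower.algebraMap_apply K F (Sep F) β).symm
  have hfix : ∀ σ : Sep F ≃ₐ[F] Sep F, act (crv α β) (rs K σ) (H + H) = H + H := fun σ => by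
    rw [hH]; exact rs_act_incl _ σ P
  have key := cob_of_rep (F := F) (Ω := Sep F) (crv α β) hL (f := fun _ => 0)
    (fun _ => add_zero 0) (t0 := 1) (t1 := 1) one_ne_zero one_ne_zero
    (fun σ => by rw [map_one]; simp [s0, Point.zero_def])
    (fun σ => by rw [map_one]; simp [s1, Point.zero_def]) hfix (c0 := c0⁻¹) (c1 := c1⁻¹)
    (by
      rw [hH, ← ga, ← gb, d0_act, e0]
      show (1 : Sep F) ^ 2 = algebraMap F (Sep F) c0⁻¹ ^ 2 * algebraMap F (Sep F) (c0 ^ 2 * 1)
      rw [← map_pow, ← map_mul]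
      have : (c0⁻¹ ^ 2 * (c0 ^ 2 * 1) : F) = 1 := by field_simp
      rw [this, map_one, one_pow])
    (by
      rw [hH, ← ga, ← gb, d1_act, e1]
      show (1 : Sep F) ^ 2 = algebraMap F (Sep F) c1⁻¹ ^ 2 * algebraMap F (Sep F) (c1 ^ 2 * 1)
      rw [← map_pow, ← map_mul]
      have : (c1⁻¹ ^ 2 * (c1 ^ 2 * 1) : F) = 1 := by field_simp
      rw [this, map_one, one_pow])
  obtain ⟨R, hR⟩ := fixed_point (K := K) (F := F) (crv α β) H
    (fun σ => (sub_eq_zero.1 (key σ).symm))
  refine ⟨R, act_inj (crv α β) (incl K F (Sep F)) ?_⟩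
  rw [map_add, hR, hH]

/-- Descent of halves from `F` to `K`. -/
theorem half_aux {K F : Type} [Field K] [Field F] [Algebra K F] {α β : K} (h2K : (2 : K) ≠ 0)
    (haK : α ≠ 0) (hbK : β ≠ 0) (habK : α ≠ β) [IsGalois K (Sep F)]
    (hz : ∀ (τ : Sep F ≃ₐ[K] Sep F) (a0 a1 u0 u1 : F) (T : Pt (crv α β) F), a0 ≠ 0 → a1 ≠ 0 →
      u0 ≠ 0 → u1 ≠ 0 → T + T = 0 →
      τ (algebraMap F (Sep F) a0) = algebraMap F (Sep F)
        (u0 ^ 2 * (a0 * d0 (algebraMap K F α) (algebraMap K F β) T)) →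
      τ (algebraMap F (Sep F) a1) = algebraMap F (Sep F)
        (u1 ^ 2 * (a1 * d1 (algebraMap K F α) (algebraMap K F β) T)) → T = 0)
    (P : Pt (crv α β) K)
    (q0 : SqEq (algebraMap K F (d0 α β P)) 1) (q1 : SqEq (algebraMap K F (d1 α β P)) 1) :
    ∃ Q : Pt (crv α β) K, Q + Q = P := by
  have d0F : d0 (algebraMap K F α) (algebraMap K F β) (act (crv α β) (incl K K F) P) =
      algebraMap K F (d0 α β P) := d0_act (crv α β) (incl K K F) α β P
  have d1F : d1 (algebraMap K F α) (algebraMap K F β) (act (crv α β) (incl K K F) P) =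
      algebraMap K F (d1 α β P) := d1_act (crv α β) (incl K K F) α β P
  obtain ⟨R, hR⟩ := half_F h2K haK hbK habK (act (crv α β) (incl K K F) P)
    (by rw [d0F]; exact q0) (by rw [d1F]; exact q1)
  have hE := isE α β F h2K haK hbK habK
  have hcomp : (incl K F (Sep F)).comp (incl K K F) = incl K K (Sep F) :=
    AlgHom.ext fun x => (IsScalarTower.algebraMap_apply K F (Sep F) x).symm
  -- the point is fixed
  have hfix : ∀ τ : Sep F ≃ₐ[K] Sep F,
      act (crv α β) (rs K τ) (act (crv α β) (incl K F (Sep F)) R) =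
        act (crv α β) (incl K F (Sep F)) R := by
    intro τ
    set R' := act (crv α β) (incl K F (Sep F)) R with hR'
    have hRR : R' + R' = act (crv α β) (incl K K (Sep F)) P := by
      rw [hR', ← map_add, hR, act_act, hcomp]
    have hfixP : act (crv α β) (rs K τ) (act (crv α β) (incl K K (Sep F)) P) =
        act (crv α β) (incl K K (Sep F)) P :=
      rs_act_incl (crv α β) τ P
    set T' := act (crv α β) (rs K τ) R' - R' with hT'
    have hTT' : T' + T' = 0 := by
      rw [hT', sub_add_sub_comm, ← map_add, hRR, hfixP, sub_self]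
    have hTfix : ∀ σ : Sep F ≃ₐ[F] Sep F, act (crv α β) (rs K σ) T' = T' := fun σ =>
      act_tor (crv α β) (isE α β (Sep F) h2K haK hbK habK) _ hTT'
    obtain ⟨T, hTF⟩ := fixed_point (K := K) (F := F) (crv α β) T' hTfix
    have hTT : T + T = 0 := by
      apply act_inj (crv α β) (incl K F (Sep F))
      rw [map_add, hTF, hTT', map_zero]
    have hτR : act (crv α β) (rs K τ) R' = act (crv α β) (incl K F (Sep F)) (R + T) := by
      rw [map_add, hTF, hT']; abel
    obtain ⟨u0, u1, m0, m1, f0, f1⟩ := d_add (K := K) (F := F) (Ω := Sep F) (crv α β)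
      (isE α β (Sep F) h2K haK hbK habK) R T
    have g0 := d0_act (crv α β) (rs K τ) (algebraMap K (Sep F) α) (algebraMap K (Sep F) β) R'
    have g1 := d1_act (crv α β) (rs K τ) (algebraMap K (Sep F) α) (algebraMap K (Sep F) β) R'
    have ga : incl K F (Sep F) (algebraMap K F α) = algebraMap K (Sep F) α :=
      (IsScalarTower.algebraMap_apply K F (Sep F) α).symm
    have gb : incl K F (Sep F) (algebraMap K F β) = algebraMap K (Sep F) β :=
      (IsScalarTower.algebraMap_apply K F (Sep F) β).symm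
    rw [(rs K τ).commutes, (rs K τ).commutes, hτR, ← ga, ← gb, d0_act, hR', d0_act] at g0
    rw [(rs K τ).commutes, (rs K τ).commutes, hτR, ← ga, ← gb, d1_act, hR', d1_act] at g1
    have hT0 : T = 0 := hz τ
      (d0 (algebraMap K F α) (algebraMap K F β) R)
      (d1 (algebraMap K F α) (algebraMap K F β) R) u0 u1 T (d0_ne hE R) (d1_ne hE R) m0 m1 hTT
      (by rw [← f0]; exact g0.symm) (by rw [← f1]; exact g1.symm)
    rw [hτR, hT0, add_zero]
  obtain ⟨Q, hQ⟩ := fixed_point (K := K) (F := K) (Ω := Sep F) (crv α β)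
    (act (crv α β) (incl K F (Sep F)) R) hfix
  refine ⟨Q, act_inj (crv α β) (incl K K (Sep F)) ?_⟩
  rw [map_add, hQ, ← map_add, hR, act_act, hcomp]

include hT h2 ha hb hab hco hsep hodd in
/-- Points over `K` with coordinates that are squares in `F` are divisible by two over `K`. -/
theorem half_K (P : Pt (crv (algebraMap k[X] K a) (algebraMap k[X] K b)) K)
    (q0 : SqEq (algebraMap K F (d0 (algebraMap k[X] K a) (algebraMap k[X] K b) P)) 1)
    (q1 : SqEq (algebraMap K F (d1 (algebraMap k[X] K a) (algebraMap k[X] K b) P)) 1) :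
    ∃ Q : Pt (crv (algebraMap k[X] K a) (algebraMap k[X] K b)) K, Q + Q = P := by
  haveI := hT.sep
  haveI := hT.fracK
  have hKF := hT.map
  have h2K : (2 : K) ≠ 0 := tt h2
  have inj := IsFractionRing.injective k[X] K
  have haK : algebraMap k[X] K a ≠ 0 := by simpa using ha
  have hbK : algebraMap k[X] K b ≠ 0 := by simpa using hb
  have habK : algebraMap k[X] K a ≠ algebraMap k[X] K b := fun h => hab (inj h)
  haveI : IsSepClosure K (Sep F) := sepKΩ hKF
  haveI : Algebra.IsSeparable K (Sep F) := IsSepClosure.separable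
  haveI : IsGalois K (Sep F) := inferInstance
  exact half_aux h2K haK hbK habK (fun τ a0 a1 u0 u1 T n0 n1 m0 m1 hTT e0 e1 =>
    fixed_zero hT h2 ha hb hab hco hsep hodd τ n0 n1 m0 m1 hTT e0 e1) P q0 q1

end core

end Pool.Agent.TH115.GD
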