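import Mathlib
import Pool.Agent.TH115.GD.Des

/-!
The Galois groups of `k' / k`, `k'(t) / k(t)` and of the separable closure of `k'(t)` over `k(t)`.
-/

set_option autoImplicit false
set_option linter.all false

open Polynomial

namespace Pool.Agent.TH115.GD

section ext

variable {k k' K F Ω : Type} [Field k] [Field k'] [Algebra k k'] [IsSepClosure k k']
  [Field K] [Algebra k[X] K] [IsFractionRing k[X] K] [Field F] [Algebra k'[X] F]
  [IsFractionRing k'[X] F] [Algebra K F]
  (hKF : ∀ p : k[X], algebraMap K F (algebraMap k[X] K p) =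
    algebraMap k'[X] F (p.map (algebraMap k k')))

/-- The inclusion of the constants. -/
noncomputable def cst (k' F : Type) [Field k'] [Field F] [Algebra k'[X] F] : k' →+* F :=
  (algebraMap k'[X] F).comp C

include hKF

theorem sep_cst (c : k') : IsSeparable K (cst k' F c) := by
  have h1 : IsSeparable k c := Algebra.IsSeparable.isSeparable k c
  let i : k →+* K := (algebraMap k[X] K).comp C
  have h2 : ((minpoly k c).map i).Separable := Polynomial.Separable.map (p := minpoly k c) h1
  refine Polynomial.Separable.of_dvd h2 ?_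
  apply minpoly.dvd
  rw [aeval_def, eval₂_map]
  have h3 : (algebraMap K F).comp i = (cst k' F).comp (algebraMap k k') := by
    ext x
    show algebraMap K F (algebraMap k[X] K (C x)) = algebraMap k'[X] F (C (algebraMap k k' x))
    rw [hKF, map_C]
  rw [h3, ← hom_eval₂, ← aeval_def, minpoly.aeval, map_zero]

theorem sepKF : Algebra.IsSeparable K F := by
  have hX : algebraMap K F (algebraMap k[X] K X) = algebraMap k'[X] F X := by
    rw [hKF, map_X]
  have hpoly : ∀ p : k'[X], algebraMap k'[X] F p ∈ separableClosure K F := by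
    intro p
    induction p using Polynomial.induction_on' with
    | add p q hp hq => rw [map_add]; exact add_mem hp hq
    | monomial n c =>
      rw [← C_mul_X_pow_eq_monomial, map_mul, map_pow]
      refine mul_mem ?_ (pow_mem ?_ n)
      · exact mem_separableClosure_iff.2 (sep_cst hKF c)
      · rw [← hX]
        exact (separableClosure K F).algebraMap_mem _
  refine ⟨fun x => ?_⟩
  obtain ⟨n, d, hd, rfl⟩ := IsFractionRing.div_surjective (A := k'[X]) x
  exact mem_separableClosure_iff.1 (div_mem (hpoly n) (hpoly d))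

variable [Field Ω] [Algebra F Ω] [Algebra K Ω] [IsScalarTower K F Ω] [IsSepClosure F Ω]

theorem sepKΩ : IsSepClosure K Ω := by
  haveI := sepKF hKF
  haveI : Algebra.IsSeparable F Ω := IsSepClosure.separable
  haveI : Algebra.IsSeparable K Ω := Algebra.IsSeparable.trans K F Ω
  exact ⟨IsSepClosure.sep_closed F, inferInstance⟩

/-- The restriction of an automorphism. -/
theorem restr (τ : Ω ≃ₐ[K] Ω) : ∃ s : k' ≃ₐ[k] k', ∀ p : k'[X],
    τ (algebraMap F Ω (algebraMap k'[X] F p)) =
      algebraMap F Ω (algebraMap k'[X] F (p.map (s : k' →+* k'))) := by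
  letI a1 : Algebra k' Ω := ((algebraMap F Ω).comp (cst k' F)).toAlgebra
  letI a2 : Algebra k Ω := (((algebraMap F Ω).comp (cst k' F)).comp (algebraMap k k')).toAlgebra
  haveI : IsScalarTower k k' Ω := IsScalarTower.of_algebraMap_eq fun x => rfl
  haveI : Normal k k' := inferInstance
  have hc : ∀ c : k, τ (algebraMap k Ω c) = algebraMap k Ω c := by
    intro c
    have h1 : algebraMap k Ω c = algebraMap K Ω (algebraMap k[X] K (C c)) := by
      rw [IsScalarTower.algebraMap_apply K F Ω, hKF, map_C]
      rfl
    rw [h1, τ.commutes]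
  let τ' : Ω ≃ₐ[k] Ω := AlgEquiv.ofRingEquiv (f := τ.toRingEquiv) hc
  let s := τ'.restrictNormal k'
  have hs : ∀ c : k', τ (algebraMap F Ω (cst k' F c)) = algebraMap F Ω (cst k' F (s c)) := by
    intro c
    have := τ'.restrictNormal_commutes k' c
    exact this.symm
  refine ⟨s, fun p => ?_⟩
  induction p using Polynomial.induction_on' with
  | add p q hp hq => rw [map_add, map_add, map_add, hp, hq, Polynomial.map_add, map_add, map_add]
  | monomial n c =>
    have hX : algebraMap F Ω (algebraMap k'[X] F X) = algebraMap K Ω (algebraMap k[X] K X) := by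
      rw [IsScalarTower.algebraMap_apply K F Ω, hKF, map_X]
    rw [← C_mul_X_pow_eq_monomial, map_mul, map_mul, map_mul, map_pow, map_pow, map_pow, hX,
      τ.commutes, Polynomial.map_mul, Polynomial.map_pow, map_X, map_C, map_mul, map_mul, map_pow,
      map_pow, hX]
    congr 1
    exact hs c

theorem preserves : Preserves K F Ω := by
  intro τ x
  obtain ⟨s, hs⟩ := restr hKF τ
  obtain ⟨n, d, hd, rfl⟩ := IsFractionRing.div_surjective (A := k'[X]) x
  refine ⟨algebraMap k'[X] F (n.map (s : k' →+* k')) /
    algebraMap k'[X] F (d.map (s : k' →+* k')), ?_⟩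
  rw [map_div₀, map_div₀, hs, hs, map_div₀]

/-- The extension of an automorphism of the constants. -/
theorem lift (s : k' ≃ₐ[k] k') : ∃ τ : Ω ≃ₐ[K] Ω, ∀ p : k'[X],
    τ (algebraMap F Ω (algebraMap k'[X] F p)) =
      algebraMap F Ω (algebraMap k'[X] F (p.map (s : k' →+* k'))) := by
  haveI := sepKΩ (Ω := Ω) hKF
  haveI : Normal K Ω := inferInstance
  let e : F ≃+* F := IsFractionRing.ringEquivOfRingEquiv (A := k'[X]) (B := k'[X])
    (Polynomial.mapEquiv (s : k' ≃+* k'))
  have he : ∀ p : k'[X], e (algebraMap k'[X] F p) =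
      algebraMap k'[X] F (p.map (s : k' →+* k')) := fun p =>
    IsFractionRing.ringEquivOfRingEquiv_algebraMap _ p
  have hfix : ∀ p : k[X], (p.map (algebraMap k k')).map (s : k' →+* k') =
      p.map (algebraMap k k') := by
    intro p
    rw [Polynomial.map_map]
    congr 1
    ext x
    exact s.commutes x
  let s' : F ≃ₐ[K] F := AlgEquiv.ofRingEquiv (f := e) (by
    intro x
    obtain ⟨n, d, hd, rfl⟩ := IsFractionRing.div_surjective (A := k[X]) x
    rw [map_div₀, map_div₀, hKF, hKF, he, he, hfix, hfix])
  refine ⟨s'.liftNormal Ω, fun p => ?_⟩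
  rw [AlgEquiv.liftNormal_commutes]
  congr 1
  exact he p

end ext

end Pool.Agent.TH115.GD
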