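import Pool.Agent.TH115.GD.Crit

/-!
Tools for the verification of the hypothesis `EnoughPoints`: equality modulo squares.
-/

set_option autoImplicit false
set_option linter.all false

open Polynomial IsDedekindDomain WeierstrassCurve WeierstrassCurve.Affine
open scoped Classical

namespace Pool.Agent.TH115.GD

section sq

variable {F : Type*} [Field F]

/-- Equality modulo squares. -/
def SqEq (x y : F) : Prop := ∃ c : F, c ≠ 0 ∧ x = c ^ 2 * y

theorem SqEq.refl (x : F) : SqEq x x := ⟨1, one_ne_zero, by ring⟩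

theorem SqEq.of_eq {x y : F} (h : x = y) : SqEq x y := h ▸ SqEq.refl x

theorem SqEq.symm {x y : F} (h : SqEq x y) : SqEq y x := by
  obtain ⟨c, hc, rfl⟩ := h
  exact ⟨c⁻¹, inv_ne_zero hc, by field_simp⟩

theorem SqEq.trans {x y z : F} (h : SqEq x y) (h' : SqEq y z) : SqEq x z := by
  obtain ⟨c, hc, rfl⟩ := h
  obtain ⟨d, hd, rfl⟩ := h'
  exact ⟨c * d, mul_ne_zero hc hd, by ring⟩

theorem SqEq.mul {x y x' y' : F} (h : SqEq x y) (h' : SqEq x' y') : SqEq (x * x') (y * y') := by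
  obtain ⟨c, hc, rfl⟩ := h
  obtain ⟨d, hd, rfl⟩ := h'
  exact ⟨c * d, mul_ne_zero hc hd, by ring⟩

theorem SqEq.pow {x y : F} (h : SqEq x y) (n : ℕ) : SqEq (x ^ n) (y ^ n) := by
  obtain ⟨c, hc, rfl⟩ := h
  exact ⟨c ^ n, pow_ne_zero n hc, by ring⟩

theorem sqEq_two {x : F} (hx : x ≠ 0) (n : ℕ) : SqEq (x ^ (2 * n)) 1 :=
  ⟨x ^ n, pow_ne_zero n hx, by ring⟩

theorem sqEq_pow {x : F} (hx : x ≠ 0) {m n : ℕ} (h : m % 2 = n % 2) : SqEq (x ^ m) (x ^ n) := by
  have key : ∀ m : ℕ, SqEq (x ^ m) (x ^ (m % 2)) := by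
    intro m
    conv_lhs => rw [← Nat.mod_add_div m 2]
    rw [pow_add]
    have h1 := (SqEq.refl (x ^ (m % 2))).mul (sqEq_two hx (m / 2))
    rwa [mul_one] at h1
  refine (key m).trans ?_
  rw [h]
  exact (key n).symm

theorem SqEq.prod {ι : Type*} (s : Finset ι) {f g : ι → F} (h : ∀ i ∈ s, SqEq (f i) (g i)) :
    SqEq (∏ i ∈ s, f i) (∏ i ∈ s, g i) := by
  induction s using Finset.induction_on with
  | empty => simpa using SqEq.refl (1 : F)
  | insert i s hi ih =>
    rw [Finset.prod_insert hi, Finset.prod_insert hi]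
    exact (h i (Finset.mem_insert_self i s)).mul (ih fun j hj => h j (Finset.mem_insert_of_mem hj))

end sq

section fam

variable {k k' K F : Type} [Field k] [Field k'] [Algebra k k'] [Field K] [Algebra k[X] K]
    [Field F] [Algebra k'[X] F] [IsFractionRing k'[X] F] [Algebra K F] (hT : IsTower k k' K F)
    (h2 : (2 : k) ≠ 0)

/-- The embedding of `k[X]` in `F`. -/
noncomputable def emb (k K F : Type) [Field k] [Field K] [Algebra k[X] K]
    [Field F] [Algebra K F] : k[X] →+* F := (algebraMap K F).comp (algebraMap k[X] K)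

include hT in
theorem emb_ne {p : k[X]} (hp : p ≠ 0) : emb k K F p ≠ 0 := by
  haveI := hT.fracK
  show algebraMap K F (algebraMap k[X] K p) ≠ 0
  simpa using hp

include hT h2 in
theorem emb_C {c : k} (hc : c ≠ 0) : SqEq (emb k K F (C c)) 1 := by
  haveI := hT.sep
  haveI : IsSepClosed k' := IsSepClosure.sep_closed k
  have h2' : (2 : k') ≠ 0 := by
    rw [← map_ofNat (algebraMap k k') 2]
    exact (_root_.map_ne_zero _).2 h2
  haveI : NeZero ((2 : ℕ) : k') := ⟨by exact_mod_cast h2'⟩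
  obtain ⟨r, hr⟩ := IsSepClosed.exists_pow_nat_eq (algebraMap k k' c) 2
  have hr0 : r ≠ 0 := by
    rintro rfl
    rw [zero_pow two_ne_zero] at hr
    exact hc ((_root_.map_eq_zero _).1 hr.symm)
  refine ⟨algebraMap k'[X] F (C r), by simpa using hr0, ?_⟩
  show algebraMap K F (algebraMap k[X] K (C c)) = _
  rw [hT.map, map_C, ← hr, C_pow, map_pow, mul_one]

include hT h2 in
theorem emb_C_mul {c : k} (hc : c ≠ 0) (p : k[X]) :
    SqEq (emb k K F (C c * p)) (emb k K F p) := by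
  rw [map_mul]
  have := (emb_C hT h2 hc).mul (SqEq.refl (emb k K F p))
  rwa [one_mul] at this

include hT h2 in
/-- `C c * p * s ^ 2` and `p` agree up to squares. -/
theorem emb_sq {c : k} (hc : c ≠ 0) {s : k[X]} (hs : s ≠ 0) (p : k[X]) :
    SqEq (emb k K F (C c * p * s ^ 2)) (emb k K F p) := by
  rw [map_mul, map_pow]
  have h1 : SqEq (emb k K F s ^ 2) 1 := by
    have := sqEq_two (emb_ne (k := k) (K := K) (F := F) hT hs) 1
    rwa [mul_one] at this
  have := (emb_C_mul (K := K) (F := F) hT h2 hc p).mul h1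
  rwa [mul_one] at this

variable {a b : k[X]}

include hT in
theorem d_add' (h2 : (2 : k) ≠ 0) (ha : a ≠ 0) (hb : b ≠ 0) (hab : a ≠ b)
    (P Q : Pt (crv (algebraMap k[X] K a) (algebraMap k[X] K b)) K) :
    SqEq (d0 (algebraMap k[X] K a) (algebraMap k[X] K b) (P + Q))
      (d0 (algebraMap k[X] K a) (algebraMap k[X] K b) P *
        d0 (algebraMap k[X] K a) (algebraMap k[X] K b) Q) ∧
    SqEq (d1 (algebraMap k[X] K a) (algebraMap k[X] K b) (P + Q))
      (d1 (algebraMap k[X] K a) (algebraMap k[X] K b) P *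
        d1 (algebraMap k[X] K a) (algebraMap k[X] K b) Q) := by
  haveI := hT.fracK
  have h2K : (2 : K) ≠ 0 := tt h2
  have inj := IsFractionRing.injective k[X] K
  have haK : algebraMap k[X] K a ≠ 0 := by simpa using ha
  have hbK : algebraMap k[X] K b ≠ 0 := by simpa using hb
  have habK : algebraMap k[X] K a ≠ algebraMap k[X] K b := fun h => hab (inj h)
  have hE := isE (algebraMap k[X] K a) (algebraMap k[X] K b) (Sep K) h2K haK hbK habK
  obtain ⟨u0, u1, n0, n1, e0, e1⟩ := d_add (K := K) (F := K) (Ω := Sep K)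
    (crv (algebraMap k[X] K a) (algebraMap k[X] K b)) hE P Q
  exact ⟨⟨u0, n0, e0⟩, ⟨u1, n1, e1⟩⟩

/-- The two coordinates of `P` are represented by `p` and `q`. -/
def RepP (a b : k[X]) (F : Type) [Field F] [Algebra K F]
    (P : Pt (crv (algebraMap k[X] K a) (algebraMap k[X] K b)) K) (p q : k[X]) : Prop :=
  SqEq (emb k K F p) (algebraMap K F (d0 (algebraMap k[X] K a) (algebraMap k[X] K b) P)) ∧
  SqEq (emb k K F q) (algebraMap K F (d1 (algebraMap k[X] K a) (algebraMap k[X] K b) P))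

theorem SqEq.map {K F : Type*} [Field K] [Field F] [Algebra K F] {x y : K} (h : SqEq x y) :
    SqEq (algebraMap K F x) (algebraMap K F y) := by
  obtain ⟨c, hc, rfl⟩ := h
  exact ⟨algebraMap K F c, (_root_.map_ne_zero _).2 hc, by rw [map_mul, map_pow]⟩

include hT in
theorem RepP.add (h2 : (2 : k) ≠ 0) (ha : a ≠ 0) (hb : b ≠ 0) (hab : a ≠ b)
    {P Q : Pt (crv (algebraMap k[X] K a) (algebraMap k[X] K b)) K} {p q p' q' : k[X]}
    (hP : RepP a b F P p q) (hQ : RepP a b F Q p' q') :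
    RepP a b F (P + Q) (p * p') (q * q') := by
  obtain ⟨e0, e1⟩ := d_add' hT h2 ha hb hab P Q
  constructor
  · rw [map_mul]
    refine (hP.1.mul hQ.1).trans ?_
    rw [← map_mul]
    exact e0.symm.map
  · rw [map_mul]
    refine (hP.2.mul hQ.2).trans ?_
    rw [← map_mul]
    exact e1.symm.map

theorem RepP.zero : RepP a b F (0 : Pt (crv (algebraMap k[X] K a) (algebraMap k[X] K b)) K)
    1 1 := by
  have z0 : d0 (algebraMap k[X] K a) (algebraMap k[X] K b)
      (0 : Pt (crv (algebraMap k[X] K a) (algebraMap k[X] K b)) K) = 1 := rfl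
  have z1 : d1 (algebraMap k[X] K a) (algebraMap k[X] K b)
      (0 : Pt (crv (algebraMap k[X] K a) (algebraMap k[X] K b)) K) = 1 := rfl
  constructor
  · rw [z0, map_one, map_one]; exact SqEq.refl _
  · rw [z1, map_one, map_one]; exact SqEq.refl _

include hT in
theorem RepP.smul (h2 : (2 : k) ≠ 0) (ha : a ≠ 0) (hb : b ≠ 0) (hab : a ≠ b)
    {P : Pt (crv (algebraMap k[X] K a) (algebraMap k[X] K b)) K} {p q : k[X]}
    (hP : RepP a b F P p q) (n : ℕ) : RepP a b F (n • P) (p ^ n) (q ^ n) := by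
  induction n with
  | zero => rw [zero_smul, pow_zero, pow_zero]; exact RepP.zero
  | succ n ih =>
    rw [succ_nsmul, pow_succ, pow_succ]
    exact RepP.add hT h2 ha hb hab ih hP

include hT in
theorem RepP.sum (h2 : (2 : k) ≠ 0) (ha : a ≠ 0) (hb : b ≠ 0) (hab : a ≠ b) {κ : Type}
    (s : Finset κ) {G : κ → Pt (crv (algebraMap k[X] K a) (algebraMap k[X] K b)) K}
    {p q : κ → k[X]} (hG : ∀ j ∈ s, RepP a b F (G j) (p j) (q j)) :
    RepP a b F (∑ j ∈ s, G j) (∏ j ∈ s, p j) (∏ j ∈ s, q j) := by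
  induction s using Finset.induction_on with
  | empty => simpa using RepP.zero
  | insert i s hi ih =>
    rw [Finset.sum_insert hi, Finset.prod_insert hi, Finset.prod_insert hi]
    exact RepP.add hT h2 ha hb hab (hG i (Finset.mem_insert_self i s))
      (ih fun j hj => hG j (Finset.mem_insert_of_mem hj))

/-- Products of powers of polynomials, modulo squares. -/
theorem sqEq_exp {ι : Type} [Fintype ι] {p : ι → k[X]} (hT : IsTower k k' K F)
    (hp : ∀ i, p i ≠ 0) {m n : ι → ℕ} (h : ∀ i, m i % 2 = n i % 2) :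
    SqEq (emb k K F (∏ i, p i ^ m i)) (emb k K F (∏ i, p i ^ n i)) := by
  rw [map_prod, map_prod]
  refine SqEq.prod _ fun i _ => ?_
  rw [map_pow, map_pow]
  exact sqEq_pow (emb_ne hT (hp i)) (h i)

include hT in
/-- Points with given coordinates modulo squares, from generators. -/
theorem RepP.gen (h2 : (2 : k) ≠ 0) (ha : a ≠ 0) (hb : b ≠ 0) (hab : a ≠ b) {ι κ : Type}
    [Fintype ι] [Fintype κ] {p : ι → k[X]} (hp : ∀ i, p i ≠ 0)
    {G : κ → Pt (crv (algebraMap k[X] K a) (algebraMap k[X] K b)) K} {M0 M1 : κ → ι → ℕ}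
    (hG : ∀ j, RepP a b F (G j) (∏ i, p i ^ M0 j i) (∏ i, p i ^ M1 j i)) {m n : ι → ℕ}
    (e : κ → ℕ) (hm : ∀ i, m i % 2 = (∑ j, e j * M0 j i) % 2)
    (hn : ∀ i, n i % 2 = (∑ j, e j * M1 j i) % 2) :
    RepP a b F (∑ j, e j • G j) (∏ i, p i ^ m i) (∏ i, p i ^ n i) := by
  have key := RepP.sum hT h2 ha hb hab Finset.univ (G := fun j => e j • G j)
    (p := fun j => (∏ i, p i ^ M0 j i) ^ e j) (q := fun j => (∏ i, p i ^ M1 j i) ^ e j)
    (fun j _ => RepP.smul hT h2 ha hb hab (hG j) (e j))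
  have swap : ∀ M : κ → ι → ℕ, ∏ j, (∏ i, p i ^ M j i) ^ e j = ∏ i, p i ^ (∑ j, e j * M j i) := by
    intro M
    have h1 : ∀ j, (∏ i, p i ^ M j i) ^ e j = ∏ i, p i ^ (e j * M j i) := by
      intro j
      rw [← Finset.prod_pow]
      exact Finset.prod_congr rfl fun i _ => by rw [← pow_mul, mul_comm]
    simp_rw [h1]
    rw [Finset.prod_comm]
    exact Finset.prod_congr rfl fun i _ => by rw [Finset.prod_pow_eq_pow_sum]
  rw [swap M0, swap M1] at key
  exact ⟨(sqEq_exp hT hp hm).trans key.1, (sqEq_exp hT hp hn).trans key.2⟩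

end fam

section dvd

variable {k : Type} [Field k]

theorem dvd_C {A : k[X]} {u : k} (hu : u ≠ 0) (h : A ∣ C u) : ∃ c : k, c ≠ 0 ∧ A = C c := by
  have h1 : IsUnit A := isUnit_of_dvd_unit h (isUnit_C.2 (isUnit_iff_ne_zero.2 hu))
  obtain ⟨c, hc, rfl⟩ := Polynomial.isUnit_iff.1 h1
  exact ⟨c, hc.ne_zero, rfl⟩

theorem dvd_irr {A p : k[X]} (hp : Irreducible p) (h : A ∣ p) :
    ∃ (c : k) (x : Fin 2), c ≠ 0 ∧ A = C c * p ^ (x : ℕ) := by
  rcases hp.dvd_iff.1 h with h1 | h1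
  · obtain ⟨c, hc, rfl⟩ := Polynomial.isUnit_iff.1 h1
    exact ⟨c, 0, hc.ne_zero, by simp⟩
  · obtain ⟨u, hu⟩ := h1.symm
    obtain ⟨c, hc, hcu⟩ := Polynomial.isUnit_iff.1 u.isUnit
    refine ⟨c⁻¹, 1, inv_ne_zero hc.ne_zero, ?_⟩
    rw [← hu, ← hcu]
    have : C c⁻¹ * C c = (1 : k[X]) := by rw [← C_mul, inv_mul_cancel₀ hc.ne_zero, C_1]
    simp only [Fin.val_one, pow_one]
    linear_combination -A * this

theorem dvd_unit_mul {A p : k[X]} {u : k} (hu : u ≠ 0) (h : A ∣ C u * p) : A ∣ p := by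
  have h1 : IsUnit (C u : k[X]) := isUnit_C.2 (isUnit_iff_ne_zero.2 hu)
  exact (h1.dvd_mul_left).1 h

theorem dvd_irr' {A p : k[X]} (hp : Irreducible p) {u : k} (hu : u ≠ 0) (h : A ∣ C u * p) :
    ∃ (c : k) (x : Fin 2), c ≠ 0 ∧ A = C c * p ^ (x : ℕ) :=
  dvd_irr hp (dvd_unit_mul hu h)

theorem dvd_irr2 {A p q : k[X]} (hp : Irreducible p) (hq : Irreducible q) {u : k} (hu : u ≠ 0)
    (h : A ∣ C u * (p * q)) :
    ∃ (c : k) (x y : Fin 2), c ≠ 0 ∧ A = C c * (p ^ (x : ℕ) * q ^ (y : ℕ)) := by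
  obtain ⟨A1, A2, h1, h3, rfl⟩ := exists_dvd_and_dvd_of_dvd_mul (dvd_unit_mul hu h)
  obtain ⟨c, x, hc, rfl⟩ := dvd_irr hp h1
  obtain ⟨d, y, hd, rfl⟩ := dvd_irr hq h3
  exact ⟨c * d, x, y, mul_ne_zero hc hd, by rw [C_mul]; ring⟩

end dvd

end Pool.Agent.TH115.GD
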