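import Pool.Agent.TH115.GD.Place

/-!
The global step over `k'(t)`: pairs that are locally soluble and fixed by the Galois group.
-/

set_option autoImplicit false
set_option linter.all false

open Polynomial IsDedekindDomain WeierstrassCurve WeierstrassCurve.Affine
open scoped Classical

namespace Pool.Agent.TH115.GD

theorem isE {K : Type} [Field K] (a b : K) (F : Type) [Field F] [Algebra K F]
    (h2 : (2 : K) ≠ 0) (ha : a ≠ 0) (hb : b ≠ 0) (hab : a ≠ b) :
    IsE ((crv a b).baseChange F).toAffine (algebraMap K F a) (algebraMap K F b) where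
  a1 := map_zero _
  a2 := by
    show algebraMap K F (-(a + b)) = _
    rw [map_neg, map_add]
  a3 := map_zero _
  a4 := by
    show algebraMap K F (a * b) = _
    rw [map_mul]
  a6 := map_zero _
  two := by
    rw [← map_ofNat (algebraMap K F) 2]
    exact (_root_.map_ne_zero _).2 h2
  nea := (_root_.map_ne_zero _).2 ha
  neb := (_root_.map_ne_zero _).2 hb
  neab := fun h => hab ((algebraMap K F).injective h)

/-- The coordinates of the points of order two. -/
theorem tor_d {F : Type} [Field F] {W : Affine F} {a b : F} (h : IsE W a b) {T : W.Point}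
    (hT : T + T = 0) : T = 0 ∨ (d0 a b T = a * b ∧ d1 a b T = -a) ∨
      (d0 a b T = a ∧ d1 a b T = a * (a - b)) ∨ (d0 a b T = b ∧ d1 a b T = b - a) := by
  rcases tor_cases h hT with ⟨h1, -⟩ | ⟨hn, h1, -⟩ | ⟨hn, h1, -⟩ | ⟨hn, h1, -⟩
  · exact Or.inl h1
  · right; left
    rw [h1]
    simp [d0, d1, Ne.symm h.nea]
  · right; right; left
    rw [h1]
    simp [d0, d1, h.nea]
  · right; right; right
    rw [h1]
    simp [d0, d1, h.neb, Ne.symm h.neab]

section

variable {k k' K F Ω : Type} [Field k] [Field k'] [Algebra k k'] [IsSepClosure k k']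
  [Field K] [Algebra k[X] K] [IsFractionRing k[X] K] [Field F] [Algebra k'[X] F]
  [IsFractionRing k'[X] F] [Algebra K F]
  (hKF : ∀ p : k[X], algebraMap K F (algebraMap k[X] K p) =
    algebraMap k'[X] F (p.map (algebraMap k k')))

/-- A finite set of roots of `p` of odd multiplicity, of odd order, stable under the Galois group. -/
def OddRoots (k k' : Type) [Field k] [Field k'] [Algebra k k'] (p : k[X]) : Prop :=
  ∃ Z : Finset k', Odd Z.card ∧ (∀ s : k' ≃ₐ[k] k', ∀ θ ∈ Z, s θ ∈ Z) ∧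
    ∀ θ ∈ Z, Odd (rootMultiplicity θ (p.map (algebraMap k k')))

theorem rootMult_galois (s : k' ≃ₐ[k] k') (p : k[X]) (θ : k') :
    rootMultiplicity (s θ) (p.map (algebraMap k k')) =
      rootMultiplicity θ (p.map (algebraMap k k')) := by
  have hinj : Function.Injective (s : k' →+* k') := s.injective
  rw [eq_rootMultiplicity_map hinj θ, Polynomial.map_map]
  congr 2
  ext x
  exact (s.commutes x).symm

theorem oddRoots_of_natDegree {p : k[X]} (hp : Odd p.natDegree)
    (hs : (p.map (algebraMap k k')).Splits) : OddRoots k k' p := by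
  set q := p.map (algebraMap k k') with hq
  refine ⟨q.roots.toFinset.filter (fun θ => Odd (rootMultiplicity θ q)), ?_, ?_, ?_⟩
  · have h1 : q.natDegree = ∑ θ ∈ q.roots.toFinset, rootMultiplicity θ q := by
      rw [hs.natDegree_eq_card_roots, ← Multiset.toFinset_sum_count_eq]
      exact Finset.sum_congr rfl fun θ _ => count_roots q
    have h2 : ((q.natDegree : ℕ) : ZMod 2) =
        ((q.roots.toFinset.filter (fun θ => Odd (rootMultiplicity θ q))).card : ℕ) := by
      rw [h1, Nat.cast_sum, Finset.card_filter, Nat.cast_sum]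
      refine Finset.sum_congr rfl fun θ _ => ?_
      split_ifs with h
      · rw [(ZMod.natCast_eq_one_iff_odd).2 h, Nat.cast_one]
      · rw [Nat.not_odd_iff_even] at h
        rw [(ZMod.natCast_eq_zero_iff_even).2 h, Nat.cast_zero]
    rw [hq, natDegree_map, ← hq] at h2
    rw [← ZMod.natCast_eq_one_iff_odd, ← h2, ZMod.natCast_eq_one_iff_odd]
    exact hp
  · intro s θ hθ
    rw [Finset.mem_filter] at hθ ⊢
    rw [rootMult_galois s p θ]
    refine ⟨?_, hθ.2⟩
    have h0 : q ≠ 0 := by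
      rintro h0
      rw [h0] at hθ
      simp at hθ
    rw [Multiset.mem_toFinset, ← Multiset.count_ne_zero, count_roots, rootMult_galois s p θ]
    exact hθ.2.pos.ne'
  · intro θ hθ
    exact (Finset.mem_filter.1 hθ).2

variable (a b : k[X])

/-- The conditions on the valuations at the finite places. -/
structure LocPar (a b : k[X]) (a0 a1 : F) : Prop where
  c0 : ∀ v : HeightOneSpectrum k'[X], a.map (algebraMap k k') ∉ v.asIdeal →
    b.map (algebraMap k k') ∉ v.asIdeal → par v a0 = 0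
  c1 : ∀ v : HeightOneSpectrum k'[X], a.map (algebraMap k k') ∉ v.asIdeal →
    (a - b).map (algebraMap k k') ∉ v.asIdeal → par v a1 = 0
  cA : ∀ v : HeightOneSpectrum k'[X], b.map (algebraMap k k') ∉ v.asIdeal →
    (a - b).map (algebraMap k k') ∉ v.asIdeal → par v a0 + par v a1 = 0

variable [Field Ω] [Algebra F Ω] [Algebra K Ω] [IsScalarTower K F Ω] [IsSepClosure F Ω]

/-- Two of the three polynomials have odd roots. -/
def TwoOdd (k k' : Type) [Field k] [Field k'] [Algebra k k'] (a b : k[X]) : Prop :=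
  (OddRoots k k' a ∧ OddRoots k k' b) ∨ (OddRoots k k' a ∧ OddRoots k k' (a - b)) ∨
    (OddRoots k k' b ∧ OddRoots k k' (a - b))

section core

variable {a b} (h2 : (2 : k) ≠ 0) (ha : a ≠ 0) (hb : b ≠ 0) (hab : a ≠ b) (hco : IsCoprime a b)
  (hsplit : ((a * b * (a - b)).map (algebraMap k k')).Splits)

include hco in
/-- The three polynomials are pairwise coprime. -/
theorem not_both (v : HeightOneSpectrum k'[X]) :
    (a.map (algebraMap k k') ∈ v.asIdeal → b.map (algebraMap k k') ∉ v.asIdeal ∧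
      (a - b).map (algebraMap k k') ∉ v.asIdeal) ∧
    (b.map (algebraMap k k') ∈ v.asIdeal → a.map (algebraMap k k') ∉ v.asIdeal ∧
      (a - b).map (algebraMap k k') ∉ v.asIdeal) ∧
    ((a - b).map (algebraMap k k') ∈ v.asIdeal → a.map (algebraMap k k') ∉ v.asIdeal ∧
      b.map (algebraMap k k') ∉ v.asIdeal) := by
  obtain ⟨u, w, huw⟩ := hco
  have h1 : u.map (algebraMap k k') * a.map (algebraMap k k') +
      w.map (algebraMap k k') * b.map (algebraMap k k') = 1 := by
    rw [← Polynomial.map_mul, ← Polynomial.map_mul, ← Polynomial.map_add, huw, Polynomial.map_one]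
  have key : ¬ (a.map (algebraMap k k') ∈ v.asIdeal ∧ b.map (algebraMap k k') ∈ v.asIdeal) := by
    rintro ⟨e1, e2⟩
    apply v.isPrime.ne_top
    rw [Ideal.eq_top_iff_one, ← h1]
    exact add_mem (Ideal.mul_mem_left _ _ e1) (Ideal.mul_mem_left _ _ e2)
  have hs : (a - b).map (algebraMap k k') = a.map (algebraMap k k') - b.map (algebraMap k k') :=
    Polynomial.map_sub _
  rw [hs]
  refine ⟨fun e => ⟨fun e' => key ⟨e, e'⟩, fun e' => key ⟨e, ?_⟩⟩,
    fun e => ⟨fun e' => key ⟨e', e⟩, fun e' => key ⟨?_, e⟩⟩, fun e => ⟨fun e' => key ⟨e', ?_⟩,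
    fun e' => key ⟨?_, e'⟩⟩⟩
  · have := sub_mem e e'
    rwa [sub_sub_cancel] at this
  · have := add_mem e' e
    rwa [sub_add_cancel] at this
  · have := sub_mem e' e
    rwa [sub_sub_cancel] at this
  · have := add_mem e e'
    rwa [sub_add_cancel] at this

theorem mem_pl {θ : k'} {p : k'[X]} : p ∈ (pl θ).asIdeal ↔ p.IsRoot θ := by
  show p ∈ Ideal.span {X - C θ} ↔ _
  rw [Ideal.mem_span_singleton, dvd_iff_isRoot]

theorem exists_root_of_mem {p : k'[X]} (hp : p ≠ 0) (hs : p.Splits) {v : HeightOneSpectrum k'[X]}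
    (hv : p ∈ v.asIdeal) : ∃ θ ∈ p.roots, v = pl θ := by
  rw [hs.eq_prod_roots] at hv
  rcases v.isPrime.mem_or_mem hv with h1 | h1
  · exfalso
    apply v.isPrime.ne_top
    apply Ideal.eq_top_of_isUnit_mem _ h1
    exact isUnit_C.2 (isUnit_iff_ne_zero.2 (leadingCoeff_ne_zero.2 hp))
  · rw [Ideal.IsPrime.multiset_prod_mem_iff_exists_mem v.isPrime] at h1
    obtain ⟨x, hx, hxv⟩ := h1
    obtain ⟨θ, hθ, rfl⟩ := Multiset.mem_map.1 hx
    refine ⟨θ, hθ, ?_⟩
    apply HeightOneSpectrum.ext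
    have hle : (pl θ).asIdeal ≤ v.asIdeal := by
      show Ideal.span {X - C θ} ≤ v.asIdeal
      rw [Ideal.span_singleton_le_iff_mem]; exact hxv
    exact ((pl θ).isMaximal.eq_of_le v.isPrime.ne_top hle).symm

omit [IsSepClosure F Ω] [IsScalarTower K F Ω] [Algebra K F] [IsFractionRing k[X] K]
  [Algebra k[X] K] in
theorem d0_ne' {W : Affine F} {A B : F} (h : IsE W A B) (T : W.Point) : d0 A B T ≠ 0 := d0_ne h T

include hKF in
theorem par_root (p : k[X]) (hp : p ≠ 0) (θ : k') :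
    par (pl θ) (algebraMap K F (algebraMap k[X] K p)) =
      (rootMultiplicity θ (p.map (algebraMap k k')) : ZMod 2) := by
  rw [hKF, par_poly]
  exact (Polynomial.map_ne_zero_iff (algebraMap k k').injective).2 hp

include hKF in
theorem par_odd {p : k[X]} (hp : p ≠ 0) {θ : k'}
    (h : Odd (rootMultiplicity θ (p.map (algebraMap k k')))) :
    par (pl θ) (algebraMap K F (algebraMap k[X] K p)) = 1 := by
  rw [par_root hKF p hp, ZMod.natCast_eq_one_iff_odd]
  exact h

theorem isRoot_of_odd {p : k'[X]} {θ : k'} (h : Odd (rootMultiplicity θ p)) : p.IsRoot θ := by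
  by_contra hn
  rw [rootMultiplicity_eq_zero hn] at h
  exact absurd h (by decide)

include hKF in
/-- A root of `q` is not a root of `p`. -/
theorem par_unit {p : k[X]} (hp : p ≠ 0) {θ : k'}
    (h : ¬ (p.map (algebraMap k k')).IsRoot θ) :
    par (pl θ) (algebraMap K F (algebraMap k[X] K p)) = 0 := by
  rw [par_root hKF p hp, rootMultiplicity_eq_zero h, Nat.cast_zero]

include hKF h2 ha hb hab hco hsplit in
/-- The global step. -/
theorem global_core (hodd : TwoOdd k k' a b) {a0 a1 : F} (n0 : a0 ≠ 0) (n1 : a1 ≠ 0)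
    (hloc : LocPar (k' := k') a b a0 a1)
    (hfix : FixedMod (crv (algebraMap k[X] K a) (algebraMap k[X] K b)) (algebraMap k[X] K a)
      (algebraMap k[X] K b) Ω a0 a1) :
    ∃ A B D : k[X], A.Monic ∧ B.Monic ∧ D.Monic ∧ Squarefree A ∧ Squarefree B ∧ Squarefree D ∧
      A ∣ a ∧ B ∣ b ∧ D ∣ a - b ∧ ∃ c0 c1 : F, c0 ≠ 0 ∧ c1 ≠ 0 ∧
        a0 = c0 ^ 2 * algebraMap K F (algebraMap k[X] K (A * B)) ∧
        a1 = c1 ^ 2 * algebraMap K F (algebraMap k[X] K (A * D)) := by
  haveI : IsSepClosed k' := IsSepClosure.sep_closed k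
  haveI : IsGalois k k' := inferInstance
  have hsub : a - b ≠ 0 := sub_ne_zero.2 hab
  have h2K : (2 : K) ≠ 0 := by
    have h3 : algebraMap k[X] K (C (2 : k)) ≠ 0 := by
      rw [Ne, map_eq_zero_iff _ (IsFractionRing.injective k[X] K), C_eq_zero]
      exact h2
    rwa [map_ofNat, map_ofNat] at h3
  have h2' : (2 : k') ≠ 0 := by
    rw [← map_ofNat (algebraMap k k') 2]
    exact (_root_.map_ne_zero _).2 h2
  have inj := IsFractionRing.injective k[X] K
  have haK : algebraMap k[X] K a ≠ 0 := by simpa using ha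
  have hbK : algebraMap k[X] K b ≠ 0 := by simpa using hb
  have habK : algebraMap k[X] K a ≠ algebraMap k[X] K b := fun h => hab (inj h)
  have hE := isE (algebraMap k[X] K a) (algebraMap k[X] K b) F h2K haK hbK habK
  set αF := algebraMap K F (algebraMap k[X] K a) with hαF
  set βF := algebraMap K F (algebraMap k[X] K b) with hβF
  have hαβ : αF - βF = algebraMap K F (algebraMap k[X] K (a - b)) := by
    rw [map_sub, map_sub]
  have hβα : βF - αF = -algebraMap K F (algebraMap k[X] K (a - b)) := by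
    rw [← hαβ]; ring
  have nα : αF ≠ 0 := hE.nea
  have nβ : βF ≠ 0 := hE.neb
  have nαβ : αF - βF ≠ 0 := sub_ne_zero.2 hE.neab
  have nβα : βF - αF ≠ 0 := sub_ne_zero.2 (Ne.symm hE.neab)
  have par_neg : ∀ (v : HeightOneSpectrum k'[X]) (x : F), par v (-x) = par v x := by
    intro v x
    unfold par
    rw [Valuation.map_neg]
  -- the roots are roots of one of the three polynomials only
  have nb := fun θ : k' => not_both (a := a) (b := b) hco (pl θ)
  simp only [mem_pl] at nb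
  -- the sign of the Galois action
  have key : ∀ s : k' ≃ₐ[k] k', (∀ θ, par (pl (s θ)) a0 = par (pl θ) a0) ∧
      ∀ θ, par (pl (s θ)) a1 = par (pl θ) a1 := by
    intro s
    obtain ⟨τ, hτ⟩ := lift (Ω := Ω) hKF s
    obtain ⟨T, u0, u1, hT, hu0, hu1, e0, e1⟩ := hfix τ
    have m0 : ∀ θ, par (pl (s θ)) (u0 ^ 2 * (a0 * d0 αF βF T)) = par (pl θ) a0 :=
      fun θ => par_galois τ s hτ n0 e0 θ
    have m1 : ∀ θ, par (pl (s θ)) (u1 ^ 2 * (a1 * d1 αF βF T)) = par (pl θ) a1 :=
      fun θ => par_galois τ s hτ n1 e1 θ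
    have nd0 : d0 αF βF T ≠ 0 := d0_ne hE T
    have nd1 : d1 αF βF T ≠ 0 := d1_ne hE T
    have m0' : ∀ θ, par (pl θ) a0 = par (pl (s θ)) a0 + par (pl (s θ)) (d0 αF βF T) := by
      intro θ
      rw [← m0, par_sq _ hu0 (mul_ne_zero n0 nd0), par_mul _ n0 nd0]
    have m1' : ∀ θ, par (pl θ) a1 = par (pl (s θ)) a1 + par (pl (s θ)) (d1 αF βF T) := by
      intro θ
      rw [← m1, par_sq _ hu1 (mul_ne_zero n1 nd1), par_mul _ n1 nd1]
    -- `T = 0`
    have swapA : OddRoots k k' a → (d1 αF βF T = -αF ∨ d1 αF βF T = αF * (αF - βF)) → False := by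
      rintro ⟨Z, hZ1, hZ2, hZ3⟩ hd
      refine no_swap Z hZ1 s (hZ2 s) (fun θ => par (pl θ) a1) fun θ hθ => ?_
      show par (pl θ) a1 = par (pl (s θ)) a1 + 1
      rw [m1' θ]
      congr 1
      have ho := hZ3 _ (hZ2 s θ hθ)
      rcases hd with hd | hd
      · rw [hd, par_neg, hαF, par_odd hKF ha ho]
      · rw [hd, par_mul _ nα nαβ, hαβ, hαF, par_odd hKF ha ho,
          par_unit hKF hsub ((nb _).1 (isRoot_of_odd ho)).2, add_zero]
    have swapB : OddRoots k k' b → (d0 αF βF T = αF * βF ∨ d0 αF βF T = βF) → False := by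
      rintro ⟨Z, hZ1, hZ2, hZ3⟩ hd
      refine no_swap Z hZ1 s (hZ2 s) (fun θ => par (pl θ) a0) fun θ hθ => ?_
      show par (pl θ) a0 = par (pl (s θ)) a0 + 1
      rw [m0' θ]
      congr 1
      have ho := hZ3 _ (hZ2 s θ hθ)
      rcases hd with hd | hd
      · rw [hd, par_mul _ nα nβ, hαF, hβF, par_odd hKF hb ho,
          par_unit hKF ha ((nb _).2.1 (isRoot_of_odd ho)).1, zero_add]
      · rw [hd, hβF, par_odd hKF hb ho]
    have swapC : OddRoots k k' (a - b) →
        (d1 αF βF T = αF * (αF - βF) ∨ d1 αF βF T = βF - αF) → False := by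
      rintro ⟨Z, hZ1, hZ2, hZ3⟩ hd
      refine no_swap Z hZ1 s (hZ2 s) (fun θ => par (pl θ) a1) fun θ hθ => ?_
      show par (pl θ) a1 = par (pl (s θ)) a1 + 1
      rw [m1' θ]
      congr 1
      have ho := hZ3 _ (hZ2 s θ hθ)
      rcases hd with hd | hd
      · rw [hd, par_mul _ nα nαβ, hαβ, hαF, par_odd hKF hsub ho,
          par_unit hKF ha ((nb _).2.2 (isRoot_of_odd ho)).1, zero_add]
      · rw [hd, hβα, par_neg, par_odd hKF hsub ho]
    have hT0 : T = 0 := by
      rcases tor_d hE hT with h | ⟨h, h'⟩ | ⟨h, h'⟩ | ⟨h, h'⟩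
      · exact h
      · exfalso
        rcases hodd with ⟨o1, o2⟩ | ⟨o1, o2⟩ | ⟨o1, o2⟩
        · exact swapA o1 (Or.inl h')
        · exact swapA o1 (Or.inl h')
        · exact swapB o1 (Or.inl h)
      · exfalso
        rcases hodd with ⟨o1, o2⟩ | ⟨o1, o2⟩ | ⟨o1, o2⟩
        · exact swapA o1 (Or.inr h')
        · exact swapA o1 (Or.inr h')
        · exact swapC o2 (Or.inl h')
      · exfalso
        rcases hodd with ⟨o1, o2⟩ | ⟨o1, o2⟩ | ⟨o1, o2⟩
        · exact swapB o2 (Or.inr h)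
        · exact swapC o2 (Or.inr h')
        · exact swapB o1 (Or.inr h)
    rw [hT0] at m0' m1'
    have z0 : d0 αF βF (0 : ((crv (algebraMap k[X] K a) (algebraMap k[X] K b)).baseChange
      F).toAffine.Point) = 1 := rfl
    have z1 : d1 αF βF (0 : ((crv (algebraMap k[X] K a) (algebraMap k[X] K b)).baseChange
      F).toAffine.Point) = 1 := rfl
    exact ⟨fun θ => by rw [m0' θ, z0, par_one, add_zero],
      fun θ => by rw [m1' θ, z1, par_one, add_zero]⟩
  -- the sets of roots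
  set aa := a.map (algebraMap k k') with haa
  set bb := b.map (algebraMap k k') with hbb
  set cc := (a - b).map (algebraMap k k') with hcc
  have injk := (algebraMap k k').injective
  have naa : aa ≠ 0 := (Polynomial.map_ne_zero_iff injk).2 ha
  have nbb : bb ≠ 0 := (Polynomial.map_ne_zero_iff injk).2 hb
  have ncc : cc ≠ 0 := (Polynomial.map_ne_zero_iff injk).2 hsub
  have hprod : (a * b * (a - b)).map (algebraMap k k') = aa * bb * cc := by
    rw [Polynomial.map_mul, Polynomial.map_mul]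
  rw [hprod] at hsplit
  set Z : Finset k' := (aa * bb * cc).roots.toFinset with hZ
  have nprod : aa * bb * cc ≠ 0 := mul_ne_zero (mul_ne_zero naa nbb) ncc
  have hZmem : ∀ θ, θ ∈ Z ↔ aa.IsRoot θ ∨ bb.IsRoot θ ∨ cc.IsRoot θ := by
    intro θ
    rw [hZ, Multiset.mem_toFinset, mem_roots nprod, IsRoot.def, eval_mul, eval_mul, mul_eq_zero,
      mul_eq_zero, or_assoc]
    rfl
  have hout : ∀ v : HeightOneSpectrum k'[X], (∀ θ ∈ Z, v ≠ pl θ) →
      aa ∉ v.asIdeal ∧ bb ∉ v.asIdeal ∧ cc ∉ v.asIdeal := by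
    intro v hv
    have h3 : aa * bb * cc ∉ v.asIdeal := by
      intro hm
      obtain ⟨θ, hθ, h4⟩ := exists_root_of_mem nprod hsplit hm
      exact hv θ (Multiset.mem_toFinset.2 hθ) h4
    refine ⟨fun h => h3 ?_, fun h => h3 ?_, fun h => h3 ?_⟩
    · exact Ideal.mul_mem_right _ _ (Ideal.mul_mem_right _ _ h)
    · exact Ideal.mul_mem_right _ _ (Ideal.mul_mem_left _ _ h)
    · exact Ideal.mul_mem_left _ _ h
  obtain ⟨c0, hc0, r0⟩ := rep h2' n0 Z (fun v hv => hloc.c0 v (hout v hv).1 (hout v hv).2.1)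
  obtain ⟨c1, hc1, r1⟩ := rep h2' n1 Z (fun v hv => hloc.c1 v (hout v hv).1 (hout v hv).2.2)
  -- the three pieces
  obtain ⟨PA, hPA⟩ : ∃ PA : k' → Prop, ∀ θ, PA θ ↔ (aa.IsRoot θ ∧ par (pl θ) a0 = 1) :=
    ⟨_, fun _ => Iff.rfl⟩
  obtain ⟨PB, hPB⟩ : ∃ PB : k' → Prop, ∀ θ, PB θ ↔ (bb.IsRoot θ ∧ par (pl θ) a0 = 1) :=
    ⟨_, fun _ => Iff.rfl⟩
  obtain ⟨PC, hPC⟩ : ∃ PC : k' → Prop, ∀ θ, PC θ ↔ (cc.IsRoot θ ∧ par (pl θ) a1 = 1) :=
    ⟨_, fun _ => Iff.rfl⟩
  set DA : Finset k' := Z.filter PA with hDA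
  set DB : Finset k' := Z.filter PB with hDB
  set DC : Finset k' := Z.filter PC with hDC
  have isRoot_gal : ∀ (p : k[X]) (s : k' ≃ₐ[k] k') (θ : k'),
      (p.map (algebraMap k k')).IsRoot θ → (p.map (algebraMap k k')).IsRoot (s θ) := by
    intro p s θ h
    rw [IsRoot.def, eval_map_algebraMap] at h ⊢
    have := (Polynomial.aeval_algHom_apply s.toAlgHom θ p)
    have h5 : aeval (s θ) p = s (aeval θ p) := this
    rw [h5, h, map_zero]
  have stab : ∀ (P : k' → Prop) (hP : ∀ (s : k' ≃ₐ[k] k') (θ : k'), P θ → P (s θ)),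
      ∀ (s : k' ≃ₐ[k] k'), ∀ θ ∈ Z.filter P, s θ ∈ Z.filter P := by
    intro P hP s θ hθ
    rw [Finset.mem_filter] at hθ ⊢
    refine ⟨?_, hP s θ hθ.2⟩
    rw [hZmem]
    rcases (hZmem θ).1 hθ.1 with h | h | h
    · exact Or.inl (isRoot_gal a s θ h)
    · exact Or.inr (Or.inl (isRoot_gal b s θ h))
    · exact Or.inr (Or.inr (isRoot_gal (a - b) s θ h))
  obtain ⟨A, hA1, hA2⟩ := desc (k := k) DA (stab PA fun s θ h => (hPA _).2
    ⟨isRoot_gal a s θ ((hPA θ).1 h).1, by rw [(key s).1]; exact ((hPA θ).1 h).2⟩)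
  obtain ⟨B, hB1, hB2⟩ := desc (k := k) DB (stab PB fun s θ h => (hPB _).2
    ⟨isRoot_gal b s θ ((hPB θ).1 h).1, by rw [(key s).1]; exact ((hPB θ).1 h).2⟩)
  obtain ⟨D, hD1, hD2⟩ := desc (k := k) DC (stab PC fun s θ h => (hPC _).2
    ⟨isRoot_gal (a - b) s θ ((hPC θ).1 h).1, by rw [(key s).2]; exact ((hPC θ).1 h).2⟩)
  have sqf : ∀ (P : k[X]) (S : Finset k'), P.map (algebraMap k k') = ∏ θ ∈ S, (X - C θ) →
      Squarefree P := by
    intro P S h
    apply Separable.squarefree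
    rw [← separable_map (algebraMap k k'), h, separable_prod_X_sub_C_iff']
    intro x _ y _ h
    exact h
  have dvd : ∀ (P p : k[X]) (S : Finset k'), p ≠ 0 →
      P.map (algebraMap k k') = ∏ θ ∈ S, (X - C θ) →
      (∀ θ ∈ S, (p.map (algebraMap k k')).IsRoot θ) → P ∣ p := by
    intro P p S hp h hr
    rw [← Polynomial.map_dvd_map' (algebraMap k k'), h]
    have hp' : p.map (algebraMap k k') ≠ 0 := (Polynomial.map_ne_zero_iff injk).2 hp
    have := (Multiset.prod_X_sub_C_dvd_iff_le_roots hp' S.val).2 (by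
      rw [Multiset.le_iff_subset S.nodup]
      intro θ hθ
      exact (mem_roots hp').2 (hr θ hθ))
    exact this
  have dis : ∀ (P Q : k' → Prop), (∀ θ, P θ → Q θ → False) →
      Disjoint (Z.filter P) (Z.filter Q) := by
    intro P Q h
    rw [Finset.disjoint_left]
    intro θ h1 h2
    exact h θ (Finset.mem_filter.1 h1).2 (Finset.mem_filter.1 h2).2
  refine ⟨A, B, D, hA1, hB1, hD1, sqf A DA hA2, sqf B DB hB2, sqf D DC hD2,
    dvd A a DA ha hA2 fun θ h => ((hPA θ).1 (Finset.mem_filter.1 h).2).1,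
    dvd B b DB hb hB2 fun θ h => ((hPB θ).1 (Finset.mem_filter.1 h).2).1,
    dvd D (a - b) DC hsub hD2 fun θ h => ((hPC θ).1 (Finset.mem_filter.1 h).2).1,
    c0, c1, hc0, hc1, ?_, ?_⟩
  · rw [r0]
    congr 1
    rw [hKF, Polynomial.map_mul, hA2, hB2]
    congr 1
    rw [← Finset.prod_union (dis PA PB fun θ h1 h2 => ((nb θ).1 ((hPA θ).1 h1).1).1
      ((hPB θ).1 h2).1)]
    refine Finset.prod_congr ?_ fun _ _ => rfl
    ext θ
    rw [Finset.mem_union, Finset.mem_filter, Finset.mem_filter, Finset.mem_filter, hPA, hPB]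
    constructor
    · rintro ⟨h1, h3⟩
      rcases (hZmem θ).1 h1 with h | h | h
      · exact Or.inl ⟨h1, h, h3⟩
      · exact Or.inr ⟨h1, h, h3⟩
      · exfalso
        have h5 := hloc.c0 (pl θ) (fun h6 => ((nb θ).2.2 h).1 (mem_pl.1 h6))
          (fun h6 => ((nb θ).2.2 h).2 (mem_pl.1 h6))
        rw [h5] at h3
        exact absurd h3 (by decide)
    · rintro (⟨h1, -, h3⟩ | ⟨h1, -, h3⟩)
      · exact ⟨h1, h3⟩
      · exact ⟨h1, h3⟩
  · rw [r1]
    congr 1
    rw [hKF, Polynomial.map_mul, hA2, hD2]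
    congr 1
    rw [← Finset.prod_union (dis PA PC fun θ h1 h2 => ((nb θ).1 ((hPA θ).1 h1).1).2
      ((hPC θ).1 h2).1)]
    refine Finset.prod_congr ?_ fun _ _ => rfl
    have eqA : ∀ θ, aa.IsRoot θ → par (pl θ) a0 = par (pl θ) a1 := by
      intro θ h
      have h5 := hloc.cA (pl θ) (fun h6 => ((nb θ).1 h).1 (mem_pl.1 h6))
          (fun h6 => ((nb θ).1 h).2 (mem_pl.1 h6))
      have : ∀ x y : ZMod 2, x + y = 0 → x = y := by decide
      exact this _ _ h5
    ext θ
    rw [Finset.mem_union, Finset.mem_filter, Finset.mem_filter, Finset.mem_filter, hPA, hPC]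
    constructor
    · rintro ⟨h1, h3⟩
      rcases (hZmem θ).1 h1 with h | h | h
      · exact Or.inl ⟨h1, h, by rw [eqA θ h]; exact h3⟩
      · exfalso
        have h5 := hloc.c1 (pl θ) (fun h6 => ((nb θ).2.1 h).1 (mem_pl.1 h6))
          (fun h6 => ((nb θ).2.1 h).2 (mem_pl.1 h6))
        rw [h5] at h3
        exact absurd h3 (by decide)
      · exact Or.inr ⟨h1, h, h3⟩
    · rintro (⟨h1, h, h3⟩ | ⟨h1, -, h3⟩)
      · exact ⟨h1, by rw [← eqA θ h]; exact h3⟩
      · exact ⟨h1, h3⟩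

include hKF h2 ha hb hab hco in
/-- There are no points of order four. -/
theorem noFour (hodd : TwoOdd k k' a b) :
    NoFour (crv (algebraMap k[X] K a) (algebraMap k[X] K b)) F := by
  intro R hR
  have hsub : a - b ≠ 0 := sub_ne_zero.2 hab
  have h2K : (2 : K) ≠ 0 := by
    have h3 : algebraMap k[X] K (C (2 : k)) ≠ 0 := by
      rw [Ne, map_eq_zero_iff _ (IsFractionRing.injective k[X] K), C_eq_zero]
      exact h2
    rwa [map_ofNat, map_ofNat] at h3
  have inj := IsFractionRing.injective k[X] K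
  have haK : algebraMap k[X] K a ≠ 0 := by simpa using ha
  have hbK : algebraMap k[X] K b ≠ 0 := by simpa using hb
  have habK : algebraMap k[X] K a ≠ algebraMap k[X] K b := fun h => hab (inj h)
  have hE := isE (algebraMap k[X] K a) (algebraMap k[X] K b) F h2K haK hbK habK
  set αF := algebraMap K F (algebraMap k[X] K a) with hαF
  set βF := algebraMap K F (algebraMap k[X] K b) with hβF
  have hαβ : αF - βF = algebraMap K F (algebraMap k[X] K (a - b)) := by
    rw [map_sub, map_sub]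
  have nα : αF ≠ 0 := hE.nea
  have nβ : βF ≠ 0 := hE.neb
  have nαβ : αF - βF ≠ 0 := sub_ne_zero.2 hE.neab
  have e0 := h0_sq hE R
  have e1 := h1_sq hE R
  have par_neg : ∀ (v : HeightOneSpectrum k'[X]) (x : F), par v (-x) = par v x := by
    intro v x
    unfold par
    rw [Valuation.map_neg]
  have p0 : ∀ v : HeightOneSpectrum k'[X], par v (d0 αF βF (R + R)) = 0 := by
    intro v
    rw [← e0]
    exact par_pow_two v (h0_ne hE R)
  have p1 : ∀ v : HeightOneSpectrum k'[X], par v (d1 αF βF (R + R)) = 0 := by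
    intro v
    rw [← e1]
    exact par_pow_two v (h1_ne hE R)
  have nb := fun θ : k' => not_both (a := a) (b := b) hco (pl θ)
  simp only [mem_pl] at nb
  have exA : OddRoots k k' a → ∃ θ : k', par (pl θ) αF = 1 ∧ par (pl θ) βF = 0 ∧
      par (pl θ) (αF - βF) = 0 := by
    rintro ⟨Z, hZ1, -, hZ3⟩
    obtain ⟨θ, hθ⟩ := Finset.card_pos.1 hZ1.pos
    refine ⟨θ, par_odd hKF ha (hZ3 θ hθ), par_unit hKF hb ((nb _).1 (isRoot_of_odd (hZ3 θ hθ))).1,
      ?_⟩
    rw [hαβ]
    exact par_unit hKF hsub ((nb _).1 (isRoot_of_odd (hZ3 θ hθ))).2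
  have exB : OddRoots k k' b → ∃ θ : k', par (pl θ) βF = 1 ∧ par (pl θ) αF = 0 ∧
      par (pl θ) (αF - βF) = 0 := by
    rintro ⟨Z, hZ1, -, hZ3⟩
    obtain ⟨θ, hθ⟩ := Finset.card_pos.1 hZ1.pos
    refine ⟨θ, par_odd hKF hb (hZ3 θ hθ),
      par_unit hKF ha ((nb _).2.1 (isRoot_of_odd (hZ3 θ hθ))).1, ?_⟩
    rw [hαβ]
    exact par_unit hKF hsub ((nb _).2.1 (isRoot_of_odd (hZ3 θ hθ))).2
  have exC : OddRoots k k' (a - b) → ∃ θ : k', par (pl θ) (αF - βF) = 1 ∧ par (pl θ) αF = 0 := by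
    rintro ⟨Z, hZ1, -, hZ3⟩
    obtain ⟨θ, hθ⟩ := Finset.card_pos.1 hZ1.pos
    refine ⟨θ, ?_, par_unit hKF ha ((nb _).2.2 (isRoot_of_odd (hZ3 θ hθ))).1⟩
    rw [hαβ]
    exact par_odd hKF hsub (hZ3 θ hθ)
  have z10 : (1 : ZMod 2) ≠ 0 := by decide
  have caseA : OddRoots k k' a → (d1 αF βF (R + R) = -αF ∨
      d1 αF βF (R + R) = αF * (αF - βF)) → False := by
    intro o hd
    obtain ⟨θ, q1, q2, q3⟩ := exA o
    have := p1 (pl θ)
    rcases hd with hd | hd
    · rw [hd, par_neg, q1] at this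
      exact z10 this
    · rw [hd, par_mul _ nα nαβ, q1, q3, add_zero] at this
      exact z10 this
  have caseB : OddRoots k k' b → (d0 αF βF (R + R) = αF * βF ∨
      d0 αF βF (R + R) = βF) → False := by
    intro o hd
    obtain ⟨θ, q1, q2, q3⟩ := exB o
    have := p0 (pl θ)
    rcases hd with hd | hd
    · rw [hd, par_mul _ nα nβ, q1, q2, zero_add] at this
      exact z10 this
    · rw [hd, q1] at this
      exact z10 this
  have caseC : OddRoots k k' (a - b) → (d1 αF βF (R + R) = αF * (αF - βF) ∨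
      d1 αF βF (R + R) = βF - αF) → False := by
    intro o hd
    obtain ⟨θ, q1, q2⟩ := exC o
    have := p1 (pl θ)
    rcases hd with hd | hd
    · rw [hd, par_mul _ nα nαβ, q1, q2, zero_add] at this
      exact z10 this
    · rw [hd, ← neg_sub, par_neg, q1] at this
      exact z10 this
  rcases tor_d hE hR with h | ⟨h, h'⟩ | ⟨h, h'⟩ | ⟨h, h'⟩
  · exact h
  · exfalso
    rcases hodd with ⟨o1, o2⟩ | ⟨o1, o2⟩ | ⟨o1, o2⟩
    · exact caseA o1 (Or.inl h')
    · exact caseA o1 (Or.inl h')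
    · exact caseB o1 (Or.inl h)
  · exfalso
    rcases hodd with ⟨o1, o2⟩ | ⟨o1, o2⟩ | ⟨o1, o2⟩
    · exact caseA o1 (Or.inr h')
    · exact caseA o1 (Or.inr h')
    · exact caseC o2 (Or.inl h')
  · exfalso
    rcases hodd with ⟨o1, o2⟩ | ⟨o1, o2⟩ | ⟨o1, o2⟩
    · exact caseB o2 (Or.inr h)
    · exact caseC o2 (Or.inr h')
    · exact caseB o1 (Or.inr h)

end core

end

end Pool.Agent.TH115.GD
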