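import Mathlib
import Pool.Agent.TH115.GD.Global

/-!
The local conditions at all places, and the main theorem.
-/

set_option autoImplicit false
set_option linter.all false

open Polynomial IsDedekindDomain WeierstrassCurve WeierstrassCurve.Affine
open scoped Classical

namespace Pool.Agent.TH115.GD

open Pool.Agent.W309.TD (isSquare_coe)

section inf

variable {k' F : Type} [Field k'] [Field F] [Algebra k'[X] F] [IsFractionRing k'[X] F]

/-- The valuation at infinity. -/
noncomputable def vInf (k' F : Type) [Field k'] [Field F] [Algebra k'[X] F]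
    [IsFractionRing k'[X] F] : Valuation F (WithZero (Multiplicative ℤ)) :=
  (pl (0 : k')).valuation (AtInf F)

theorem vInf_poly {p : k'[X]} (hp : p ≠ 0) :
    vInf k' F (algebraMap k'[X] F p) = WithZero.exp (p.natDegree : ℤ) := by
  have hX : algebraMap k'[X] F X ≠ 0 := by simp
  have hXi : infMap k' F X = (algebraMap k'[X] F X)⁻¹ := by
    simp [infMap]
  have h1 : vInf k' F (infMap k' F X) = WithZero.exp (-1 : ℤ) := by
    have h2 := val_poly (F := AtInf F) (0 : k') (p := X) X_ne_zero
    have h3 : rootMultiplicity (0 : k') X = 1 := by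
      have := rootMultiplicity_X_sub_C_self (x := (0 : k'))
      rwa [C_0, sub_zero] at this
    rw [h3] at h2
    exact h2
  have h4 : vInf k' F (algebraMap k'[X] F X) = WithZero.exp (1 : ℤ) := by
    have h5 : algebraMap k'[X] F X = (infMap k' F X)⁻¹ := by rw [hXi, inv_inv]
    rw [h5, map_inv₀, h1, ← WithZero.exp_neg, neg_neg]
  have h6 : vInf k' F (infMap k' F (reverse p)) = 1 := by
    have h7 : reverse p ≠ 0 := by rwa [Ne, reverse_eq_zero]
    have h2 := val_poly (F := AtInf F) (0 : k') (p := reverse p) h7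
    have h3 : rootMultiplicity (0 : k') (reverse p) = 0 := by
      apply rootMultiplicity_eq_zero
      rw [IsRoot.def, ← coeff_zero_eq_eval_zero, coeff_zero_reverse]
      exact leadingCoeff_ne_zero.2 hp
    rw [h3] at h2
    have h8 : (WithZero.exp (-((0 : ℕ) : ℤ)) : WithZero (Multiplicative ℤ)) = 1 := by simp
    rw [h8] at h2
    exact h2
  rw [std_inf (F := F) p, map_mul, map_pow, h6, h4, one_mul, ← WithZero.exp_nsmul]
  congr 1
  simp

theorem isSquare_exp {n : ℤ} : IsSquare (WithZero.exp n : WithZero (Multiplicative ℤ)) ↔ Even n :=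
  isSquare_coe (m := Multiplicative.ofAdd n)

theorem wInf (x : F) : (Valued.v (R := (pl (0 : k')).adicCompletion (AtInf F))
    (Γ₀ := WithZero (Multiplicative ℤ))) (algebraMap F (CompInf k' F) x) = vInf k' F x :=
  HeightOneSpectrum.adicCompletion.valued_coe (AtInf F) (pl (0 : k')) x

end inf

section fin

variable {R F : Type} [CommRing R] [IsDedekindDomain R] [Field F] [Algebra R F]
  [IsFractionRing R F]

theorem wFin (v : HeightOneSpectrum R) (x : F) : (Valued.v (R := v.adicCompletion F)
    (Γ₀ := WithZero (Multiplicative ℤ))) (algebraMap F (Comp R F v) x) = v.valuation F x :=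
  HeightOneSpectrum.adicCompletion.valued_coe F v x

end fin

section gen

/-- Transfer of the local conditions to the global field. -/
theorem gen_loc {K F L : Type} [Field K] [Field F] [Field L] [Algebra K F] [Algebra K L]
    [Algebra F L] [IsScalarTower K F L] {a b : K} (h2 : (2 : K) ≠ 0) (ha : a ≠ 0) (hb : b ≠ 0)
    (hab : a ≠ b) (w : Valuation L (WithZero (Multiplicative ℤ)))
    (v : Valuation F (WithZero (Multiplicative ℤ))) (hwv : ∀ x : F, w (algebraMap F L x) = v x)
    {M : WithZero (Multiplicative ℤ)} (hM : IsSquare M) (hM0 : M ≠ 0)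
    (va : v (algebraMap K F a) ≤ M) (vb : v (algebraMap K F b) ≤ M) {a0 a1 : F}
    (hs : LocSol (crv a b) a b L a0 a1) :
    (v (algebraMap K F a) = M → v (algebraMap K F b) = M → IsSquare (v a0)) ∧
    (v (algebraMap K F a) = M → v (algebraMap K F (a - b)) = M → IsSquare (v a1)) ∧
    (v (algebraMap K F b) = M → v (algebraMap K F (a - b)) = M → IsSquare (v (a0 * a1))) := by
  obtain ⟨Q, c0, c1, n0, n1, e0, e1⟩ := hs
  have hL := isE a b L h2 ha hb hab
  have wa : w (algebraMap K L a) = v (algebraMap K F a) := by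
    rw [IsScalarTower.algebraMap_apply K F L, hwv]
  have wb : w (algebraMap K L b) = v (algebraMap K F b) := by
    rw [IsScalarTower.algebraMap_apply K F L, hwv]
  have wab : w (algebraMap K L a - algebraMap K L b) = v (algebraMap K F (a - b)) := by
    rw [← map_sub, IsScalarTower.algebraMap_apply K F L, hwv]
  refine ⟨fun h h' => ?_, fun h h' => ?_, fun h h' => ?_⟩
  · have k0 := loc0 (v := w) hL hM hM0 (wa.trans h) (wb.trans h') Q
    rw [← hwv, e0, map_mul, map_pow, pow_two]
    exact IsSquare.mul ⟨_, rfl⟩ k0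
  · have k1 := loc1 (v := w) hL hM hM0 (wa.trans h) (wb.le.trans vb) (wab.trans h') Q
    rw [← hwv, e1, map_mul, map_pow, pow_two]
    exact IsSquare.mul ⟨_, rfl⟩ k1
  · have k0 := locA (v := w) hL hM hM0 (wa.le.trans va) (wb.trans h) (wab.trans h') Q
    rw [← hwv, map_mul, e0, e1]
    have e : c0 ^ 2 * d0 (algebraMap K L a) (algebraMap K L b) Q *
        (c1 ^ 2 * d1 (algebraMap K L a) (algebraMap K L b) Q) =
        (c0 * c1) ^ 2 * (d0 (algebraMap K L a) (algebraMap K L b) Q *
          d1 (algebraMap K L a) (algebraMap K L b) Q) := by ring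
    rw [e, map_mul, map_pow, pow_two]
    exact IsSquare.mul ⟨_, rfl⟩ k0

end gen

section main

variable {k k' K F : Type} [Field k] [Field k'] [Algebra k k'] [IsSepClosure k k']
  [Field K] [Algebra k[X] K] [IsFractionRing k[X] K] [Field F] [Algebra k'[X] F]
  [IsFractionRing k'[X] F] [Algebra K F]

theorem tt {K : Type} [Field K] [Algebra k[X] K] [IsFractionRing k[X] K] (h2 : (2 : k) ≠ 0) :
    (2 : K) ≠ 0 := by
  have h3 : algebraMap k[X] K (C (2 : k)) ≠ 0 := by
    rw [Ne, map_eq_zero_iff _ (IsFractionRing.injective k[X] K), C_eq_zero]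
    exact h2
  rwa [map_ofNat, map_ofNat] at h3

theorem main (hKF : ∀ p : k[X], algebraMap K F (algebraMap k[X] K p) =
      algebraMap k'[X] F (p.map (algebraMap k k')))
    (h2 : (2 : k) ≠ 0) {a b : k[X]} (ha : a ≠ 0) (hb : b ≠ 0) (hab : a ≠ b) (hco : IsCoprime a b)
    (hsplit : ((a * b * (a - b)).map (algebraMap k k')).Splits) (hodd : TwoOdd k k' a b)
    (hpts : EnoughPoints K F a b)
    (c : ℕ → (Sep F ≃ₐ[F] Sep F) →
      Pt (crv (algebraMap k[X] K a) (algebraMap k[X] K b)) (Sep F))
    (hc : IsTC _ c) (hl : ∀ n, LocallyTrivial k' _ (c n)) (hi : IsInv _ c) (n : ℕ) :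
    ∃ (P : Pt (crv (algebraMap k[X] K a) (algebraMap k[X] K b)) K)
      (R : Pt (crv (algebraMap k[X] K a) (algebraMap k[X] K b)) (Sep F)),
      2 ^ n • R = act _ (incl K K (Sep F)) P ∧ ∀ σ, c n σ = act _ (rs K σ) R - R := by
  have h2K : (2 : K) ≠ 0 := tt h2
  have inj := IsFractionRing.injective k[X] K
  have haK : algebraMap k[X] K a ≠ 0 := by simpa using ha
  have hbK : algebraMap k[X] K b ≠ 0 := by simpa using hb
  have habK : algebraMap k[X] K a ≠ algebraMap k[X] K b := fun h => hab (inj h)
  have hsub : a - b ≠ 0 := sub_ne_zero.2 hab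
  have injk := (algebraMap k k').injective
  have haF : algebraMap K F (algebraMap k[X] K a) ≠ 0 := by simpa using ha
  have hbF : algebraMap K F (algebraMap k[X] K b) ≠ 0 := by simpa using hb
  let LS : F → F → Prop := fun a0 a1 =>
    (∀ v : HeightOneSpectrum k'[X], LocSol (crv (algebraMap k[X] K a) (algebraMap k[X] K b)) (algebraMap k[X] K a) (algebraMap k[X] K b)
      (Comp k'[X] F v) a0 a1) ∧
    LocSol (crv (algebraMap k[X] K a) (algebraMap k[X] K b)) (algebraMap k[X] K a) (algebraMap k[X] K b) (CompInf k' F) a0 a1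
  have hE : ∀ (L : Type) [Field L] [Algebra K L], IsE ((crv (algebraMap k[X] K a) (algebraMap k[X] K b)).baseChange L).toAffine
      (algebraMap K L (algebraMap k[X] K a)) (algebraMap K L (algebraMap k[X] K b)) :=
    fun L _ _ => isE _ _ L h2K haK hbK habK
  refine descent (K := K) (F := F) (Ω := Sep F) (crv (algebraMap k[X] K a) (algebraMap k[X] K b)) (a := algebraMap k[X] K a)
    (b := algebraMap k[X] K b) (hE (Sep F)) (LS := LS) (Lt := LocallyTrivial k' (crv (algebraMap k[X] K a) (algebraMap k[X] K b))) ?_ ?_ ?_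
    (preserves hKF) (noFour (k' := k') hKF h2 ha hb hab hco hodd) n c hc hi hl
  · rintro f H ⟨h1, h3⟩
    refine ⟨fun v => ?_, ?_⟩
    · exact (h1 v).sub _ H
    · exact LocTriv.sub _ h3 H
  · rintro f ⟨h1, h3⟩ hf2 a0 a1 ⟨t0, t1, n0, n1, e0, e1, k0, k1⟩
    refine ⟨fun v => ?_, ?_⟩
    · exact loc_rep _ (hE _) hf2 (h1 v) n0 n1 e0 e1 k0 k1
    · exact loc_rep _ (hE _) hf2 h3 n0 n1 e0 e1 k0 k1
  · rintro a0 a1 n0 n1 ⟨hfin, hinf⟩ hfix
    -- the finite places
    have vle : ∀ (v : HeightOneSpectrum k'[X]) (p : k[X]),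
        v.valuation F (algebraMap K F (algebraMap k[X] K p)) ≤ 1 := by
      intro v p
      rw [hKF]
      exact v.valuation_le_one _
    have vone : ∀ (v : HeightOneSpectrum k'[X]) (p : k[X]),
        p.map (algebraMap k k') ∉ v.asIdeal →
        v.valuation F (algebraMap K F (algebraMap k[X] K p)) = 1 := by
      intro v p hp
      rw [hKF, v.valuation_of_algebraMap, HeightOneSpectrum.intValuation_eq_one_iff]
      exact hp
    have gfin := fun v : HeightOneSpectrum k'[X] => gen_loc (F := F) (L := Comp k'[X] F v)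
      h2K haK hbK habK
      (Valued.v (R := v.adicCompletion F) (Γ₀ := WithZero (Multiplicative ℤ)))
      (v.valuation F) (wFin v) (M := 1) ⟨1, (mul_one 1).symm⟩ one_ne_zero (vle v a) (vle v b)
      (hfin v)
    have hloc : LocPar (k' := k') a b a0 a1 := by
      refine ⟨fun v h h' => ?_, fun v h h' => ?_, fun v h h' => ?_⟩
      · rw [par_eq_zero]
        exact (gfin v).1 (vone v a h) (vone v b h')
      · rw [par_eq_zero]
        refine (gfin v).2.1 (vone v a h) ?_
        rw [← map_sub]
        exact vone v (a - b) h'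
      · rw [← par_mul v n0 n1, par_eq_zero]
        refine (gfin v).2.2 (vone v b h) ?_
        rw [← map_sub]
        exact vone v (a - b) h'
    obtain ⟨A, B, D, hA, hB, hD, sA, sB, sD, dA, dB, dD, c0, c1, hc0, hc1, w0, w1⟩ :=
      global_core (k' := k') hKF h2 ha hb hab hco hsplit hodd n0 n1 hloc hfix
    -- the place at infinity
    have hInf : InfCond a b A B D := by
      intro hN
      set N := max a.natDegree b.natDegree with hNdef
      have vdeg : ∀ p : k[X], p ≠ 0 → vInf k' F (algebraMap K F (algebraMap k[X] K p)) =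
          WithZero.exp (p.natDegree : ℤ) := by
        intro p hp
        rw [hKF, vInf_poly ((Polynomial.map_ne_zero_iff injk).2 hp), natDegree_map]
      have vle' : ∀ p : k[X], p ≠ 0 → p.natDegree ≤ N →
          vInf k' F (algebraMap K F (algebraMap k[X] K p)) ≤ WithZero.exp (N : ℤ) := by
        intro p hp h
        rw [vdeg p hp, WithZero.exp_le_exp]
        exact_mod_cast h
      have ginf := gen_loc (F := F) (L := CompInf k' F) h2K haK hbK habK
        (Valued.v (R := (pl (0 : k')).adicCompletion (AtInf F))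
          (Γ₀ := WithZero (Multiplicative ℤ)))
        (vInf k' F) wInf (M := WithZero.exp (N : ℤ)) (isSquare_exp.2 (by exact_mod_cast hN))
        WithZero.exp_ne_zero (vle' a ha (le_max_left _ _)) (vle' b hb (le_max_right _ _)) hinf
      have even_of : ∀ (p : k[X]) (q : F) (x : F), p ≠ 0 → q ≠ 0 →
          x = q ^ 2 * algebraMap K F (algebraMap k[X] K p) → IsSquare (vInf k' F x) →
          Even p.natDegree := by
        intro p q x hp hq hx hs
        rw [hx, map_mul, map_pow, pow_two] at hs
        have h3 := Pool.Agent.W309.TD.IsSquare.of_mul_left' ⟨vInf k' F q, rfl⟩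
          (mul_ne_zero ((Valuation.ne_zero_iff _).2 hq) ((Valuation.ne_zero_iff _).2 hq)) hs
        rw [vdeg p hp, isSquare_exp] at h3
        exact_mod_cast h3
      refine ⟨fun h => ?_, fun h h' => ?_, fun h h' => ?_⟩
      · refine even_of (A * B) c0 a0 (mul_ne_zero hA.ne_zero hB.ne_zero) hc0 w0 (ginf.1 ?_ ?_)
        · rw [vdeg a ha]
          congr 2
          rw [hNdef, h, max_self]
        · rw [vdeg b hb]
          congr 2
          rw [hNdef, h, max_self]
      · refine even_of (A * D) c1 a1 (mul_ne_zero hA.ne_zero hD.ne_zero) hc1 w1 (ginf.2.1 ?_ ?_)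
        · rw [vdeg a ha, h]
        · rw [← map_sub, vdeg (a - b) hsub, h']
      · refine even_of (B * D) (c0 * c1 * algebraMap K F (algebraMap k[X] K A)) (a0 * a1)
          (mul_ne_zero hB.ne_zero hD.ne_zero) ?_ ?_ (ginf.2.2 ?_ ?_)
        · have : algebraMap K F (algebraMap k[X] K A) ≠ 0 := by simpa using hA.ne_zero
          exact mul_ne_zero (mul_ne_zero hc0 hc1) this
        · rw [w0, w1, map_mul, map_mul, map_mul, map_mul, map_mul, map_mul]
          ring
        · rw [vdeg b hb, h]
        · rw [← map_sub, vdeg (a - b) hsub, h']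
    obtain ⟨P, ⟨q0, hq0, r0⟩, ⟨q1, hq1, r1⟩⟩ := hpts A B D hA hB hD sA sB sD dA dB dD hInf
    refine ⟨P, c0 * q0, c1 * q1, mul_ne_zero hc0 hq0, mul_ne_zero hc1 hq1, ?_, ?_⟩
    · rw [w0, r0]; ring
    · rw [w1, r1]; ring

end main

end Pool.Agent.TH115.GD
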