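import Pool.Agent.TH115.GD.Cls

/-!
The bound for the number of generators of the fixed classes.
-/

set_option autoImplicit false
set_option linter.all false

open Polynomial IsDedekindDomain WeierstrassCurve WeierstrassCurve.Affine
open scoped Classical

namespace Pool.Agent.TH115.GD

section zero

variable {K F : Type} [Field K] [Field F] [Algebra K F]

theorem LocTriv.zero {L : Type} [Field L] [Algebra K L] [Algebra F L] [IsScalarTower K F L]
    (W : WeierstrassCurve K) :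
    LocTriv W L (Sep L) (fun _ : Sep F ≃ₐ[F] Sep F => (0 : Pt W (Sep F))) := by
  haveI : Algebra.IsSeparable F (Sep F) := IsSepClosure.separable
  refine ⟨IsSepClosed.lift, 0, fun τ σ _ => ?_⟩
  rw [map_zero, map_zero, sub_zero]

theorem IsTateClass.zero {k' : Type} [Field k'] [Algebra k'[X] F] [IsFractionRing k'[X] F]
    {W : WeierstrassCurve K} : IsTateClass (F := F) k' W (fun _ _ => 0) :=
  ⟨IsTC.zero' W, fun n => ⟨fun v => LocTriv.zero W, LocTriv.zero W⟩, IsInv.zero' W⟩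

/-- Integral linear combinations. -/
noncomputable def comb {W : WeierstrassCurve K} {m : ℕ} (e : Fin m → ℕ → (Sep F ≃ₐ[F] Sep F) → Pt W (Sep F))
    (z : Fin m → ℤ) : ℕ → (Sep F ≃ₐ[F] Sep F) → Pt W (Sep F) :=
  fun n σ => ∑ i, z i • e i n σ

theorem IsTateClass.comb {k' : Type} [Field k'] [Algebra k'[X] F] [IsFractionRing k'[X] F]
    {W : WeierstrassCurve K} {m : ℕ} {e : Fin m → ℕ → (Sep F ≃ₐ[F] Sep F) → Pt W (Sep F)}
    (he : ∀ i, IsTateClass k' W (e i)) (z : Fin m → ℤ) : IsTateClass k' W (comb e z) := by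
  have key : ∀ s : Finset (Fin m), IsTateClass k' W (fun n σ => ∑ i ∈ s, z i • e i n σ) := by
    intro s
    induction s using Finset.induction_on with
    | empty =>
      simp only [Finset.sum_empty]
      exact IsTateClass.zero
    | insert i s hi ih =>
      simp only [Finset.sum_insert hi]
      exact ((he i).smul (z i)).add ih
  exact key Finset.univ

end zero

section step

variable {K F : Type} [Field K] [Field F] [Algebra K F] {α β : K} (h2 : (2 : K) ≠ 0) (hα : α ≠ 0)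
  (hβ : β ≠ 0) (hαβ : α ≠ β)

/-- The reduction modulo two of `c` is the class of the point `T` of order two. -/
def Van {α β : K} (f : (Sep F ≃ₐ[F] Sep F) → Pt (crv α β) (Sep F)) (T : Pt (crv α β) K) : Prop :=
  ∃ a0 a1 : F, Rep (crv α β) α f a0 a1 ∧ SqEq a0 (algebraMap K F (d0 α β T)) ∧
    SqEq a1 (algebraMap K F (d1 α β T))

include h2 hα hβ hαβ in
theorem Rep.add {f f' : (Sep F ≃ₐ[F] Sep F) → Pt (crv α β) (Sep F)} (hf : ∀ σ, f σ + f σ = 0)
    (hf' : ∀ σ, f' σ + f' σ = 0) {a0 a1 b0 b1 : F} (h : Rep (crv α β) α f a0 a1)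
    (h' : Rep (crv α β) α f' b0 b1) :
    Rep (crv α β) α (fun σ => f σ + f' σ) (a0 * b0) (a1 * b1) := by
  obtain ⟨t0, t1, n0, n1, e0, e1, k0, k1⟩ := h
  obtain ⟨t0', t1', n0', n1', e0', e1', k0', k1'⟩ := h'
  have hL := isE α β (Sep F) h2 hα hβ hαβ
  refine ⟨t0 * t0', t1 * t1', mul_ne_zero n0 n0', mul_ne_zero n1 n1', ?_, ?_, fun σ => ?_,
    fun σ => ?_⟩
  · rw [mul_pow, e0, e0', map_mul]
  · rw [mul_pow, e1, e1', map_mul]
  · rw [map_mul, k0, k0', (s_add _ hL (hf σ) (hf' σ)).1]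
    ring
  · rw [map_mul, k1, k1', (s_add _ hL (hf σ) (hf' σ)).2]
    ring

include h2 hα hβ hαβ in
/-- The descent step. -/
theorem tate_step {k' : Type} [Field k'] [Algebra k'[X] F] [IsFractionRing k'[X] F]
    {c : ℕ → (Sep F ≃ₐ[F] Sep F) → Pt (crv α β) (Sep F)} (hc : IsTateClass k' (crv α β) c)
    {T : Pt (crv α β) K} (hV : Van (c 1) T) :
    ∃ c' : ℕ → (Sep F ≃ₐ[F] Sep F) → Pt (crv α β) (Sep F), IsTateClass k' (crv α β) c' ∧
      ∃ H : ℕ → Pt (crv α β) (Sep F),
        (∀ n, 2 ^ n • H n = act (crv α β) (incl K K (Sep F)) T) ∧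
        ∀ n σ, c n σ = 2 • c' n σ + (act (crv α β) (rs K σ) (H n) - H n) := by
  have hL := isE α β (Sep F) h2 hα hβ hαβ
  obtain ⟨a0, a1, ⟨t0, t1, n0, n1, e0, e1, k0, k1⟩, ⟨c0, m0, w0⟩, ⟨c1, m1, w1⟩⟩ := hV
  have hc2 : ∀ σ, c 1 σ + c 1 σ = 0 := fun σ => by
    rw [← two_nsmul, hc.tc.two 0 σ, hc.tc.zero]
  have hhalf : ∀ X : Pt (crv α β) (Sep F), ∃ Y : Pt (crv α β) (Sep F), Y + Y = X :=
    halve_sep hL
  choose hv hhv using hhalf
  obtain ⟨H, H0, HS⟩ : ∃ H : ℕ → Pt (crv α β) (Sep F),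
      H 0 = act (crv α β) (incl K K (Sep F)) T ∧ ∀ j, 2 • H (j + 1) = H j :=
    ⟨fun j => Nat.rec (act (crv α β) (incl K K (Sep F)) T) (fun _ X => hv X) j, rfl, fun j => by
      rw [two_nsmul]
      exact hhv _⟩
  have H1 : 2 • H 1 = H 0 := HS 0
  have Hpow : ∀ j, 2 ^ j • H j = act (crv α β) (incl K K (Sep F)) T := by
    intro j
    induction j with
    | zero => rw [pow_zero, one_smul, H0]
    | succ j ih => rw [pow_succ, mul_smul, HS, ih]
  have PK : ∀ φ : Sep F →ₐ[K] Sep F, act (crv α β) φ (act (crv α β) (incl K K (Sep F)) T) =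
      act (crv α β) (incl K K (Sep F)) T := by
    intro φ
    have h1 : φ.comp (incl K K (Sep F)) = incl K K (Sep F) := AlgHom.ext fun x => φ.commutes x
    rw [act_act, h1]
  have key := cob_of_rep (F := F) (crv α β) hL hc2 n0 n1 k0 k1 (H := H 1) (c0 := c0) (c1 := c1)
    (fun σ => by
      rw [← two_nsmul, H1, H0]; exact PK _)
    (by
      rw [← two_nsmul, H1, H0, e0, w0, map_mul, map_pow]
      congr 1
      have := d0_act (crv α β) (incl K K (Sep F)) α β T
      have ea : incl K K (Sep F) α = algebraMap K (Sep F) α := rfl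
      have eb : incl K K (Sep F) β = algebraMap K (Sep F) β := rfl
      rw [ea, eb] at this
      rw [this, ← IsScalarTower.algebraMap_apply K F (Sep F)]
      rfl)
    (by
      rw [← two_nsmul, H1, H0, e1, w1, map_mul, map_pow]
      congr 1
      have := d1_act (crv α β) (incl K K (Sep F)) α β T
      have ea : incl K K (Sep F) α = algebraMap K (Sep F) α := rfl
      have eb : incl K K (Sep F) β = algebraMap K (Sep F) β := rfl
      rw [ea, eb] at this
      rw [this, ← IsScalarTower.algebraMap_apply K F (Sep F)]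
      rfl)
  set c' : ℕ → (Sep F ≃ₐ[F] Sep F) → Pt (crv α β) (Sep F) :=
    fun j σ => c (j + 1) σ - (act (crv α β) (rs K σ) (H (j + 1)) - H (j + 1)) with hc'
  have h2c : ∀ (j : ℕ) (ρ : Sep F ≃ₐ[F] Sep F),
      2 • c' j ρ = c j ρ - (act (crv α β) (rs K ρ) (H j) - H j) := by
    intro j ρ
    show 2 • (c (j + 1) ρ - (act (crv α β) (rs K ρ) (H (j + 1)) - H (j + 1))) = _
    rw [smul_sub, smul_sub, ← map_nsmul, HS, hc.tc.two]
  refine ⟨c', ⟨⟨fun j => (hc.tc.coc (j + 1)).sub _ (cob_isCoc _ _), fun σ => ?_,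
    fun j σ => ?_⟩, fun j => ?_, fun τ => ?_⟩, H, Hpow, fun n σ => ?_⟩
  · show c (0 + 1) σ - (act (crv α β) (rs K σ) (H (0 + 1)) - H (0 + 1)) = 0
    rw [zero_add, key σ, sub_self]
  · show 2 • (c (j + 1 + 1) σ - (act (crv α β) (rs K σ) (H (j + 1 + 1)) - H (j + 1 + 1))) =
      c (j + 1) σ - (act (crv α β) (rs K σ) (H (j + 1)) - H (j + 1))
    rw [smul_sub, smul_sub, ← map_nsmul, HS (j + 1), hc.tc.two (j + 1)]
  · exact ⟨fun v => ((hc.loc (j + 1)).1 v).sub _ (H (j + 1)),
      LocTriv.sub _ (hc.loc (j + 1)).2 (H (j + 1))⟩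
  · obtain ⟨m, Q, hQ, hinv⟩ := hc.inv τ
    refine ⟨m + 1, fun j => Q j - 2 ^ m • (act (crv α β) (ak τ) (H j) - H j), ⟨?_, fun j => ?_⟩,
      ?_⟩
    · show Q 0 - 2 ^ m • (act (crv α β) (ak τ) (H 0) - H 0) = 0
      rw [hQ.zero, H0, PK, sub_self, smul_zero, sub_zero]
    · show 2 • (Q (j + 1) - 2 ^ m • (act (crv α β) (ak τ) (H (j + 1)) - H (j + 1))) =
        Q j - 2 ^ m • (act (crv α β) (ak τ) (H j) - H j)
      rw [smul_sub, hQ.two, smul_comm, smul_sub, ← map_nsmul, HS]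
    · intro j σ σ' h
      have h1 := hinv j σ σ' h
      have hcomp : act (crv α β) (ak τ) (act (crv α β) (rs K σ') (H j)) =
          act (crv α β) (rs K σ) (act (crv α β) (ak τ) (H j)) := by
        have h5 : (ak τ).comp (rs K σ') = (rs K σ).comp (ak τ) := AlgHom.ext fun x => h x
        rw [act_act, act_act, h5]
      show 2 ^ (m + 1) • (act (crv α β) (ak τ) (c' j σ') - c' j σ) =
        act (crv α β) (rs K σ) (Q j - 2 ^ m • (act (crv α β) (ak τ) (H j) - H j)) -
          (Q j - 2 ^ m • (act (crv α β) (ak τ) (H j) - H j))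
      have h3 : 2 ^ (m + 1) • (act (crv α β) (ak τ) (c' j σ') - c' j σ) =
          2 ^ m • (act (crv α β) (ak τ) (2 • c' j σ') - 2 • c' j σ) := by
        rw [pow_succ, mul_smul, smul_sub 2, map_nsmul]
      rw [h3, h2c, h2c, map_sub (act (crv α β) (ak τ)), map_sub (act (crv α β) (ak τ)), hcomp]
      have h4 : act (crv α β) (ak τ) (c j σ') -
          (act (crv α β) (rs K σ) (act (crv α β) (ak τ) (H j)) - act (crv α β) (ak τ) (H j)) -
          (c j σ - (act (crv α β) (rs K σ) (H j) - H j)) =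
          (act (crv α β) (ak τ) (c j σ') - c j σ) -
          (act (crv α β) (rs K σ) (act (crv α β) (ak τ) (H j) - H j) -
            (act (crv α β) (ak τ) (H j) - H j)) := by
        rw [map_sub (act (crv α β) (rs K σ))]; abel
      rw [h4, smul_sub, h1, map_sub (act (crv α β) (rs K σ)) (Q j),
        map_nsmul (act (crv α β) (rs K σ)), smul_sub]
      abel
  · rw [h2c]; abel

end step

end Pool.Agent.TH115.GD
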