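import Pool.Agent.TH115.GD.Gen

/-!
The bound for the number of generators of the fixed classes: the theorem.
-/

set_option autoImplicit false
set_option linter.all false

open Polynomial IsDedekindDomain WeierstrassCurve WeierstrassCurve.Affine
open scoped Classical

namespace Pool.Agent.TH115.GD

section core

variable {k k' K F : Type} [Field k] [Field k'] [Algebra k k'] [Field K] [Algebra k[X] K]
    [Field F] [Algebra k'[X] F] [IsFractionRing k'[X] F] [Algebra K F]

variable (hT : IsTower k k' K F) (h2 : (2 : k) ≠ 0) {a b : k[X]} (ha : a ≠ 0) (hb : b ≠ 0)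
  (hab : a ≠ b) (hco : IsCoprime a b)
  (hsep : ∀ π : k[X], Irreducible π → π ∣ a * b * (a - b) → π.Separable)
  (hodd : Odd (max a.natDegree b.natDegree) ∨ TwoOddFactors a b)

theorem SqEq.self_mul {F : Type*} [Field F] {x : F} (hx : x ≠ 0) : SqEq (x * x) 1 :=
  ⟨x, hx, by ring⟩

include hT h2 ha hb hab hco hsep hodd in
/-- The triple of a Tate class and a point of order two. -/
theorem triple_cls {c : ℕ → (Sep F ≃ₐ[F] Sep F) →
      Pt (crv (algebraMap k[X] K a) (algebraMap k[X] K b)) (Sep F)}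
    (hc : IsTateClass k' (crv (algebraMap k[X] K a) (algebraMap k[X] K b)) c)
    (T : Pt (crv (algebraMap k[X] K a) (algebraMap k[X] K b)) K) :
    ∃ t ∈ Triples a b, ∃ a0 a1 : F, a0 ≠ 0 ∧ a1 ≠ 0 ∧
      Rep (crv (algebraMap k[X] K a) (algebraMap k[X] K b)) (algebraMap k[X] K a) (c 1) a0 a1 ∧
      SqEq (a0 * algebraMap K F (d0 (algebraMap k[X] K a) (algebraMap k[X] K b) T))
        (emb k K F (t.1 * t.2.1)) ∧
      SqEq (a1 * algebraMap K F (d1 (algebraMap k[X] K a) (algebraMap k[X] K b) T))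
        (emb k K F (t.1 * t.2.2)) := by
  haveI := hT.sep
  haveI := hT.fracK
  have h2K : (2 : K) ≠ 0 := tt h2
  have inj := IsFractionRing.injective k[X] K
  have haK : algebraMap k[X] K a ≠ 0 := by simpa using ha
  have hbK : algebraMap k[X] K b ≠ 0 := by simpa using hb
  have habK : algebraMap k[X] K a ≠ algebraMap k[X] K b := fun h => hab (inj h)
  have hE : ∀ (L : Type) [Field L] [Algebra K L],
      IsE ((crv (algebraMap k[X] K a) (algebraMap k[X] K b)).baseChange L).toAffine
      (algebraMap K L (algebraMap k[X] K a)) (algebraMap K L (algebraMap k[X] K b)) :=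
    fun L _ _ => isE _ _ L h2K haK hbK habK
  have hprod : a * b * (a - b) ≠ 0 := mul_ne_zero (mul_ne_zero ha hb) (sub_ne_zero.2 hab)
  have hs : ((a * b * (a - b)).map (algebraMap k k')).Splits := splits_of_sep hprod hsep
  have ho : TwoOdd k k' a b := by
    rcases hodd with h | h
    · exact twoOdd_of_odd ha hb hab hs h
    · exact twoOdd_of_factors ha hb hab hsep h
  have hc2 : ∀ σ, c 1 σ + c 1 σ = 0 := fun σ => by
    rw [← two_nsmul, hc.tc.two 0 σ, hc.tc.zero]
  obtain ⟨t0, t1, a0, a1, n0, n1, e0, e1, k0, k1⟩ := kummer_rep _ (hE (Sep F)) (hc.tc.coc 1) hc2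
  have ha0 : a0 ≠ 0 := by
    rintro rfl
    rw [map_zero] at e0
    exact pow_ne_zero 2 n0 e0
  have ha1 : a1 ≠ 0 := by
    rintro rfl
    rw [map_zero] at e1
    exact pow_ne_zero 2 n1 e1
  have hls : LSg k' (crv (algebraMap k[X] K a) (algebraMap k[X] K b)) (algebraMap k[X] K a)
      (algebraMap k[X] K b) a0 a1 :=
    ⟨fun v => loc_rep _ (hE _) hc2 ((hc.loc 1).1 v) n0 n1 e0 e1 k0 k1,
      loc_rep _ (hE _) hc2 (hc.loc 1).2 n0 n1 e0 e1 k0 k1⟩
  have hfix : FixedMod (crv (algebraMap k[X] K a) (algebraMap k[X] K b)) (algebraMap k[X] K a)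
      (algebraMap k[X] K b) (Sep F) a0 a1 :=
    fixed_rep _ (hE _) (preserves hT.map) (noFour (k' := k') hT.map h2 ha hb hab hco ho) hc.tc
      hc.inv n0 n1 e0 e1 k0 k1
  have hEK := isE (algebraMap k[X] K a) (algebraMap k[X] K b) K h2K haK hbK habK
  obtain ⟨t, ht, q0, q1⟩ := triple_of hT h2 ha hb hab hco hsep hodd
    (mul_ne_zero ha0 ((_root_.map_ne_zero (algebraMap K F)).2 (d0_ne hEK T)))
    (mul_ne_zero ha1 ((_root_.map_ne_zero (algebraMap K F)).2 (d1_ne hEK T)))
    ⟨fun v => (hls.1 v).mul h2K haK hbK habK (locSol_pt h2K haK hbK habK T),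
      hls.2.mul h2K haK hbK habK (locSol_pt h2K haK hbK habK T)⟩
    (hfix.mul h2K haK hbK habK (fixed_pt T))
  exact ⟨t, ht, a0, a1, ha0, ha1, ⟨t0, t1, n0, n1, e0, e1, k0, k1⟩, q0, q1⟩

/-- Independence modulo two and modulo the classes of the points of order two. -/
def Indep {K F : Type} [Field K] [Field F] [Algebra K F] {α β : K} {m : ℕ}
    (e : Fin m → ℕ → (Sep F ≃ₐ[F] Sep F) → Pt (crv α β) (Sep F)) : Prop :=
  ∀ z : Fin m → ℤ, (∃ i, Odd (z i)) → ∀ T : Pt (crv α β) K, T + T = 0 → ¬ Van (comb e z 1) T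

include hT h2 ha hb hab hco hsep hodd in
theorem indep_le {d : ℕ} (hd : (Triples a b).encard ≤ 2 ^ (d + 2)) {m : ℕ}
    {e : Fin m → ℕ → (Sep F ≃ₐ[F] Sep F) →
      Pt (crv (algebraMap k[X] K a) (algebraMap k[X] K b)) (Sep F)}
    (he : ∀ i, IsTateClass k' (crv (algebraMap k[X] K a) (algebraMap k[X] K b)) (e i))
    (hi : Indep e) : m ≤ d := by
  haveI := hT.sep
  haveI := hT.fracK
  have h2K : (2 : K) ≠ 0 := tt h2
  have inj := IsFractionRing.injective k[X] K
  have haK : algebraMap k[X] K a ≠ 0 := by simpa using ha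
  have hbK : algebraMap k[X] K b ≠ 0 := by simpa using hb
  have habK : algebraMap k[X] K a ≠ algebraMap k[X] K b := fun h => hab (inj h)
  have hEK := isE (algebraMap k[X] K a) (algebraMap k[X] K b) K h2K haK hbK habK
  obtain ⟨T, hTinj, hT2⟩ := four_pts h2K haK hbK habK
  let zz : (Fin m → Fin 2) → Fin m → ℤ := fun x i => ((x i : ℕ) : ℤ)
  have hcl : ∀ x : Fin m → Fin 2, IsTateClass k'
      (crv (algebraMap k[X] K a) (algebraMap k[X] K b)) (comb e (zz x)) :=
    fun x => IsTateClass.comb he (zz x)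
  have tri := fun x : (Fin m → Fin 2) × Fin 4 =>
    triple_cls hT h2 ha hb hab hco hsep hodd (hcl x.1) (T x.2)
  choose Ψ hΨ1 a0 a1 hn0 hn1 hrep hΨ2 hΨ3 using tri
  have hΨinj : Function.Injective Ψ := by
    rintro ⟨x, i⟩ ⟨x', i'⟩ h
    have q0 := (hΨ2 (x, i)).trans ((SqEq.of_eq (by rw [h])).trans (hΨ2 (x', i')).symm)
    have q1 := (hΨ3 (x, i)).trans ((SqEq.of_eq (by rw [h])).trans (hΨ3 (x', i')).symm)
    obtain ⟨f0, f1⟩ := d_add' hT h2 ha hb hab (T i) (T i')
    have hx2 : ∀ (y : Fin m → Fin 2) σ, comb e (zz y) 1 σ + comb e (zz y) 1 σ = 0 :=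
      fun y σ => by rw [← two_nsmul, (hcl y).tc.two 0 σ, (hcl y).tc.zero]
    have hR := Rep.add h2K haK hbK habK (hx2 x) (hx2 x') (hrep (x, i)) (hrep (x', i'))
    -- transfer
    have cross : ∀ {u v s t : F}, u ≠ 0 → v ≠ 0 → s ≠ 0 → t ≠ 0 → SqEq (u * s) (v * t) →
        SqEq (u * v) (s * t) := by
      rintro u v s t hu hv hs ht ⟨c, hc, e⟩
      refine ⟨c * v / s, div_ne_zero (mul_ne_zero hc hv) hs, ?_⟩
      field_simp
      linear_combination e
    have s0' := cross (hn0 (x, i)) (hn0 (x', i'))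
      ((_root_.map_ne_zero (algebraMap K F)).2 (d0_ne hEK (T i)))
      ((_root_.map_ne_zero (algebraMap K F)).2 (d0_ne hEK (T i'))) q0
    have s1' := cross (hn1 (x, i)) (hn1 (x', i'))
      ((_root_.map_ne_zero (algebraMap K F)).2 (d1_ne hEK (T i)))
      ((_root_.map_ne_zero (algebraMap K F)).2 (d1_ne hEK (T i'))) q1
    have hTT : (T i + T i') + (T i + T i') = 0 := by
      rw [add_add_add_comm, hT2, hT2, add_zero]
    have g0 : SqEq (a0 (x, i) * a0 (x', i'))
        (algebraMap K F (d0 (algebraMap k[X] K a) (algebraMap k[X] K b) (T i + T i'))) := by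
      refine s0'.trans ?_
      rw [← map_mul]
      exact f0.symm.map
    have g1 : SqEq (a1 (x, i) * a1 (x', i'))
        (algebraMap K F (d1 (algebraMap k[X] K a) (algebraMap k[X] K b) (T i + T i'))) := by
      refine s1'.trans ?_
      rw [← map_mul]
      exact f1.symm.map
    have hcomb : (fun σ => comb e (zz x) 1 σ + comb e (zz x') 1 σ) =
        comb e (fun i => zz x i + zz x' i) 1 := by
      funext σ
      show ∑ i, zz x i • e i 1 σ + ∑ i, zz x' i • e i 1 σ =
        ∑ i, (zz x i + zz x' i) • e i 1 σ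
      rw [← Finset.sum_add_distrib]
      exact Finset.sum_congr rfl fun i _ => (add_smul _ _ _).symm
    rw [hcomb] at hR
    have hxx : x = x' := by
      by_contra hne
      obtain ⟨j, hj⟩ := Function.ne_iff.1 hne
      refine hi (fun i => zz x i + zz x' i) ⟨j, ?_⟩ (T i + T i') hTT ⟨_, _, hR, g0, g1⟩
      show Odd (((x j : ℕ) : ℤ) + ((x' j : ℕ) : ℤ))
      have : ∀ u v : Fin 2, u ≠ v → Odd (((u : ℕ) : ℤ) + ((v : ℕ) : ℤ)) := by decide
      exact this _ _ hj
    subst hxx
    -- the points of order two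
    have hzero : ∀ σ, comb e (fun i => zz x i + zz x i) 1 σ = 0 := by
      intro σ
      rw [← hcomb]
      exact hx2 x σ
    obtain ⟨t0, t1, m0, m1, e0, e1, k0, k1⟩ := hR
    have fixed_sq : ∀ {t : Sep F} {y : F}, t ≠ 0 → t ^ 2 = algebraMap F (Sep F) y →
        (∀ σ : Sep F ≃ₐ[F] Sep F, σ t = t) → SqEq y 1 := by
      intro t y ht hy hσ
      have hmem : t ∈ Set.range (algebraMap F (Sep F)) := by
        rw [InfiniteGalois.mem_range_algebraMap_iff_fixed]
        exact hσ
      obtain ⟨r, rfl⟩ := hmem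
      refine ⟨r, fun h => ht (by rw [h, map_zero]), ?_⟩
      rw [← map_pow] at hy
      rw [mul_one]
      exact ((algebraMap F (Sep F)).injective hy).symm
    have o0 : SqEq (a0 (x, i) * a0 (x, i')) 1 := fixed_sq m0 e0 (fun σ => by
      rw [k0, hzero]
      simp [s0, Point.zero_def])
    have o1 : SqEq (a1 (x, i) * a1 (x, i')) 1 := fixed_sq m1 e1 (fun σ => by
      rw [k1, hzero]
      simp [s1, Point.zero_def])
    obtain ⟨Q, hQ⟩ := half_K hT h2 ha hb hab hco hsep hodd (T i + T i') (g0.symm.trans o0)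
      (g1.symm.trans o1)
    have h8 : T i + T i' = 0 := by
      rw [← hQ]
      apply noFourK (F := F) hT h2 ha hb hab hco hsep hodd
      rw [hQ, hTT]
    have h9 : T i = T i' := by
      have : T i' = -T i' := (neg_eq_of_add_eq_zero_left (hT2 i')).symm
      rw [this]
      exact eq_neg_of_add_eq_zero_left h8
    rw [hTinj h9]
  have hcard : (Set.range Ψ).encard = 2 ^ (m + 2) := by
    rw [← Set.image_univ, hΨinj.encard_image, Set.encard_univ]
    rw [ENat.card_eq_coe_fintype_card, Fintype.card_prod, Fintype.card_fun, Fintype.card_fin,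
      Fintype.card_fin, Fintype.card_fin]
    push_cast
    rw [pow_add]
    norm_num
  have hle : (2 : ℕ∞) ^ (m + 2) ≤ 2 ^ (d + 2) := by
    rw [← hcard]
    refine (Set.encard_le_encard ?_).trans hd
    rintro _ ⟨x, rfl⟩
    exact hΨ1 x
  have hle' : 2 ^ (m + 2) ≤ 2 ^ (d + 2) := by exact_mod_cast hle
  have := (Nat.pow_le_pow_iff_right (by norm_num : 1 < 2)).1 hle'
  omega

include hT h2 ha hb hab hco hsep hodd in
/-- The bound. -/
theorem bound {d : ℕ} (hd : (Triples a b).encard ≤ 2 ^ (d + 2)) :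
    GeneratedBy (F := F) k' (crv (algebraMap k[X] K a) (algebraMap k[X] K b)) d := by
  haveI := hT.sep
  haveI := hT.fracK
  have h2K : (2 : K) ≠ 0 := tt h2
  have inj := IsFractionRing.injective k[X] K
  have haK : algebraMap k[X] K a ≠ 0 := by simpa using ha
  have hbK : algebraMap k[X] K b ≠ 0 := by simpa using hb
  have habK : algebraMap k[X] K a ≠ algebraMap k[X] K b := fun h => hab (inj h)
  let Good : ℕ → Prop := fun m => ∃ e : Fin m → ℕ → (Sep F ≃ₐ[F] Sep F) →
      Pt (crv (algebraMap k[X] K a) (algebraMap k[X] K b)) (Sep F),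
    (∀ i, IsTateClass k' (crv (algebraMap k[X] K a) (algebraMap k[X] K b)) (e i)) ∧ Indep e
  have good0 : Good 0 := ⟨fun i => i.elim0, fun i => i.elim0, fun z ⟨i, _⟩ => i.elim0⟩
  have goodle : ∀ m, Good m → m ≤ d := by
    rintro m ⟨e, he, hi⟩
    exact indep_le hT h2 ha hb hab hco hsep hodd hd he hi
  obtain ⟨m, hm, hm1⟩ : ∃ m, Good m ∧ ¬ Good (m + 1) := by
    by_contra hcon
    push Not at hcon
    have all : ∀ m, Good m := fun m => Nat.rec good0 (fun m ih => hcon m ih) m
    have := goodle _ (all (d + 1))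
    omega
  obtain ⟨e, he, hi⟩ := hm
  -- every class is a combination modulo two
  have key : ∀ c, IsTateClass k' (crv (algebraMap k[X] K a) (algebraMap k[X] K b)) c →
      ∃ (z : Fin m → ℤ) (T : Pt (crv (algebraMap k[X] K a) (algebraMap k[X] K b)) K),
        T + T = 0 ∧ Van (fun σ => c 1 σ + comb e z 1 σ) T := by
    intro c hc
    by_contra hcon
    push Not at hcon
    apply hm1
    refine ⟨Fin.cons c e, fun i => ?_, ?_⟩
    · refine Fin.cases ?_ (fun i => ?_) i
      · exact hc
      · exact he i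
    · intro z hz T hTT hV
      have hc2 : ∀ σ, c 1 σ + c 1 σ = 0 := fun σ => by
        rw [← two_nsmul, hc.tc.two 0 σ, hc.tc.zero]
      have hsplit : comb (Fin.cons c e) z 1 =
          fun σ => z 0 • c 1 σ + comb e (fun i => z i.succ) 1 σ := by
        funext σ
        show ∑ i, z i • (Fin.cons c e : Fin (m + 1) → _) i 1 σ = _
        rw [Fin.sum_univ_succ]
        rfl
      have hc2' : ∀ σ, (2 : ℤ) • c 1 σ = 0 := fun σ => by rw [two_zsmul]; exact hc2 σ
      rcases Int.even_or_odd (z 0) with h0 | h0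
      · obtain ⟨w, hw⟩ := h0
        have h3 : ∀ σ, z 0 • c 1 σ = 0 := fun σ => by
          rw [hw, ← two_mul, mul_comm, mul_smul, hc2', smul_zero]
        simp only [h3, zero_add] at hsplit
        rw [hsplit] at hV
        obtain ⟨j, hj⟩ := hz
        refine hi (fun i => z i.succ) ?_ T hTT hV
        refine Fin.cases (motive := fun j => Odd (z j) → ∃ i : Fin m, Odd (z i.succ)) ?_ ?_ j hj
        · intro h4
          exfalso
          rw [← Int.not_even_iff_odd] at h4
          exact h4 ⟨w, hw⟩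
        · intro i h4
          exact ⟨i, h4⟩
      · obtain ⟨w, hw⟩ := h0
        have h3 : ∀ σ, z 0 • c 1 σ = c 1 σ := fun σ => by
          rw [hw, add_smul, mul_comm, mul_smul, hc2', smul_zero, zero_add, one_smul]
        simp only [h3] at hsplit
        rw [hsplit] at hV
        exact hcon _ T hTT hV
  refine ⟨m, e, goodle m ⟨e, he, hi⟩, he, fun c hc n => ?_⟩
  -- successive approximation
  have approx : ∀ (j : ℕ) (c : ℕ → (Sep F ≃ₐ[F] Sep F) →
      Pt (crv (algebraMap k[X] K a) (algebraMap k[X] K b)) (Sep F)),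
      IsTateClass k' (crv (algebraMap k[X] K a) (algebraMap k[X] K b)) c →
      ∃ (z : Fin m → ℤ) (c' : ℕ → (Sep F ≃ₐ[F] Sep F) →
        Pt (crv (algebraMap k[X] K a) (algebraMap k[X] K b)) (Sep F)) (R : ℕ → _),
        IsTateClass k' (crv (algebraMap k[X] K a) (algebraMap k[X] K b)) c' ∧
        (∀ n, 2 ^ (n + 1) • R n = 0) ∧
        ∀ n σ, c n σ = comb e z n σ + 2 ^ j • c' n σ +
          (act (crv (algebraMap k[X] K a) (algebraMap k[X] K b)) (rs K σ) (R n) - R n) := by
    intro j
    induction j with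
    | zero =>
      intro c hc
      refine ⟨fun _ => 0, c, fun _ => 0, hc, fun n => smul_zero _, fun n σ => ?_⟩
      have : comb e (fun _ => 0) n σ = 0 := by
        show ∑ i, (0 : ℤ) • e i n σ = 0
        simp
      rw [this, map_zero, pow_zero, one_smul]
      abel
    | succ j ih =>
      intro c hc
      obtain ⟨z, c', R, hc', hR, hcc⟩ := ih c hc
      obtain ⟨y, T, hTT, hV⟩ := key c' hc'
      obtain ⟨c'', hc'', H, hH, hstep⟩ := tate_step h2K haK hbK habK
        (hc'.add (IsTateClass.comb he y)) hV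
      refine ⟨fun i => z i - 2 ^ j * y i, c'', fun n => R n + 2 ^ j • H n, hc'', fun n => ?_,
        fun n σ => ?_⟩
      · show 2 ^ (n + 1) • (R n + 2 ^ j • H n) = 0
        rw [smul_add, hR, zero_add, smul_comm, pow_succ', mul_smul, hH, two_nsmul, ← map_add, hTT,
          map_zero, smul_zero]
      · have h3 : c' n σ = 2 • c'' n σ + (act (crv (algebraMap k[X] K a) (algebraMap k[X] K b))
            (rs K σ) (H n) - H n) - comb e y n σ := by
          have := hstep n σ
          have h4 : c' n σ + comb e y n σ = 2 • c'' n σ +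
            (act (crv (algebraMap k[X] K a) (algebraMap k[X] K b)) (rs K σ) (H n) - H n) := this
          rw [← h4]; abel
        have h5 : comb e (fun i => z i - 2 ^ j * y i) n σ =
            comb e z n σ - 2 ^ j • comb e y n σ := by
          show ∑ i, (z i - 2 ^ j * y i) • e i n σ = ∑ i, z i • e i n σ -
            2 ^ j • ∑ i, y i • e i n σ
          rw [Finset.smul_sum, ← Finset.sum_sub_distrib]
          refine Finset.sum_congr rfl fun i _ => ?_
          rw [sub_smul, mul_smul, ← natCast_zsmul]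
          push_cast
          rfl
        beta_reduce
        rw [hcc n σ, h3, h5, map_add, map_nsmul, smul_sub, smul_add, smul_sub]
        have h6 : 2 ^ j • 2 • c'' n σ = 2 ^ (j + 1) • c'' n σ := by
          rw [← mul_smul, pow_succ]
        rw [h6]
        generalize 2 ^ j • H n = X1
        generalize 2 ^ j • comb e y n σ = X2
        generalize 2 ^ j • (act (crv (algebraMap k[X] K a) (algebraMap k[X] K b))
          (rs K σ)) (H n) = X3
        abel
  obtain ⟨z, c', R, hc', hR, hcc⟩ := approx n c hc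
  have hpow : ∀ (n : ℕ) σ, 2 ^ n • c' n σ = 0 := by
    intro n σ
    induction n with
    | zero => rw [hc'.tc.zero, smul_zero]
    | succ n ih => rw [pow_succ, mul_smul, hc'.tc.two, ih]
  refine ⟨z, R n, hR n, fun σ => ?_⟩
  rw [hcc n σ, hpow, add_zero]
  rfl

end core

end Pool.Agent.TH115.GD
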