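import Pool.Agent.TH115.GD.Gal
import Pool.Agent.W309.TD.Kum

/-!
Kummer theory for cocycles of `Gal(Ω / F)` with values in the points of order two of a curve over a
subfield `K` of `F`.
-/

set_option autoImplicit false
set_option linter.all false

open WeierstrassCurve WeierstrassCurve.Affine
open scoped Classical Pointwise

namespace Pool.Agent.TH115.GD

open Pool.Agent.W309.TD (locConst_apply exists_root compare)

universe u

section cocycle

variable {K F Ω : Type u} [Field K] [Field F] [Field Ω] [Algebra K F] [Algebra F Ω] [Algebra K Ω]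
  [IsScalarTower K F Ω] [IsGalois F Ω] (W : WeierstrassCurve K) {a b : K}

/-- Coboundaries. -/
def IsCob (f : (Ω ≃ₐ[F] Ω) → Pt W Ω) : Prop := ∃ Q : Pt W Ω, ∀ σ, f σ = act W (rs K σ) Q - Q

theorem act_locConst (P : Pt W Ω) :
    IsLocallyConstant (fun σ : Ω ≃ₐ[F] Ω => act W (rs K σ) P) := by
  rw [IsLocallyConstant.iff_exists_open]
  intro σ
  rcases P with _ | ⟨x, y, hxy⟩
  · exact ⟨Set.univ, isOpen_univ, trivial, fun τ _ => by rw [act_zero, act_zero]⟩
  · obtain ⟨U, hU, hσU, hUx⟩ := (IsLocallyConstant.iff_exists_open _).1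
      (locConst_apply (K := F) x) σ
    obtain ⟨V, hV, hσV, hVy⟩ := (IsLocallyConstant.iff_exists_open _).1
      (locConst_apply (K := F) y) σ
    refine ⟨U ∩ V, hU.inter hV, ⟨hσU, hσV⟩, fun τ hτ => ?_⟩
    obtain ⟨h, hh⟩ := act_some W (rs K τ) hxy
    obtain ⟨h', hh'⟩ := act_some W (rs K σ) hxy
    have e1 : (rs K τ) x = (rs K σ) x := hUx τ hτ.1
    have e2 : (rs K τ) y = (rs K σ) y := hVy τ hτ.2
    rw [hh, hh']
    simp only [e1, e2]

theorem cob_isCoc (Q : Pt W Ω) : IsCoc W (fun σ : Ω ≃ₐ[F] Ω => act W (rs K σ) Q - Q) := by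
  refine ⟨?_, fun σ τ => ?_⟩
  · exact (act_locConst W Q).comp (fun P => P - Q)
  · show act W (rs K (σ * τ)) Q - Q = act W (rs K σ) Q - Q + act W (rs K σ) (act W (rs K τ) Q - Q)
    rw [map_sub, act_act, rs_mul]
    abel

theorem IsCoc.sub {f f' : (Ω ≃ₐ[F] Ω) → Pt W Ω} (h : IsCoc W f) (h' : IsCoc W f') :
    IsCoc W (fun σ => f σ - f' σ) := by
  refine ⟨?_, fun σ τ => ?_⟩
  · exact h.lc.comp₂ h'.lc (fun a b => a - b)
  · show f (σ * τ) - f' (σ * τ) = f σ - f' σ + act W (rs K σ) (f τ - f' τ)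
    rw [h.mul, h'.mul, map_sub]
    abel

variable (hL : IsE (W.baseChange Ω).toAffine (algebraMap K Ω a) (algebraMap K Ω b))

include hL

omit [IsGalois F Ω] in
/-- The points of order two are rational. -/
theorem act_tor (φ : Ω →ₐ[K] Ω) {T : Pt W Ω} (hT : T + T = 0) : act W φ T = T := by
  apply tor_ext hL ((two_act W φ T).2 hT) hT
  · rw [s0_act]
    rcases s0_sq T with h | h <;> rw [h] <;> simp
  · have h1 := s1_act W φ (algebraMap K Ω a) T
    rw [φ.commutes] at h1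
    rw [h1]
    rcases s1_sq (algebraMap K Ω a) T with h | h <;> rw [h] <;> simp

omit [IsGalois F Ω] in
theorem s_add [IsSepClosed Ω] {S T : Pt W Ω} (hS : S + S = 0) (hT : T + T = 0) :
    s0 (S + T) = s0 S * s0 T ∧
      s1 (algebraMap K Ω a) (S + T) = s1 (algebraMap K Ω a) S * s1 (algebraMap K Ω a) T := by
  have hn : (W.baseChange Ω).toAffine.Nonsingular 0 0 := hL.nonsingular.2 (by ring)
  obtain ⟨P, hP⟩ := halve_sep hL (Point.some 0 0 hn)
  have hP0 : P + P ≠ 0 := by rw [hP]; exact Point.some_ne_zero _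
  have hPS : (P + S) + (P + S) = P + P := by rw [add_add_add_comm, hS, add_zero]
  have hST : (S + T) + (S + T) = 0 := by rw [add_add_add_comm, hS, hT, add_zero]
  obtain ⟨a0, a1⟩ := h_translate hL (P := P) hS (fun h => absurd h hP0)
  obtain ⟨b0, b1⟩ := h_translate hL (P := P + S) hT (fun h => absurd (hPS.symm.trans h) hP0)
  obtain ⟨c0, c1⟩ := h_translate hL (P := P) hST (fun h => absurd h hP0)
  have n0 := h0_ne hL P
  have n1 := h1_ne hL P
  rw [add_assoc, a0, c0] at b0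
  rw [add_assoc, a1, c1] at b1
  constructor
  · apply mul_right_cancel₀ n0
    rw [b0]; ring
  · apply mul_right_cancel₀ n1
    rw [b1]; ring

/-- Square roots attached to a cocycle with values in the points of order two. -/
theorem kummer_rep [IsSepClosed Ω] {f : (Ω ≃ₐ[F] Ω) → Pt W Ω} (hf : IsCoc W f)
    (hf2 : ∀ σ, f σ + f σ = 0) :
    ∃ (t0 t1 : Ω) (a0 a1 : F), t0 ≠ 0 ∧ t1 ≠ 0 ∧ t0 ^ 2 = algebraMap F Ω a0 ∧
      t1 ^ 2 = algebraMap F Ω a1 ∧ (∀ σ, σ t0 = s0 (f σ) * t0) ∧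
      ∀ σ, σ t1 = s1 (algebraMap K Ω a) (f σ) * t1 := by
  have hadd : ∀ σ τ, f (σ * τ) = f σ + f τ := fun σ τ => by
    rw [hf.mul, act_tor W hL _ (hf2 τ)]
  obtain ⟨t0, a0, h1, h2, h3⟩ := exists_root (K := F) hL.two (fun σ => s0 (f σ))
    (fun σ => s0_sq _) (fun σ τ => by
      show s0 (f (σ * τ)) = s0 (f σ) * s0 (f τ)
      rw [hadd, (s_add W hL (hf2 σ) (hf2 τ)).1]) (hf.lc.comp s0)
  obtain ⟨t1, a1, k1, k2, k3⟩ := exists_root (K := F) hL.two
    (fun σ => s1 (algebraMap K Ω a) (f σ))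
    (fun σ => s1_sq _ _) (fun σ τ => by
      show s1 (algebraMap K Ω a) (f (σ * τ)) = s1 (algebraMap K Ω a) (f σ) *
        s1 (algebraMap K Ω a) (f τ)
      rw [hadd, (s_add W hL (hf2 σ) (hf2 τ)).2]) (hf.lc.comp (s1 (algebraMap K Ω a)))
  exact ⟨t0, t1, a0, a1, h1, k1, h2, k2, h3, k3⟩

omit [IsGalois F Ω] in
/-- The square roots of the coordinates of a point with rational double. -/
theorem sign_half {H : Pt W Ω} (hH : ∀ σ : Ω ≃ₐ[F] Ω, act W (rs K σ) (H + H) = H + H)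
    (σ : Ω ≃ₐ[F] Ω) :
    (act W (rs K σ) H - H) + (act W (rs K σ) H - H) = 0 ∧
    σ (h0 (algebraMap K Ω a) (algebraMap K Ω b) H) = s0 (act W (rs K σ) H - H) *
      h0 (algebraMap K Ω a) (algebraMap K Ω b) H ∧
    σ (h1 (algebraMap K Ω a) (algebraMap K Ω b) H) =
      s1 (algebraMap K Ω a) (act W (rs K σ) H - H) *
      h1 (algebraMap K Ω a) (algebraMap K Ω b) H := by
  set T := act W (rs K σ) H - H with hT
  have hTT : T + T = 0 := by
    have := hH σ
    rw [map_add] at this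
    rw [hT, sub_add_sub_comm, this, sub_self]
  have hTH : act W (rs K σ) H = H + T := by rw [hT]; abel
  have hPT : H + H = 0 → T = 0 := by
    intro h
    rw [hT, act_tor W hL _ h, sub_self]
  obtain ⟨a0, a1⟩ := h_translate hL (P := H) hTT hPT
  rw [← hTH] at a0 a1
  have m0 := h0_act W (rs K σ) (algebraMap K Ω a) (algebraMap K Ω b) H
  have m1 := h1_act W (rs K σ) (algebraMap K Ω a) (algebraMap K Ω b) H
  rw [(rs K σ).commutes, (rs K σ).commutes, a0] at m0
  rw [(rs K σ).commutes, (rs K σ).commutes, a1] at m1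
  exact ⟨hTT, m0.symm, m1.symm⟩

omit [IsGalois F Ω] in
/-- If the square roots are those of a half `H` of a point over `F`, the cocycle is the coboundary
of `H`. -/
theorem cob_of_rep {f : (Ω ≃ₐ[F] Ω) → Pt W Ω}
    (hf2 : ∀ σ, f σ + f σ = 0) {t0 t1 : Ω} (n0 : t0 ≠ 0) (n1 : t1 ≠ 0)
    (k0 : ∀ σ, σ t0 = s0 (f σ) * t0) (k1 : ∀ σ, σ t1 = s1 (algebraMap K Ω a) (f σ) * t1)
    {H : Pt W Ω} (hH : ∀ σ : Ω ≃ₐ[F] Ω, act W (rs K σ) (H + H) = H + H) {c0 c1 : F}
    (e0 : t0 ^ 2 = algebraMap F Ω c0 ^ 2 * d0 (algebraMap K Ω a) (algebraMap K Ω b) (H + H))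
    (e1 : t1 ^ 2 = algebraMap F Ω c1 ^ 2 * d1 (algebraMap K Ω a) (algebraMap K Ω b) (H + H))
    (σ : Ω ≃ₐ[F] Ω) :
    f σ = act W (rs K σ) H - H := by
  obtain ⟨hTT, m0, m1⟩ := sign_half W hL hH σ
  rw [← h0_sq hL] at e0
  rw [← h1_sq hL] at e1
  apply tor_ext hL (hf2 σ) hTT
  · rw [← mul_pow] at e0
    have key : σ t0 = s0 (act W (rs K σ) H - H) * t0 := by
      rcases sq_eq_sq_iff_eq_or_eq_neg.1 e0 with h | h
      · rw [h, map_mul, σ.commutes, m0]; ring
      · rw [h, map_neg, map_mul, σ.commutes, m0]; ring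
    rw [k0] at key
    exact mul_right_cancel₀ n0 key
  · rw [← mul_pow] at e1
    have key : σ t1 = s1 (algebraMap K Ω a) (act W (rs K σ) H - H) * t1 := by
      rcases sq_eq_sq_iff_eq_or_eq_neg.1 e1 with h | h
      · rw [h, map_mul, σ.commutes, m1]; ring
      · rw [h, map_neg, map_mul, σ.commutes, m1]; ring
    rw [k1] at key
    exact mul_right_cancel₀ n1 key

/-- The coordinates modulo squares are additive. -/
theorem d_add [IsSepClosed Ω] (P P' : Pt W F) : ∃ u0 u1 : F, u0 ≠ 0 ∧ u1 ≠ 0 ∧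
    d0 (algebraMap K F a) (algebraMap K F b) (P + P') = u0 ^ 2 *
      (d0 (algebraMap K F a) (algebraMap K F b) P * d0 (algebraMap K F a) (algebraMap K F b) P') ∧
    d1 (algebraMap K F a) (algebraMap K F b) (P + P') = u1 ^ 2 *
      (d1 (algebraMap K F a) (algebraMap K F b) P * d1 (algebraMap K F a) (algebraMap K F b) P')
    := by
  obtain ⟨H, hH⟩ := halve_sep hL (act W (incl K F Ω) P)
  obtain ⟨H', hH'⟩ := halve_sep hL (act W (incl K F Ω) P')
  have f1 : ∀ σ : Ω ≃ₐ[F] Ω, act W (rs K σ) (H + H) = H + H := fun σ => by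
    rw [hH]; exact rs_act_incl W σ P
  have f2 : ∀ σ : Ω ≃ₐ[F] Ω, act W (rs K σ) (H' + H') = H' + H' := fun σ => by
    rw [hH']; exact rs_act_incl W σ P'
  have hHH : (H + H') + (H + H') = act W (incl K F Ω) (P + P') := by
    rw [add_add_add_comm, hH, hH', map_add]
  have f3 : ∀ σ : Ω ≃ₐ[F] Ω, act W (rs K σ) ((H + H') + (H + H')) = (H + H') + (H + H') :=
    fun σ => by rw [hHH]; exact rs_act_incl W σ _
  set A := algebraMap K Ω a with hA
  set B := algebraMap K Ω b with hB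
  have ga : incl K F Ω (algebraMap K F a) = A := (IsScalarTower.algebraMap_apply K F Ω a).symm
  have gb : incl K F Ω (algebraMap K F b) = B := (IsScalarTower.algebraMap_apply K F Ω b).symm
  have split : ∀ σ : Ω ≃ₐ[F] Ω, act W (rs K σ) (H + H') - (H + H') =
      (act W (rs K σ) H - H) + (act W (rs K σ) H' - H') := by
    intro σ; rw [map_add]; abel
  obtain ⟨u0, hu0, q0⟩ := compare (K := F) (h0_ne hL (H + H'))
    (mul_ne_zero (h0_ne hL H) (h0_ne hL H')) (fun σ => s0 (act W (rs K σ) (H + H') - (H + H')))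
    (fun σ => s0_ne _) (fun σ => (sign_half W hL f3 σ).2.1) (fun σ => by
      rw [map_mul, (sign_half W hL f1 σ).2.1, (sign_half W hL f2 σ).2.1, split,
        (s_add W hL (sign_half W hL f1 σ).1 (sign_half W hL f2 σ).1).1]
      ring)
  obtain ⟨u1, hu1, q1⟩ := compare (K := F) (h1_ne hL (H + H'))
    (mul_ne_zero (h1_ne hL H) (h1_ne hL H')) (fun σ => s1 A (act W (rs K σ) (H + H') - (H + H')))
    (fun σ => s1_ne _ _) (fun σ => (sign_half W hL f3 σ).2.2) (fun σ => by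
      rw [map_mul, (sign_half W hL f1 σ).2.2, (sign_half W hL f2 σ).2.2, split,
        (s_add W hL (sign_half W hL f1 σ).1 (sign_half W hL f2 σ).1).2]
      ring)
  have inj := (algebraMap F Ω).injective
  refine ⟨u0, u1, hu0, hu1, ?_, ?_⟩
  · apply inj
    have e := congrArg (fun x => x ^ 2) q0
    simp only [mul_pow, h0_sq hL, hHH, hH, hH'] at e
    rw [← ga, ← gb, d0_act, d0_act, d0_act] at e
    rw [map_mul, map_pow, map_mul]
    exact e
  · apply inj
    have e := congrArg (fun x => x ^ 2) q1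
    simp only [mul_pow, h1_sq hL, hHH, hH, hH'] at e
    rw [← ga, ← gb, d1_act, d1_act, d1_act] at e
    rw [map_mul, map_pow, map_mul]
    exact e

end cocycle

end Pool.Agent.TH115.GD
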