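import Pool.Agent.TH115.GD.Gal
import Pool.Agent.W309.TD.Arith

/-!
Local analysis of the points of `y ^ 2 = x (x - a) (x - b)` over a valued field.
-/

set_option autoImplicit false
set_option linter.all false

open WeierstrassCurve WeierstrassCurve.Affine
open scoped Classical

namespace Pool.Agent.TH115.GD

section val

variable {F : Type*} [Field F] {Γ : Type*} [LinearOrderedCommGroupWithZero Γ]
  {v : Valuation F Γ} {W : Affine F} {a b : F} (h : IsE W a b) {M : Γ} (hM : IsSquare M)
  (hM0 : M ≠ 0)

include h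

omit h in
theorem sq_one : IsSquare (1 : Γ) := ⟨1, (mul_one 1).symm⟩

omit h in
theorem sq_self (x : Γ) : IsSquare (x * x) := ⟨x, rfl⟩

omit h in
theorem sq_cancel {x y z : Γ} (hz : z ≠ 0) (h : y * y = x * z * z) : IsSquare x := by
  refine ⟨y / z, ?_⟩
  rw [div_mul_div_comm, h, mul_assoc x, mul_div_assoc, div_self (mul_ne_zero hz hz), mul_one]

omit h in
theorem eq_of_lt {x y : F} (h : v (x - y) < M) (hy : v y = M) : v x = M := by
  have : v x = v y := v.map_eq_of_sub_lt (by rw [hy]; exact h)
  rw [this, hy]

omit h in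
theorem sub_eq_one {x y : F} (hx : v x < M) (hy : v y = M) : v (x - y) = M := by
  rw [v.map_sub_swap, v.map_sub_eq_of_lt_left (by rw [hy]; exact hx), hy]

include hM0 in
/-- The points which do not reduce to finite points. -/
theorem large {x y : F} (hxy : W.Nonsingular x y) (ha : v a ≤ M) (hb : v b ≤ M) (hx : M < v x) :
    x ≠ 0 ∧ x ≠ a ∧ IsSquare (v x) ∧ v (x - a) = v x := by
  have he := h.nonsingular.1 hxy
  have hve : v y * v y = v x * v (x - a) * v (x - b) := by
    rw [← map_mul, ← map_mul, ← map_mul, ← he, pow_two]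
  have hx0 : v x ≠ 0 := (lt_trans (zero_lt_iff.2 hM0) hx).ne'
  have e1 : v (x - a) = v x := v.map_sub_eq_of_lt_left (lt_of_le_of_lt ha hx)
  have e2 : v (x - b) = v x := v.map_sub_eq_of_lt_left (lt_of_le_of_lt hb hx)
  refine ⟨fun h0 => hx0 (by rw [h0, map_zero]), fun h0 => ?_, ?_, e1⟩
  · rw [h0, sub_self, map_zero] at e1
    rw [h0] at hx0
    exact hx0 e1.symm
  · rw [e1, e2] at hve
    exact sq_cancel hx0 hve

include hM hM0 in
theorem loc0 (ha : v a = M) (hb : v b = M) (Q : W.Point) : IsSquare (v (d0 a b Q)) := by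
  rcases Q with _ | ⟨x, y, hxy⟩
  · simp only [d0, map_one]; exact sq_one
  simp only [d0]
  split_ifs with x0
  · rw [map_mul, ha, hb]; exact sq_self M
  rcases lt_trichotomy (v x) M with hx | hx | hx
  · have hve : v y * v y = v x * v (x - a) * v (x - b) := by
      rw [← map_mul, ← map_mul, ← map_mul, ← h.nonsingular.1 hxy, pow_two]
    rw [sub_eq_one hx ha, sub_eq_one hx hb] at hve
    exact sq_cancel hM0 hve
  · rw [hx]; exact hM
  · exact (large h hM0 hxy ha.le hb.le hx).2.2.1

include hM hM0 in
theorem loc1 (ha : v a = M) (hb : v b ≤ M) (hab : v (a - b) = M) (Q : W.Point) :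
    IsSquare (v (d1 a b Q)) := by
  rcases Q with _ | ⟨x, y, hxy⟩
  · simp only [d1, map_one]; exact sq_one
  simp only [d1]
  split_ifs with xa
  · rw [map_mul, ha, hab]; exact sq_self M
  have hve : v y * v y = v x * v (x - a) * v (x - b) := by
    rw [← map_mul, ← map_mul, ← map_mul, ← h.nonsingular.1 hxy, pow_two]
  rcases le_or_gt (v x) M with hx | hx
  · have hle : v (x - a) ≤ M := (v.map_sub _ _).trans (max_le hx ha.le)
    rcases hle.eq_or_lt with e | e
    · rw [e]; exact hM
    · have e1 := eq_of_lt e ha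
      have e2 : v (x - b) = M := by
        have h3 : v ((x - b) - (a - b)) < M := by
          have : (x - b) - (a - b) = x - a := by ring
          rw [this]; exact e
        exact eq_of_lt h3 hab
      rw [e1, e2] at hve
      refine sq_cancel (z := M) hM0 (y := v y) ?_
      rw [hve, mul_comm M]
  · obtain ⟨-, -, k, e⟩ := large h hM0 hxy ha.le hb hx
    rw [e]; exact k

include hM hM0 in
theorem locA (ha : v a ≤ M) (hb : v b = M) (hab : v (a - b) = M) (Q : W.Point) :
    IsSquare (v (d0 a b Q * d1 a b Q)) := by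
  have hab' : v (b - a) = M := by rw [v.map_sub_swap]; exact hab
  rcases Q with _ | ⟨x, y, hxy⟩
  · simp only [d0, d1, map_mul, map_one]; exact sq_self 1
  have hve : v y * v y = v x * v (x - a) * v (x - b) := by
    rw [← map_mul, ← map_mul, ← map_mul, ← h.nonsingular.1 hxy, pow_two]
  simp only [d0, d1]
  by_cases x0 : x = 0
  · rw [if_pos x0, if_neg (by rw [x0]; exact Ne.symm h.nea), x0, zero_sub, map_mul, map_mul,
      v.map_neg, hb]
    have e : v a * M * v a = v a * v a * M := mul_right_comm _ _ _
    rw [e]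
    exact (sq_self _).mul hM
  by_cases xa : x = a
  · rw [if_neg x0, if_pos xa, xa, map_mul, map_mul, hab, ← mul_assoc]
    exact (sq_self _).mul hM
  rw [if_neg x0, if_neg xa]
  rcases le_or_gt (v x) M with hx | hx
  · have hle : v (x - b) ≤ M := (v.map_sub _ _).trans (max_le hx hb.le)
    rcases hle.eq_or_lt with e | e
    · rw [e] at hve
      rw [map_mul]
      obtain ⟨m, hm⟩ := hM
      have hm0 : m ≠ 0 := by
        rintro rfl
        exact hM0 (by rw [hm, mul_zero])
      refine sq_cancel (z := m) hm0 (y := v y) ?_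
      rw [hve, hm, mul_assoc (v x * v (x - a))]
    · have e1 := eq_of_lt e hb
      have e2 : v (x - a) = M := by
        have h3 : v ((x - a) - (b - a)) < M := by
          have : (x - a) - (b - a) = x - b := by ring
          rw [this]; exact e
        exact eq_of_lt h3 hab'
      rw [map_mul, e1, e2]; exact sq_self M
  · obtain ⟨-, -, k, e⟩ := large h hM0 hxy ha hb.le hx
    rw [map_mul, e]; exact sq_self _

end val

end Pool.Agent.TH115.GD
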