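import Pool.Agent.TH115.GD.Div

/-!
The criterion in terms of independent points.
-/

set_option autoImplicit false
set_option linter.all false

open Polynomial IsDedekindDomain WeierstrassCurve WeierstrassCurve.Affine
open scoped Classical

namespace Pool.Agent.TH115.GD

section core

variable {k k' K F : Type} [Field k] [Field k'] [Algebra k k'] [Field K] [Algebra k[X] K]
    [Field F] [Algebra k'[X] F] [IsFractionRing k'[X] F] [Algebra K F]

variable (hT : IsTower k k' K F) (h2 : (2 : k) ≠ 0) {a b : k[X]} (ha : a ≠ 0) (hb : b ≠ 0)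
  (hab : a ≠ b) (hco : IsCoprime a b)
  (hsep : ∀ π : k[X], Irreducible π → π ∣ a * b * (a - b) → π.Separable)
  (hodd : Odd (max a.natDegree b.natDegree) ∨ TwoOddFactors a b)

/-- The four points of order two. -/
theorem four_pts {K : Type} [Field K] {α β : K} (h2 : (2 : K) ≠ 0) (hα : α ≠ 0) (hβ : β ≠ 0)
    (hαβ : α ≠ β) : ∃ T : Fin 4 → Pt (crv α β) K, Function.Injective T ∧ ∀ i, T i + T i = 0 := by
  have hE := isE α β K h2 hα hβ hαβ
  have n0 : ((crv α β).baseChange K).toAffine.Nonsingular 0 0 := hE.nonsingular.2 (by ring)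
  have na : ((crv α β).baseChange K).toAffine.Nonsingular (algebraMap K K α) 0 :=
    hE.nonsingular.2 (by ring)
  have nb : ((crv α β).baseChange K).toAffine.Nonsingular (algebraMap K K β) 0 :=
    hE.nonsingular.2 (by ring)
  have e0 := hE.nea
  have e1 := hE.neb
  have e2 := hE.neab
  refine ⟨![0, Point.some 0 0 n0, Point.some _ 0 na, Point.some _ 0 nb], ?_, ?_⟩
  · intro i j hij
    fin_cases i <;> fin_cases j <;>
      simp_all [Point.some.injEq, Point.zero_def] <;>
      first
      | exact absurd hij.symm e0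
      | exact absurd hij.symm e1
      | exact absurd hij.symm e2
      | skip
  · intro i
    fin_cases i
    · exact add_zero 0
    · exact (add_self_eq_zero_iff hE n0).2 rfl
    · exact (add_self_eq_zero_iff hE na).2 rfl
    · exact (add_self_eq_zero_iff hE nb).2 rfl

include hT h2 ha hb hab hco hsep hodd in
theorem noFourK (R : Pt (crv (algebraMap k[X] K a) (algebraMap k[X] K b)) K)
    (hR : (R + R) + (R + R) = 0) : R + R = 0 := by
  haveI := hT.sep
  haveI := hT.fracK
  have hprod : a * b * (a - b) ≠ 0 := mul_ne_zero (mul_ne_zero ha hb) (sub_ne_zero.2 hab)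
  have hs : ((a * b * (a - b)).map (algebraMap k k')).Splits := splits_of_sep hprod hsep
  have ho : TwoOdd k k' a b := by
    rcases hodd with h | h
    · exact twoOdd_of_odd ha hb hab hs h
    · exact twoOdd_of_factors ha hb hab hsep h
  have h4 := noFour (k' := k') (F := F) hT.map h2 ha hb hab hco ho
  apply act_inj _ (incl K K F)
  rw [map_zero, map_add]
  apply h4
  rw [← map_add, ← map_add, hR, map_zero]

include hT h2 ha hb hab hco hsep hodd in
/-- If there are as many independent points as the number of triples allows, then all triples come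
from points. -/
theorem enough_of_rank {d : ℕ} (hd : (Triples a b).encard ≤ 2 ^ (d + 2))
    (P : Fin d → Pt (crv (algebraMap k[X] K a) (algebraMap k[X] K b)) K)
    (hP : ∀ S : Finset (Fin d), S.Nonempty →
      ∀ T Q : Pt (crv (algebraMap k[X] K a) (algebraMap k[X] K b)) K, T + T = 0 →
        ∑ i ∈ S, P i ≠ T + (Q + Q)) :
    EnoughPoints K F a b := by
  haveI := hT.sep
  haveI := hT.fracK
  have h2K : (2 : K) ≠ 0 := tt h2
  have inj := IsFractionRing.injective k[X] K
  have haK : algebraMap k[X] K a ≠ 0 := by simpa using ha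
  have hbK : algebraMap k[X] K b ≠ 0 := by simpa using hb
  have habK : algebraMap k[X] K a ≠ algebraMap k[X] K b := fun h => hab (inj h)
  obtain ⟨T, hTinj, hT2⟩ := four_pts h2K haK hbK habK
  -- the triple of a point
  have tri : ∀ x : Finset (Fin d) × Fin 4, ∃ t ∈ Triples a b,
      SqEq (algebraMap K F (d0 (algebraMap k[X] K a) (algebraMap k[X] K b)
        (∑ i ∈ x.1, P i + T x.2))) (emb k K F (t.1 * t.2.1)) ∧
      SqEq (algebraMap K F (d1 (algebraMap k[X] K a) (algebraMap k[X] K b)
        (∑ i ∈ x.1, P i + T x.2))) (emb k K F (t.1 * t.2.2)) := by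
    intro x
    have hEK := isE (algebraMap k[X] K a) (algebraMap k[X] K b) K h2K haK hbK habK
    exact triple_of hT h2 ha hb hab hco hsep hodd
      ((_root_.map_ne_zero _).2 (d0_ne hEK _)) ((_root_.map_ne_zero _).2 (d1_ne hEK _))
      ⟨fun v => locSol_pt h2K haK hbK habK _, locSol_pt h2K haK hbK habK _⟩ (fixed_pt _)
  choose Ψ hΨ1 hΨ2 hΨ3 using tri
  have hΨinj : Function.Injective Ψ := by
    rintro ⟨S, i⟩ ⟨S', i'⟩ h
    have q0 := (hΨ2 (S, i)).trans ((SqEq.of_eq (by rw [h])).trans (hΨ2 (S', i')).symm)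
    have q1 := (hΨ3 (S, i)).trans ((SqEq.of_eq (by rw [h])).trans (hΨ3 (S', i')).symm)
    set x := ∑ i ∈ S, P i + T i with hx
    set x' := ∑ i ∈ S', P i + T i' with hx'
    obtain ⟨f0, f1⟩ := d_add' hT h2 ha hb hab x x'
    have hEK := isE (algebraMap k[X] K a) (algebraMap k[X] K b) K h2K haK hbK habK
    have sq : ∀ {y z : F}, z ≠ 0 → SqEq y z → SqEq (y * z) 1 := by
      rintro y z hz ⟨c, hc, rfl⟩
      exact ⟨c * z, mul_ne_zero hc hz, by ring⟩
    have r0 : SqEq (algebraMap K F (d0 (algebraMap k[X] K a) (algebraMap k[X] K b) (x + x')))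
        1 := by
      refine f0.map.trans ?_
      rw [map_mul]
      exact sq ((_root_.map_ne_zero _).2 (d0_ne hEK x')) q0
    have r1 : SqEq (algebraMap K F (d1 (algebraMap k[X] K a) (algebraMap k[X] K b) (x + x')))
        1 := by
      refine f1.map.trans ?_
      rw [map_mul]
      exact sq ((_root_.map_ne_zero _).2 (d1_ne hEK x')) q1
    obtain ⟨Q, hQ⟩ := half_K hT h2 ha hb hab hco hsep hodd (x + x') r0 r1
    have hTT : (T i + T i') + (T i + T i') = 0 := by
      rw [add_add_add_comm, hT2, hT2, add_zero]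
    have hsum : ∑ i ∈ S, P i + ∑ i ∈ S', P i = ∑ i ∈ symmDiff S S', P i +
        (∑ i ∈ S ∩ S', P i + ∑ i ∈ S ∩ S', P i) := by
      have h1 : ∑ i ∈ S, P i = ∑ i ∈ S \ S', P i + ∑ i ∈ S ∩ S', P i := by
        rw [← Finset.sum_sdiff (Finset.inter_subset_left : S ∩ S' ⊆ S),
          Finset.sdiff_inter_self_left]
      have h3 : ∑ i ∈ S', P i = ∑ i ∈ S' \ S, P i + ∑ i ∈ S ∩ S', P i := by
        rw [← Finset.sum_sdiff (Finset.inter_subset_right : S ∩ S' ⊆ S'),
          Finset.sdiff_inter_self_right]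
      have h4 : ∑ i ∈ symmDiff S S', P i = ∑ i ∈ S \ S', P i + ∑ i ∈ S' \ S, P i := by
        rw [symmDiff_def]
        exact Finset.sum_union (disjoint_sdiff_sdiff)
      rw [h1, h3, h4]
      abel
    have hSS : S = S' := by
      by_contra hne
      have hnon : (symmDiff S S').Nonempty := by
        rw [Finset.nonempty_iff_ne_empty, ← Finset.bot_eq_empty, Ne, symmDiff_eq_bot]
        exact hne
      apply hP _ hnon (T i + T i') (Q - ∑ i ∈ S ∩ S', P i) hTT
      have h5 : ∑ i ∈ symmDiff S S', P i = (Q + Q) - (T i + T i') -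
          (∑ i ∈ S ∩ S', P i + ∑ i ∈ S ∩ S', P i) := by
        rw [hQ, hx, hx']
        have : ∑ i ∈ S, P i + T i + (∑ i ∈ S', P i + T i') - (T i + T i') =
            ∑ i ∈ S, P i + ∑ i ∈ S', P i := by abel
        rw [this, hsum]
        abel
      have h6 : -(T i + T i') = T i + T i' := neg_eq_of_add_eq_zero_left hTT
      rw [h5, sub_eq_add_neg (Q + Q), h6]
      abel
    subst hSS
    have h7 : T i + T i' = (Q - ∑ i ∈ S, P i) + (Q - ∑ i ∈ S, P i) := by
      have : Q - ∑ i ∈ S, P i + (Q - ∑ i ∈ S, P i) = (Q + Q) - (∑ i ∈ S, P i + ∑ i ∈ S, P i) := by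
        abel
      rw [this, hQ, hx, hx']
      abel
    have h8 : T i + T i' = 0 := by
      rw [h7]
      apply noFourK (F := F) hT h2 ha hb hab hco hsep hodd
      rw [← h7, hTT]
    have h9 : T i = T i' := by
      have : T i' = -T i' := (neg_eq_of_add_eq_zero_left (hT2 i')).symm
      rw [this]
      exact eq_neg_of_add_eq_zero_left h8
    rw [hTinj h9]
  -- surjectivity
  have hcard : (Set.range Ψ).encard = 2 ^ (d + 2) := by
    rw [← Set.image_univ, hΨinj.encard_image, Set.encard_univ]
    rw [ENat.card_eq_coe_fintype_card, Fintype.card_prod, Fintype.card_finset, Fintype.card_fin,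
      Fintype.card_fin]
    push_cast
    rw [pow_add]
    norm_num
  have hrange : Set.range Ψ = Triples a b := by
    apply (Set.finite_range Ψ).eq_of_subset_of_encard_le
    · rintro _ ⟨x, rfl⟩
      exact hΨ1 x
    · rw [hcard]; exact hd
  intro A B D hA hB hD sA sB sD dA dB dD hinf
  have hmem : (A, B, D) ∈ Triples a b := ⟨hA, hB, hD, sA, sB, sD, dA, dB, dD, hinf⟩
  rw [← hrange] at hmem
  obtain ⟨x, hx⟩ := hmem
  refine ⟨∑ i ∈ x.1, P i + T x.2, ?_, ?_⟩
  · have := hΨ2 x
    rw [hx] at this
    exact this.symm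
  · have := hΨ3 x
    rw [hx] at this
    exact this.symm

end core

end Pool.Agent.TH115.GD
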