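import Pool.Agent.TH115.GD.Ext
import Pool.Agent.TH115.GD.Loc

/-!
Parity of the valuations of the elements of `k'(t)`.
-/

set_option autoImplicit false
set_option linter.all false

open Polynomial IsDedekindDomain
open scoped Classical

namespace Pool.Agent.TH115.GD

open Pool.Agent.W309.TD (isSquare_coe sq_of_nonsq IsSquare.of_mul_left' NoTwo even_rep)

section par

variable {R F : Type} [CommRing R] [IsDedekindDomain R] [Field F] [Algebra R F]
  [IsFractionRing R F]

/-- The parity of the valuation. -/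
noncomputable def par (v : HeightOneSpectrum R) (x : F) : ZMod 2 :=
  if IsSquare (v.valuation F x) then 0 else 1

theorem par_eq_zero {v : HeightOneSpectrum R} {x : F} :
    par v x = 0 ↔ IsSquare (v.valuation F x) := by
  unfold par
  split_ifs with h
  · simp [h]
  · simp [h]

theorem par_mul (v : HeightOneSpectrum R) {x y : F} (hx : x ≠ 0) (hy : y ≠ 0) :
    par v (x * y) = par v x + par v y := by
  have hx0 : v.valuation F x ≠ 0 := (Valuation.ne_zero_iff _).2 hx
  have hy0 : v.valuation F y ≠ 0 := (Valuation.ne_zero_iff _).2 hy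
  unfold par
  rw [map_mul]
  by_cases h1 : IsSquare (v.valuation F x)
  · by_cases h2 : IsSquare (v.valuation F y)
    · rw [if_pos h1, if_pos h2, if_pos (h1.mul h2), add_zero]
    · rw [if_pos h1, if_neg h2, if_neg (fun h3 => h2 (IsSquare.of_mul_left' h1 hx0 h3)), zero_add]
  · by_cases h2 : IsSquare (v.valuation F y)
    · rw [if_neg h1, if_pos h2, if_neg (fun h3 => h1 (IsSquare.of_mul_left' h2 hy0
        (by rwa [mul_comm] at h3))), add_zero]
    · rw [if_neg h1, if_neg h2, if_pos (sq_of_nonsq h1 h2)]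
      decide

theorem par_pow_two (v : HeightOneSpectrum R) {x : F} (hx : x ≠ 0) : par v (x ^ 2) = 0 := by
  rw [par_eq_zero, map_pow, pow_two]
  exact ⟨_, rfl⟩

theorem par_sq (v : HeightOneSpectrum R) {c x : F} (hc : c ≠ 0) (hx : x ≠ 0) :
    par v (c ^ 2 * x) = par v x := by
  rw [par_mul v (pow_ne_zero 2 hc) hx, par_pow_two v hc, zero_add]

theorem par_one (v : HeightOneSpectrum R) : par v (1 : F) = 0 := by
  rw [par_eq_zero, map_one]
  exact ⟨1, (mul_one 1).symm⟩

end par

section place

variable {k' F : Type} [Field k'] [Field F] [Algebra k'[X] F] [IsFractionRing k'[X] F]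

theorem val_poly (θ : k') {p : k'[X]} (hp : p ≠ 0) :
    (pl θ).valuation F (algebraMap k'[X] F p) =
      WithZero.exp (-(rootMultiplicity θ p : ℤ)) := by
  have h0 : (pl θ).valuation F (algebraMap k'[X] F p) = (pl θ).intValuation p :=
    (pl θ).valuation_of_algebraMap p
  rw [h0]
  have key : ∀ n : ℕ, (pl θ).intValuation p ≤ WithZero.exp (-(n : ℤ)) ↔
      n ≤ rootMultiplicity θ p := by
    intro n
    rw [(pl θ).intValuation_le_pow_iff_dvd, le_rootMultiplicity_iff hp]
    show Ideal.span {X - C θ} ^ n ∣ _ ↔ _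
    rw [Ideal.span_singleton_pow, Ideal.dvd_span_singleton, Ideal.mem_span_singleton]
  apply le_antisymm ((key _).2 le_rfl)
  have h1 : ¬ (pl θ).intValuation p ≤ WithZero.exp (-((rootMultiplicity θ p + 1 : ℕ) : ℤ)) := by
    rw [key]; omega
  rw [(pl θ).intValuation_if_neg hp] at h1 ⊢
  rw [WithZero.exp_le_exp] at h1 ⊢
  push_cast at h1 ⊢
  omega

theorem par_poly (θ : k') {p : k'[X]} (hp : p ≠ 0) :
    par (pl θ) (algebraMap k'[X] F p) = (rootMultiplicity θ p : ZMod 2) := by
  unfold par
  rw [val_poly θ hp]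
  have h1 : IsSquare (WithZero.exp (-(rootMultiplicity θ p : ℤ)) :
      WithZero (Multiplicative ℤ)) ↔ Even (rootMultiplicity θ p) := by
    have h2 : IsSquare (((Multiplicative.ofAdd (-(rootMultiplicity θ p : ℤ)) :
      Multiplicative ℤ)) : WithZero (Multiplicative ℤ)) ↔ Even (rootMultiplicity θ p) := by
      rw [isSquare_coe, toAdd_ofAdd, even_neg]
      exact Int.even_coe_nat _
    exact h2
  rw [h1]
  split_ifs with h
  · exact ((ZMod.natCast_eq_zero_iff_even).2 h).symm
  · rw [Nat.not_even_iff_odd] at h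
    exact ((ZMod.natCast_eq_one_iff_odd).2 h).symm

theorem par_div (θ : k') {n d : k'[X]} (hn : n ≠ 0) (hd : d ≠ 0) :
    par (pl θ) (algebraMap k'[X] F n / algebraMap k'[X] F d) =
      (rootMultiplicity θ n : ZMod 2) + (rootMultiplicity θ d : ZMod 2) := by
  have hd' : algebraMap k'[X] F d ≠ 0 := by simpa using hd
  have hn' : algebraMap k'[X] F n ≠ 0 := by simpa using hn
  rw [← par_poly (F := F) θ hn, ← par_poly (F := F) θ hd, ← par_mul _ hn' hd']
  have e : algebraMap k'[X] F n * algebraMap k'[X] F d =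
    (algebraMap k'[X] F d) ^ 2 * (algebraMap k'[X] F n / algebraMap k'[X] F d) := by
    field_simp
  rw [e, par_sq _ hd' (div_ne_zero hn' hd')]

/-- Representation of elements modulo squares. -/
theorem rep [IsSepClosed k'] (h2 : (2 : k') ≠ 0) {a0 : F} (h0 : a0 ≠ 0) (Z : Finset k')
    (h : ∀ v : HeightOneSpectrum k'[X], (∀ θ ∈ Z, v ≠ pl θ) → par v a0 = 0) :
    ∃ c : F, c ≠ 0 ∧ a0 = c ^ 2 * algebraMap k'[X] F
      (∏ θ ∈ Z.filter (fun θ => par (pl θ) a0 = 1), (X - C θ)) := by
  set D := Z.filter (fun θ => par (pl θ) a0 = 1) with hD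
  set q : k'[X] := ∏ θ ∈ D, (X - C θ) with hq
  have hq0 : q ≠ 0 := Finset.prod_ne_zero_iff.2 fun θ _ => X_sub_C_ne_zero θ
  have hqF : algebraMap k'[X] F q ≠ 0 := by simpa using hq0
  have hroot : ∀ θ, rootMultiplicity θ q = if θ ∈ D then 1 else 0 := by
    intro θ
    have h1 : q.roots = D.val := by
      rw [hq, roots_prod_X_sub_C]
    rw [← count_roots, h1]
    split_ifs with hθ
    · exact Multiset.count_eq_one_of_mem D.nodup hθ
    · exact Multiset.count_eq_zero_of_notMem hθ
  have hall : ∀ v : HeightOneSpectrum k'[X],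
      IsSquare (v.valuation F (a0 * algebraMap k'[X] F q)) := by
    intro v
    rw [← par_eq_zero, par_mul v h0 hqF]
    by_cases hv : ∃ θ ∈ Z, v = pl θ
    · obtain ⟨θ, hθ, rfl⟩ := hv
      rw [par_poly θ hq0, hroot]
      by_cases hp : par (pl θ) a0 = 1
      · rw [if_pos (by rw [hD]; exact Finset.mem_filter.2 ⟨hθ, hp⟩), hp]
        decide
      · rw [if_neg (by rw [hD]; exact fun h => hp (Finset.mem_filter.1 h).2), Nat.cast_zero,
          add_zero]
        have : ∀ z : ZMod 2, z ≠ 1 → z = 0 := by decide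
        exact this _ hp
    · push Not at hv
      rw [h v hv, zero_add]
      -- `v` does not divide `q`
      rw [par_eq_zero]
      have h3 : v.valuation F (algebraMap k'[X] F q) = 1 := by
        rw [v.valuation_of_algebraMap, HeightOneSpectrum.intValuation_eq_one_iff]
        intro hmem
        rw [hq] at hmem
        obtain ⟨θ, hθ, hmem⟩ := (v.isPrime.prod_mem_iff).1 hmem
        have hZ : θ ∈ Z := (Finset.mem_filter.1 hθ).1
        apply hv θ hZ
        apply HeightOneSpectrum.ext
        have hle : (pl θ).asIdeal ≤ v.asIdeal := by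
          show Ideal.span {X - C θ} ≤ v.asIdeal
          rw [Ideal.span_singleton_le_iff_mem]; exact hmem
        exact ((pl θ).isMaximal.eq_of_le v.isPrime.ne_top hle).symm
      rw [h3]
      exact ⟨1, (mul_one 1).symm⟩
  obtain ⟨w, s, hs, e⟩ := even_rep (R := k'[X]) (fun I _ => inferInstance)
    (mul_ne_zero h0 hqF) hall
  obtain ⟨c, hc, hcw⟩ := Polynomial.isUnit_iff.1 w.isUnit
  haveI : NeZero ((2 : ℕ) : k') := ⟨by exact_mod_cast h2⟩
  obtain ⟨r, hr⟩ := IsSepClosed.exists_pow_nat_eq c 2
  have hr0 : r ≠ 0 := by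
    rintro rfl
    rw [zero_pow two_ne_zero] at hr
    exact hc.ne_zero hr.symm
  have hrF : algebraMap k'[X] F (C r) ≠ 0 := by simpa using hr0
  refine ⟨algebraMap k'[X] F (C r) * s / algebraMap k'[X] F q,
    div_ne_zero (mul_ne_zero hrF hs) hqF, ?_⟩
  rw [← hcw, ← hr, C_pow, map_pow] at e
  field_simp
  linear_combination e

end place

section galois

variable {k k' K F Ω : Type} [Field k] [Field k'] [Algebra k k']
  [Field K] [Field F] [Algebra k'[X] F]
  [IsFractionRing k'[X] F] [Field Ω] [Algebra F Ω] [Algebra K Ω]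

theorem par_galois (τ : Ω ≃ₐ[K] Ω) (s : k' ≃ₐ[k] k') (hs : ∀ p : k'[X],
    τ (algebraMap F Ω (algebraMap k'[X] F p)) =
      algebraMap F Ω (algebraMap k'[X] F (p.map (s : k' →+* k')))) {x y : F} (hx : x ≠ 0)
    (hxy : τ (algebraMap F Ω x) = algebraMap F Ω y) (θ : k') :
    par (pl (s θ)) y = par (pl θ) x := by
  obtain ⟨n, d, hd, rfl⟩ := IsFractionRing.div_surjective (A := k'[X]) x
  have hd0 : d ≠ 0 := nonZeroDivisors.ne_zero hd
  have hn0 : n ≠ 0 := by
    rintro rfl
    simp at hx
  have hinj : Function.Injective (s : k' →+* k') := s.injective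
  have hy : y = algebraMap k'[X] F (n.map (s : k' →+* k')) /
      algebraMap k'[X] F (d.map (s : k' →+* k')) := by
    apply (algebraMap F Ω).injective
    rw [← hxy, map_div₀, map_div₀, hs, hs, map_div₀]
  rw [hy, par_div _ ((Polynomial.map_ne_zero_iff hinj).2 hn0)
    ((Polynomial.map_ne_zero_iff hinj).2 hd0), par_div _ hn0 hd0]
  congr 2
  · exact (eq_rootMultiplicity_map hinj θ).symm
  · exact (eq_rootMultiplicity_map hinj θ).symm

/-- A finite set of constants which is stable under the Galois group. -/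
theorem desc [IsGalois k k'] (D : Finset k') (hD : ∀ (s : k' ≃ₐ[k] k'), ∀ θ ∈ D, s θ ∈ D) :
    ∃ A : k[X], A.Monic ∧ A.map (algebraMap k k') = ∏ θ ∈ D, (X - C θ) := by
  have hfix : ∀ s : k' ≃ₐ[k] k', (∏ θ ∈ D, (X - C θ)).map (s : k' →+* k') =
      ∏ θ ∈ D, (X - C θ) := by
    intro s
    rw [Polynomial.map_prod]
    have himg : D.image s = D := by
      apply Finset.eq_of_subset_of_card_le
      · intro x hx
        obtain ⟨θ, hθ, rfl⟩ := Finset.mem_image.1 hx
        exact hD s θ hθ
      · rw [Finset.card_image_of_injective _ s.injective]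
    conv_rhs => rw [← himg]
    rw [Finset.prod_image (fun x _ y _ h => s.injective h)]
    refine Finset.prod_congr rfl fun θ _ => ?_
    rw [Polynomial.map_sub, map_X, map_C]
    rfl
  have hl : (∏ θ ∈ D, (X - C θ)) ∈ Polynomial.lifts (algebraMap k k') := by
    rw [Polynomial.lifts_iff_coeff_lifts]
    intro n
    rw [InfiniteGalois.mem_range_algebraMap_iff_fixed]
    intro s
    have h1 := congrArg (fun p => p.coeff n) (hfix s)
    simp only [coeff_map] at h1
    exact h1
  obtain ⟨A, hA1, -, hA3⟩ := Polynomial.lifts_and_degree_eq_and_monic hl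
    (monic_prod_of_monic _ _ fun θ _ => monic_X_sub_C θ)
  exact ⟨A, hA3, hA1⟩

/-- Swapping of the two classes of a partition of a set of odd order is impossible. -/
theorem no_swap (Z : Finset k') (hodd : Odd Z.card) (s : k' ≃ₐ[k] k') (hZ : ∀ θ ∈ Z, s θ ∈ Z)
    (f : k' → ZMod 2) (hf : ∀ θ ∈ Z, f θ = f (s θ) + 1) : False := by
  have himg : Z.image s = Z := by
    apply Finset.eq_of_subset_of_card_le
    · intro x hx
      obtain ⟨θ, hθ, rfl⟩ := Finset.mem_image.1 hx
      exact hZ θ hθ
    · rw [Finset.card_image_of_injective _ s.injective]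
  have h1 : ∑ θ ∈ Z, f θ = ∑ θ ∈ Z, f (s θ) := by
    conv_lhs => rw [← himg]
    rw [Finset.sum_image (fun x _ y _ h => s.injective h)]
  have h2 : ∑ θ ∈ Z, f θ = ∑ θ ∈ Z, f (s θ) + Z.card := by
    rw [Finset.sum_congr rfl hf, Finset.sum_add_distrib]
    simp
  rw [h1] at h2
  have h3 : ((Z.card : ℕ) : ZMod 2) = 0 := by
    have := left_eq_add.1 h2
    exact this
  rw [ZMod.natCast_eq_zero_iff_even] at h3
  exact (Nat.not_even_iff_odd.2 hodd) h3

end galois

end Pool.Agent.TH115.GD
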