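import Pool.Agent.TH115.GD.Fam

/-!
Families of curves which satisfy the criterion.
-/

set_option autoImplicit false
set_option linter.all false

open Polynomial IsDedekindDomain WeierstrassCurve WeierstrassCurve.Affine
open scoped Classical

namespace Pool.Agent.TH115.GD

section pts

variable {k k' K F : Type} [Field k] [Field k'] [Algebra k k'] [Field K] [Algebra k[X] K]
    [Field F] [Algebra k'[X] F] [IsFractionRing k'[X] F] [Algebra K F] (hT : IsTower k k' K F)
    (h2 : (2 : k) ≠ 0) {a b : k[X]}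

include hT h2 in
/-- A point with polynomial coordinates. -/
theorem exists_pt (ha : a ≠ 0) (hb : b ≠ 0) (hab : a ≠ b) {x y p q : k[X]}
    (hxy : y ^ 2 = x * (x - a) * (x - b))
    (hp : SqEq (emb k K F p) (emb k K F (if x = 0 then a * b else x)))
    (hq : SqEq (emb k K F q) (emb k K F (if x = a then a * (a - b) else x - a))) :
    ∃ P : Pt (crv (algebraMap k[X] K a) (algebraMap k[X] K b)) K, RepP a b F P p q := by
  haveI := hT.fracK
  have h2K : (2 : K) ≠ 0 := tt h2
  have inj := IsFractionRing.injective k[X] K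
  have haK : algebraMap k[X] K a ≠ 0 := by simpa using ha
  have hbK : algebraMap k[X] K b ≠ 0 := by simpa using hb
  have habK : algebraMap k[X] K a ≠ algebraMap k[X] K b := fun h => hab (inj h)
  have hE := isE (algebraMap k[X] K a) (algebraMap k[X] K b) K h2K haK hbK habK
  have hn : ((crv (algebraMap k[X] K a) (algebraMap k[X] K b)).baseChange K).toAffine.Nonsingular
      (algebraMap k[X] K x) (algebraMap k[X] K y) := by
    rw [hE.nonsingular]
    have := congrArg (algebraMap k[X] K) hxy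
    rw [map_pow, map_mul, map_mul, map_sub, map_sub] at this
    exact this
  have i0 : algebraMap k[X] K x = 0 ↔ x = 0 := by
    rw [← map_zero (algebraMap k[X] K)]
    exact inj.eq_iff
  have i1 : algebraMap k[X] K x = algebraMap k[X] K a ↔ x = a := inj.eq_iff
  refine ⟨Point.some _ _ hn, ?_, ?_⟩
  · have e : d0 (algebraMap k[X] K a) (algebraMap k[X] K b) (Point.some _ _ hn) =
        algebraMap k[X] K (if x = 0 then a * b else x) := by
      simp only [d0, i0]
      split_ifs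
      · rw [map_mul]
      · rfl
    rw [e]
    exact hp
  · have e : d1 (algebraMap k[X] K a) (algebraMap k[X] K b) (Point.some _ _ hn) =
        algebraMap k[X] K (if x = a then a * (a - b) else x - a) := by
      simp only [d1, i1]
      split_ifs
      · rw [map_mul, map_sub]
      · rw [map_sub]
    rw [e]
    exact hq

include hT h2 in
/-- The point `(0, 0)`. -/
theorem pt_zero (ha : a ≠ 0) (hb : b ≠ 0) (hab : a ≠ b) {p q : k[X]}
    (hp : SqEq (emb k K F p) (emb k K F (a * b))) (hq : SqEq (emb k K F q) (emb k K F a)) :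
    ∃ P : Pt (crv (algebraMap k[X] K a) (algebraMap k[X] K b)) K, RepP a b F P p q := by
  refine exists_pt hT h2 ha hb hab (x := 0) (y := 0) (by ring) ?_ ?_
  · rw [if_pos rfl]; exact hp
  · rw [if_neg (Ne.symm ha)]
    refine hq.trans ?_
    have h1 : (0 : k[X]) - a = C (-1) * a := by simp
    rw [h1]
    exact (emb_C_mul hT h2 (neg_ne_zero.2 one_ne_zero) a).symm

include hT h2 in
/-- The point `(a, 0)`. -/
theorem pt_a (ha : a ≠ 0) (hb : b ≠ 0) (hab : a ≠ b) {p q : k[X]}
    (hp : SqEq (emb k K F p) (emb k K F a)) (hq : SqEq (emb k K F q) (emb k K F (a * (a - b)))) :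
    ∃ P : Pt (crv (algebraMap k[X] K a) (algebraMap k[X] K b)) K, RepP a b F P p q := by
  refine exists_pt hT h2 ha hb hab (x := a) (y := 0) (by ring) ?_ ?_
  · rw [if_neg ha]; exact hp
  · rw [if_pos rfl]; exact hq

end pts


section gen

variable {k k' K F : Type} [Field k] [Field k'] [Algebra k k'] [Field K] [Algebra k[X] K]
    [Field F] [Algebra k'[X] F] [IsFractionRing k'[X] F] [Algebra K F] (hT : IsTower k k' K F)
    (h2 : (2 : k) ≠ 0) {a b : k[X]}

include hT h2 in
/-- Points for a triple, from generators. -/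
theorem triple (ha : a ≠ 0) (hb : b ≠ 0) (hab : a ≠ b) {m r : ℕ} {p : Fin m → k[X]}
    (hp : ∀ i, p i ≠ 0)
    {G : Fin r → Pt (crv (algebraMap k[X] K a) (algebraMap k[X] K b)) K}
    {M0 M1 : Fin r → Fin m → ℕ}
    (hG : ∀ j, RepP a b F (G j) (∏ i, p i ^ M0 j i) (∏ i, p i ^ M1 j i))
    {A B D : k[X]} {c1 c2 c3 : k} (h1 : c1 ≠ 0) (h2' : c2 ≠ 0) (h3 : c3 ≠ 0) {x y z : Fin m → ℕ}
    (hA : A = C c1 * ∏ i, p i ^ x i) (hB : B = C c2 * ∏ i, p i ^ y i)
    (hD : D = C c3 * ∏ i, p i ^ z i)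
    (he : ∃ e : Fin r → Fin 2, (∀ i, (x i + y i) % 2 = (∑ j, (e j : ℕ) * M0 j i) % 2) ∧
      ∀ i, (x i + z i) % 2 = (∑ j, (e j : ℕ) * M1 j i) % 2) :
    ∃ P : Pt (crv (algebraMap k[X] K a) (algebraMap k[X] K b)) K,
      Represents K F (A * B) (d0 (algebraMap k[X] K a) (algebraMap k[X] K b) P) ∧
      Represents K F (A * D) (d1 (algebraMap k[X] K a) (algebraMap k[X] K b) P) := by
  obtain ⟨e, e0, e1⟩ := he
  have key := RepP.gen hT h2 ha hb hab hp hG (fun j => (e j : ℕ)) e0 e1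
  refine ⟨_, SqEq.trans ?_ key.1, SqEq.trans ?_ key.2⟩
  · have h : A * B = C (c1 * c2) * ∏ i, p i ^ (x i + y i) := by
      rw [hA, hB, C_mul]
      simp_rw [pow_add]
      rw [Finset.prod_mul_distrib]
      ring
    rw [h]
    exact emb_C_mul hT h2 (mul_ne_zero h1 h2') _
  · have h : A * D = C (c1 * c3) * ∏ i, p i ^ (x i + z i) := by
      rw [hA, hD, C_mul]
      simp_rw [pow_add]
      rw [Finset.prod_mul_distrib]
      ring
    rw [h]
    exact emb_C_mul hT h2 (mul_ne_zero h1 h3) _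

end gen

section irr

variable {k : Type} [Field k]

theorem irr_ne {p : k[X]} (h : Irreducible p) : p ≠ 0 := h.ne_zero

theorem sep_of_dvd_irr {π p : k[X]} (hπ : Irreducible π) (hp : Irreducible p) (hs : p.Separable)
    (h : π ∣ p) : π.Separable :=
  hs.of_dvd h

theorem irr_dvd_const {π : k[X]} (hπ : Irreducible π) {c : k} (hc : c ≠ 0) : ¬ π ∣ C c := by
  intro h
  exact hπ.not_isUnit (isUnit_of_dvd_unit h (isUnit_C.2 (isUnit_iff_ne_zero.2 hc)))

end irr

section rank0

theorem dec0 : ∀ x y : Fin 2, ∃ e : Fin 2 → Fin 2,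
    (∀ i, ((![0, 0] : Fin 2 → ℕ) i + (![(x : ℕ), 0] : Fin 2 → ℕ) i) % 2 =
      (∑ j, (e j : ℕ) * (![![1, 0], ![0, 0]] : Fin 2 → Fin 2 → ℕ) j i) % 2) ∧
    ∀ i, ((![0, 0] : Fin 2 → ℕ) i + (![0, (y : ℕ)] : Fin 2 → ℕ) i) % 2 =
      (∑ j, (e j : ℕ) * (![![0, 0], ![0, 1]] : Fin 2 → Fin 2 → ℕ) j i) % 2 := by
  decide

/-- Rank zero: `y ^ 2 = x (x - c) (x - g)`. -/
theorem rank0 {k k' K F : Type} [Field k] [Field k'] [Algebra k k'] [Field K] [Algebra k[X] K]
    [Field F] [Algebra k'[X] F] [IsFractionRing k'[X] F] [Algebra K F] (hT : IsTower k k' K F)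
    (h2 : (2 : k) ≠ 0) {c : k} (hc : c ≠ 0) {g : k[X]} (hg : Irreducible g)
    (hg' : Irreducible (g - C c)) (hsg : g.Separable) (hsg' : (g - C c).Separable)
    (hodd : Odd g.natDegree) :
    TateAtTwo (F := F) k' (crv (algebraMap k[X] K (C c)) (algebraMap k[X] K g)) := by
  have ha : (C c : k[X]) ≠ 0 := C_ne_zero.2 hc
  have hb : g ≠ 0 := hg.ne_zero
  have hab : C c ≠ g := by
    intro h
    rw [h, sub_self] at hg'
    exact hg'.ne_zero rfl
  have hu : IsUnit (C c : k[X]) := isUnit_C.2 (isUnit_iff_ne_zero.2 hc)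
  have hneg : C c - g = C (-1) * (g - C c) := by simp
  have hm1 : (-1 : k) ≠ 0 := neg_ne_zero.2 one_ne_zero
  refine criterion hT h2 ha hb hab ?_ ?_ (Or.inl ?_) ?_
  · exact ⟨C c⁻¹, 0, by rw [← C_mul, inv_mul_cancel₀ hc, C_1, zero_mul, add_zero]⟩
  · intro π hπ hd
    rcases hπ.prime.dvd_or_dvd hd with h | h
    · rcases hπ.prime.dvd_or_dvd h with h | h
      · exact absurd h (irr_dvd_const hπ hc)
      · exact hsg.of_dvd h
    · rw [hneg] at h
      exact hsg'.of_dvd (dvd_unit_mul hm1 h)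
  · rw [natDegree_C, max_eq_right (Nat.zero_le _)]
    exact hodd
  · intro A B D _ _ _ _ _ _ dA dB dD _
    obtain ⟨c1, h1, rfl⟩ := dvd_C hc dA
    obtain ⟨c2, x, h3, rfl⟩ := dvd_irr hg dB
    rw [hneg] at dD
    obtain ⟨c3, y, h4, rfl⟩ := dvd_irr' hg' hm1 dD
    have hp : ∀ i, (![g, g - C c] : Fin 2 → k[X]) i ≠ 0 := by
      intro i
      fin_cases i
      · exact hg.ne_zero
      · exact hg'.ne_zero
    obtain ⟨T0, hT0⟩ := pt_zero (F := F) hT h2 ha hb hab (p := g) (q := 1)
      (emb_C_mul hT h2 hc g).symm (by rw [map_one]; exact (emb_C hT h2 hc).symm)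
    obtain ⟨Ta, hTa⟩ := pt_a (F := F) hT h2 ha hb hab (p := 1) (q := g - C c)
      (by rw [map_one]; exact (emb_C hT h2 hc).symm) (by
        rw [hneg, ← mul_assoc, ← C_mul]
        exact (emb_C_mul hT h2 (mul_ne_zero hc hm1) _).symm)
    refine triple hT h2 ha hb hab hp (G := ![T0, Ta]) (M0 := ![![1, 0], ![0, 0]])
      (M1 := ![![0, 0], ![0, 1]]) ?_ h1 h3 h4 (x := ![0, 0]) (y := ![x, 0]) (z := ![0, y]) ?_ ?_ ?_ ?_
    · intro j
      fin_cases j
      · simpa using hT0
      · simpa using hTa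
    · simp
    · simp
    · simp
    · exact dec0 x y

end rank0

end Pool.Agent.TH115.GD
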